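import Pool.Agent.W5h35.GA.Mem
import Pool.Agent.R352.E.Cnt

/-!
# Counting theorems
-/

set_option autoImplicit false

open Filter Topology Set MeasureTheory
open scoped ComplexConjugate

namespace Pool.Agent.W5h35.GA

open Pool.Agent.R352.E (zt)

/-- the pairs `(l, α)` -/
def Pr (p : ℕ × ℂ) : Prop := 1 ≤ p.1 ∧ IsAlgebraic ℚ p.2 ∧ p.2 ∈ Complex.slitPlane

lemma Ec_alg_set (S : Set (ℕ × ℂ)) (hS : ∀ p ∈ S, Pr p) :
    AlgebraicIndependent Phi (fun p : S => Ec p.1.1 p.1.2) := by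
  let f : S → Ix := fun p => ⟨(p.1.1 - 1, p.1.2), (hS p p.2).2.1, Complex.slitPlane_ne_zero (hS p p.2).2.2⟩
  have hf : Function.Injective f := by
    rintro ⟨⟨l, α⟩, hp⟩ ⟨⟨l', α'⟩, hp'⟩ h
    simp only [f, Subtype.mk.injEq, Prod.mk.injEq] at h
    have h1 := (hS _ hp).1
    have h2 := (hS _ hp').1
    simp only at h1 h2
    have : l = l' := by omega
    simp [this, h.2]
  have h := Ec_alg_Phi.comp f hf
  convert h using 1
  ext p
  have := (hS p p.2).1
  simp only [f, Function.comp]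
  rw [Nat.sub_add_cancel this]

/-- finite counting -/
lemma count_fin {κ : Type*} [Fintype κ] (y : κ → ℂ) (v : ℕ × ℂ → ℂ) (F : Finset (ℕ × ℂ)) (hF : ∀ p ∈ F, Pr p)
    (hmem : ∀ T : Set ℂ, range y ⊆ cl T → (∀ p ∈ F, v p ∈ cl T) → ∀ p ∈ F, Ec p.1 p.2 ∈ cl T)
    (S : Finset (κ ⊕ (ℕ × ℂ))) (hS : ∀ p, Sum.inr p ∈ S → p ∈ F) (halg : ∀ i ∈ S, Sum.elim y v i ∈ cl ∅) :
    S.card ≤ Fintype.card κ := by
  classical
  have hAI := Ec_alg_set (F : Set (ℕ × ℂ)) (fun p hp => hF p hp)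
  let emb : κ ⊕ (F : Set (ℕ × ℂ)) → κ ⊕ (ℕ × ℂ) := Sum.map id Subtype.val
  have hemb : Function.Injective emb := Function.Injective.sumMap Function.injective_id Subtype.val_injective
  let yy : κ ⊕ (F : Set (ℕ × ℂ)) → ℂ := fun k => Sum.elim y v (emb k)
  let S' : Finset (κ ⊕ (F : Set (ℕ × ℂ))) := S.preimage emb hemb.injOn
  have hS'card : S'.card = S.card := by
    rw [Finset.card_preimage, Finset.filter_true_of_mem]
    intro i hi
    rcases i with i | p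
    · exact ⟨Sum.inl i, rfl⟩
    · exact ⟨Sum.inr ⟨p, hS p hi⟩, rfl⟩
  have key := count_gen hAI (y := yy) S' (fun k hk => halg _ (Finset.mem_preimage.1 hk)) ?_
  · rw [Fintype.card_sum, hS'card] at key
    omega
  · intro p
    refine hmem _ ?_ ?_ p.1 p.2
    · rintro _ ⟨j, rfl⟩
      exact subset_cl _ ⟨Sum.inl j, rfl⟩
    · intro q hq
      exact subset_cl _ ⟨Sum.inr ⟨q, hq⟩, rfl⟩

/-- admissible pairs -/
def AdmC (T : Set ℂ) (p : ℕ × ℂ) : Prop :=
  Pr p ∧ (Real.eulerMascheroniConstant : ℂ) + Complex.log p.2 ∈ cl T ∧ ∀ s, 2 ≤ s → s ≤ p.1 → ((zt s : ℝ) : ℂ) ∈ cl T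

lemma AdmC.mono {T T' : Set ℂ} (h : cl T ≤ cl T') {p : ℕ × ℂ} (hp : AdmC T p) : AdmC T' p :=
  ⟨hp.1, h hp.2.1, fun s hs hs' => h (hp.2.2 s hs hs')⟩

lemma AdmC.ec {T : Set ℂ} {p : ℕ × ℂ} (h : AdmC T p) (hd : dC p.1 p.2 ∈ cl T) : Ec p.1 p.2 ∈ cl T :=
  Ec_mem h.1.2.2 h.1.2.1 h.2.1 p.1 h.2.2 hd

theorem trdeg_C {κ : Type*} (y : κ → ℂ) (S : Finset (ℕ × ℂ)) (hS : ∀ p ∈ S, AdmC (range y) p) :
    (S.card : Cardinal) ≤ Algebra.trdeg Phi (IntermediateField.adjoin Phi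
      (range y ∪ (fun p : ℕ × ℂ => dC p.1 p.2) '' (S : Set (ℕ × ℂ)))) := by
  have hAI := Ec_alg_set (S : Set (ℕ × ℂ)) (fun p hp => (hS p hp).1)
  have h := trdeg_ge hAI (A := range y ∪ (fun p : ℕ × ℂ => dC p.1 p.2) '' (S : Set (ℕ × ℂ))) ?_
  · refine le_trans (le_of_eq ?_) h
    simp
  · intro p
    refine AdmC.ec ((hS p.1 p.2).mono (cl_mono subset_union_left)) (subset_cl _ (Or.inr ⟨p.1, p.2, rfl⟩))

theorem count_C {κ : Type*} [Fintype κ] (y : κ → ℂ) (P : Set (ℕ × ℂ)) (hP : ∀ p ∈ P, AdmC (range y) p) :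
    {i : κ ⊕ (ℕ × ℂ) | Sum.elim (fun j => y j ∈ cl ∅) (fun p => p ∈ P ∧ dC p.1 p.2 ∈ cl ∅) i}.encard ≤
      (Fintype.card κ : ℕ∞) := by
  classical
  refine Pool.Agent.R352.E.encard_le_of_finset _ _ fun S hS => ?_
  let F : Finset (ℕ × ℂ) := S.preimage Sum.inr Sum.inr_injective.injOn
  have hF : ∀ p ∈ F, p ∈ P ∧ dC p.1 p.2 ∈ cl ∅ := fun p hp => hS (Finset.mem_preimage.1 hp)
  refine count_fin y (fun p => dC p.1 p.2) F (fun p hp => (hP p (hF p hp).1).1) ?_ S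
    (fun p hp => Finset.mem_preimage.2 hp) ?_
  · intro T hT hv p hp
    exact ((hP p (hF p hp).1).mono (cl_le hT)).ec (hv p hp)
  · rintro (j | p) hi
    · exact hS hi
    · exact (hS hi : p ∈ P ∧ dC p.1 p.2 ∈ cl ∅).2

/-! ## real and imaginary parts -/

lemma dC_conj (l : ℕ) {α : ℂ} (hα : α ∈ Complex.slitPlane) : dC l (conj α) = conj (dC l α) := by
  rw [dC, dC, ← integral_conj]
  refine setIntegral_congr_fun measurableSet_Ioi fun s hs => ?_
  have hs' : (0 : ℝ) < s := hs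
  have h1 := slit_one_add hα hs'.le
  have h2 : 1 + (s : ℂ) / conj α = conj (1 + (s : ℂ) / α) := by
    simp
  simp only [h2]
  rw [Complex.log_conj _ (Complex.slitPlane_arg_ne_pi h1), map_mul, map_pow, Complex.conj_ofReal]

lemma slit_conj {α : ℂ} (hα : α ∈ Complex.slitPlane) : conj α ∈ Complex.slitPlane := by
  rw [Complex.mem_slitPlane_iff] at hα ⊢
  simpa using hα

lemma alg_conj {α : ℂ} (hα : IsAlgebraic ℚ α) : IsAlgebraic ℚ (conj α) :=
  hα.algHom (Complex.conjAe.toAlgHom.restrictScalars ℚ)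

/-- the real part for `Im α ≥ 0`, the imaginary part for `Im α < 0` -/
noncomputable def part (l : ℕ) (α : ℂ) : ℝ := if 0 ≤ α.im then (dC l α).re else (dC l α).im

lemma dC_part (l : ℕ) {α : ℂ} (hα : α ∈ Complex.slitPlane) {T : Set ℂ} (h1 : (part l α : ℂ) ∈ cl T)
    (h2 : (part l (conj α) : ℂ) ∈ cl T) : dC l α ∈ cl T := by
  have hc := dC_conj l hα
  have e : dC l α = ((dC l α).re : ℂ) + ((dC l α).im : ℂ) * Complex.I := (Complex.re_add_im _).symm
  rcases lt_trichotomy α.im 0 with h | h | h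
  · have e1 : part l α = (dC l α).im := by rw [part, if_neg (by linarith)]
    have e2 : part l (conj α) = (dC l α).re := by
      rw [part, if_pos (by rw [Complex.conj_im]; linarith), hc, Complex.conj_re]
    rw [e1] at h1
    rw [e2] at h2
    rw [e]
    exact (cl T).add_mem h2 ((cl T).mul_mem h1 I_mem)
  · have e1 : part l α = (dC l α).re := by rw [part, if_pos (by linarith)]
    have e2 : conj α = α := Complex.conj_eq_iff_im.2 h
    rw [e2] at hc
    have e3 : (dC l α).im = 0 := Complex.conj_eq_iff_im.1 hc.symm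
    rw [e1] at h1
    rw [e, e3]
    simpa using h1
  · have e1 : part l α = (dC l α).re := by rw [part, if_pos h.le]
    have e2 : part l (conj α) = -(dC l α).im := by
      rw [part, if_neg (by rw [Complex.conj_im]; linarith), hc, Complex.conj_im]
    rw [e1] at h1
    rw [e2] at h2
    rw [e]
    refine (cl T).add_mem h1 ((cl T).mul_mem ?_ I_mem)
    have := (cl T).neg_mem h2
    push_cast at this
    rwa [neg_neg] at this

/-- admissible pairs, real version -/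
def AdmR (T : Set ℂ) (p : ℕ × ℂ) : Prop :=
  Pr p ∧ ((Real.eulerMascheroniConstant + Real.log ‖p.2‖ : ℝ) : ℂ) ∈ cl T ∧ ((p.2.arg : ℝ) : ℂ) ∈ cl T ∧
    ∀ s, 2 ≤ s → s ≤ p.1 → ((zt s : ℝ) : ℂ) ∈ cl T

lemma AdmR.toC {T : Set ℂ} {p : ℕ × ℂ} (h : AdmR T p) : AdmC T p := by
  refine ⟨h.1, ?_, h.2.2.2⟩
  have e : (Real.eulerMascheroniConstant : ℂ) + Complex.log p.2 =
      ((Real.eulerMascheroniConstant + Real.log ‖p.2‖ : ℝ) : ℂ) + ((p.2.arg : ℝ) : ℂ) * Complex.I := by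
    rw [Complex.log]
    push_cast
    ring
  rw [e]
  exact (cl T).add_mem h.2.1 ((cl T).mul_mem h.2.2.1 I_mem)

lemma AdmR.conj {T : Set ℂ} {p : ℕ × ℂ} (h : AdmR T p) : AdmR T (p.1, conj p.2) := by
  obtain ⟨⟨h1, h2, h3⟩, h4, h5, h6⟩ := h
  refine ⟨⟨h1, alg_conj h2, slit_conj h3⟩, ?_, ?_, h6⟩
  · rw [Complex.norm_conj]
    exact h4
  · rw [Complex.arg_conj, if_neg (Complex.slitPlane_arg_ne_pi h3)]
    push_cast
    exact (cl T).neg_mem h5

lemma AdmR.mono {T T' : Set ℂ} (h : cl T ≤ cl T') {p : ℕ × ℂ} (hp : AdmR T p) : AdmR T' p :=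
  ⟨hp.1, h hp.2.1, h hp.2.2.1, fun s hs hs' => h (hp.2.2.2 s hs hs')⟩

theorem count_R {κ : Type*} [Fintype κ] (y : κ → ℂ) (P : Set (ℕ × ℂ)) (hP : ∀ p ∈ P, AdmR (range y) p) :
    {i : κ ⊕ (ℕ × ℂ) | Sum.elim (fun j => y j ∈ cl ∅) (fun p => p ∈ P ∧ (part p.1 p.2 : ℂ) ∈ cl ∅) i}.encard ≤
      (Fintype.card κ : ℕ∞) := by
  classical
  refine Pool.Agent.R352.E.encard_le_of_finset _ _ fun S hS => ?_
  let F0 : Finset (ℕ × ℂ) := S.preimage Sum.inr Sum.inr_injective.injOn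
  have hF0 : ∀ p ∈ F0, p ∈ P := fun p hp => (hS (Finset.mem_preimage.1 hp) : p ∈ P ∧ _).1
  let F : Finset (ℕ × ℂ) := F0 ∪ F0.image (fun p => (p.1, conj p.2))
  have hF : ∀ p ∈ F, AdmR (range y) p ∧ ((p.1, conj p.2) : ℕ × ℂ) ∈ F := by
    intro p hp
    rcases Finset.mem_union.1 hp with h | h
    · exact ⟨hP p (hF0 p h), Finset.mem_union_right _ (Finset.mem_image_of_mem _ h)⟩
    · obtain ⟨q, hq, rfl⟩ := Finset.mem_image.1 h
      refine ⟨(hP q (hF0 q hq)).conj, Finset.mem_union_left _ ?_⟩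
      simpa using hq
  refine count_fin y (fun p => (part p.1 p.2 : ℂ)) F (fun p hp => (hF p hp).1.1) ?_ S
    (fun p hp => Finset.mem_union_left _ (Finset.mem_preimage.2 hp)) ?_
  · intro T hT hv p hp
    refine ((hF p hp).1.mono (cl_le hT)).toC.ec ?_
    exact dC_part p.1 (hF p hp).1.1.2.2 (hv p hp) (hv _ (hF p hp).2)
  · rintro (j | p) hi
    · exact hS hi
    · exact (hS hi : p ∈ P ∧ _).2

/-! ## the exponential integral -/

/-- the real part of the exponential integral -/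
noncomputable def reE (α : ℂ) : ℝ := (Complex.exp (-α) * dC 1 α).re

lemma Ec_one {α : ℂ} (hα : α ∈ Complex.slitPlane) :
    Ec 1 α = Real.eulerMascheroniConstant + Complex.log α + Complex.exp (-α) * dC 1 α := by
  have h := coeff_PBc 1 (Complex.log α)
  have h1 : Nc 1 (Complex.log α) = -Real.eulerMascheroniConstant - Complex.log α := by
    have h2 := congrArg (PowerSeries.coeff 0) (dPBc (Complex.log α))
    rw [PowerSeries.coeff_derivative, PowerSeries.coeff_mul, Finset.Nat.antidiagonal_zero, Finset.sum_singleton, zero_add,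
      coeff_PBc, coeff_PBc, map_sub, PowerSeries.coeff_C, PCc, PowerSeries.coeff_mk] at h2
    simp only [Pool.Agent.R352.E.cc, if_true, Nat.factorial_one, Nat.factorial_zero, Nat.cast_one, div_one, Nat.cast_zero,
      zero_add, mul_one] at h2
    rw [h2]
    have h3 : Nc 0 (Complex.log α) = 1 := by
      rw [Nc]
      simp [Pool.Agent.R352.E.mo0]
    rw [h3]
    push_cast
    ring
  rw [Ec_rel 1 hα, h1]
  simp only [pow_one, Nat.factorial_one, Nat.cast_one]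
  ring

lemma reE_eq {α : ℂ} (hα : α ∈ Complex.slitPlane) :
    (Ec 1 α).re = (Real.eulerMascheroniConstant + Real.log ‖α‖) + reE α := by
  rw [Ec_one hα, Complex.add_re, Complex.add_re, Complex.ofReal_re, Complex.log_re, reE]

lemma Ec_conj (l : ℕ) (α : ℂ) : Ec l (conj α) = conj (Ec l α) := by
  rw [Ec_eq, Ec_eq, Complex.conj_tsum]
  refine tsum_congr fun m => ?_
  simp

theorem count_one {κ : Type*} [Fintype κ] (y : κ → ℂ) (P : Set ℂ) (hP : ∀ α ∈ P, IsAlgebraic ℚ α ∧ α ∈ Complex.slitPlane ∧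
      0 ≤ α.im ∧ ((Real.eulerMascheroniConstant + Real.log ‖α‖ : ℝ) : ℂ) ∈ cl (range y)) :
    {i : κ ⊕ ℂ | Sum.elim (fun j => y j ∈ cl ∅) (fun α => α ∈ P ∧ (reE α : ℂ) ∈ cl ∅) i}.encard ≤
      (Fintype.card κ : ℕ∞) := by
  classical
  refine Pool.Agent.R352.E.encard_le_of_finset _ _ fun S hS => ?_
  let F0 : Finset ℂ := S.preimage Sum.inr Sum.inr_injective.injOn
  have hF0 : ∀ α ∈ F0, α ∈ P := fun α hα => (hS (Finset.mem_preimage.1 hα) : α ∈ P ∧ _).1
  let F : Finset ℂ := F0 ∪ F0.image conj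
  have hF : ∀ α ∈ F, (IsAlgebraic ℚ α ∧ α ∈ Complex.slitPlane ∧
      ((Real.eulerMascheroniConstant + Real.log ‖α‖ : ℝ) : ℂ) ∈ cl (range y)) ∧ conj α ∈ F ∧ (0 ≤ α.im → α ∈ F0) := by
    intro α hα
    rcases Finset.mem_union.1 hα with h | h
    · obtain ⟨h1, h2, h3, h4⟩ := hP α (hF0 α h)
      exact ⟨⟨h1, h2, h4⟩, Finset.mem_union_right _ (Finset.mem_image_of_mem _ h), fun _ => h⟩
    · obtain ⟨β, hβ, rfl⟩ := Finset.mem_image.1 h
      obtain ⟨h1, h2, h3, h4⟩ := hP β (hF0 β hβ)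
      refine ⟨⟨alg_conj h1, slit_conj h2, by rwa [Complex.norm_conj]⟩, Finset.mem_union_left _ (by simpa using hβ), fun h5 => ?_⟩
      rw [Complex.conj_im] at h5
      have h6 : β.im = 0 := by linarith
      rw [Complex.conj_eq_iff_im.2 h6]
      exact hβ
  -- values: the real part for `Im α ≥ 0`, the number itself for `Im α < 0`
  let v : ℕ × ℂ → ℂ := fun p => if 0 ≤ p.2.im then (reE p.2 : ℂ) else Ec 1 p.2
  let G : Finset (ℕ × ℂ) := F.image (fun α => (1, α))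
  let e : κ ⊕ ℂ → κ ⊕ (ℕ × ℂ) := Sum.map id (fun α => (1, α))
  have he : Function.Injective e := Function.Injective.sumMap Function.injective_id (fun a b h => by simpa using h)
  have hG : ∀ p ∈ G, p.1 = 1 ∧ p.2 ∈ F := by
    intro p hp
    obtain ⟨α, hα, rfl⟩ := Finset.mem_image.1 hp
    exact ⟨rfl, hα⟩
  have key := count_fin y v G (fun p hp => ⟨(hG p hp).1.ge, (hF _ (hG p hp).2).1.1, (hF _ (hG p hp).2).1.2.1⟩) ?_
    (S.image e) ?_ ?_
  · rwa [Finset.card_image_of_injective _ he] at key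
  · intro T hT hv p hp
    obtain ⟨h1, h2⟩ := hG p hp
    rw [h1]
    have hre : ∀ α ∈ F, 0 ≤ α.im → (((Ec 1 α).re : ℝ) : ℂ) ∈ cl T := by
      intro α hα h0
      have h3 := hv (1, α) (Finset.mem_image_of_mem _ hα)
      simp only [v, if_pos h0] at h3
      rw [reE_eq (hF α hα).1.2.1, Complex.ofReal_add]
      exact (cl T).add_mem (cl_le hT (hF α hα).1.2.2) h3
    rcases lt_trichotomy p.2.im 0 with h | h | h
    · have h3 := hv p hp
      simp only [v, if_neg (not_le.2 h)] at h3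
      exact h3
    · have h3 := hre p.2 h2 h.ge
      have h4 : conj (Ec 1 p.2) = Ec 1 p.2 := by
        rw [← Ec_conj, Complex.conj_eq_iff_im.2 h]
      rwa [Complex.conj_eq_iff_re.1 h4] at h3
    · have h3 := hre p.2 h2 h.le
      have h4 := hv (1, conj p.2) (Finset.mem_image_of_mem _ (hF _ h2).2.1)
      simp only [v, Complex.conj_im, if_neg (by linarith : ¬ 0 ≤ -p.2.im)] at h4
      rw [Ec_conj] at h4
      have h5 : Ec 1 p.2 = 2 * (((Ec 1 p.2).re : ℝ) : ℂ) - conj (Ec 1 p.2) := by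
        have := Complex.add_conj (Ec 1 p.2)
        push_cast at this
        rw [← this]
        ring
      rw [h5]
      refine (cl T).sub_mem ((cl T).mul_mem ?_ h3) h4
      exact_mod_cast natCast_mem (cl T) 2
  · intro p hp
    obtain ⟨i, hi, h⟩ := Finset.mem_image.1 hp
    rcases i with j | α
    · simp [e] at h
    · simp only [e, Sum.map_inr, Sum.inr.injEq] at h
      rw [← h]
      exact Finset.mem_image_of_mem _ (Finset.mem_union_left _ (Finset.mem_preimage.2 hi))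
  · intro p hp
    obtain ⟨i, hi, rfl⟩ := Finset.mem_image.1 hp
    rcases i with j | α
    · exact hS hi
    · have h1 : α ∈ P ∧ (reE α : ℂ) ∈ cl ∅ := hS hi
      have h2 := (hP α h1.1).2.2.1
      simp only [e, Sum.map_inr, Sum.elim_inr, v, if_pos h2]
      exact h1.2

/-! ## logarithms of elements of groups -/

lemma log_mem {T : Set ℂ} (hpi : (Real.pi : ℂ) ∈ cl T) {m : ℕ} {β : Fin m → ℂ} (hβ : ∀ j, β j ≠ 0)
    (hlog : ∀ j, Complex.log (β j) ∈ cl T) {α : ℂ} (hα : α ≠ 0) {n : ℕ} (hn : n ≠ 0) {k : Fin m → ℤ}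
    (h : α ^ n = ∏ j, β j ^ k j) : Complex.log α ∈ cl T := by
  have h1 : Complex.exp (n * Complex.log α) = Complex.exp (∑ j, (k j : ℂ) * Complex.log (β j)) := by
    rw [Complex.exp_sum, Complex.exp_nat_mul, Complex.exp_log hα, h]
    refine Finset.prod_congr rfl fun j _ => ?_
    rw [Complex.exp_int_mul, Complex.exp_log (hβ j)]
  obtain ⟨N, hN⟩ := Complex.exp_eq_exp_iff_exists_int.1 h1
  have hn' : (n : ℂ) ≠ 0 := by exact_mod_cast hn
  have h2 : Complex.log α = ((∑ j, (k j : ℂ) * Complex.log (β j)) + N * (2 * Real.pi * Complex.I)) / n := by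
    rw [eq_div_iff hn', mul_comm, hN]
  rw [h2]
  refine (cl T).div_mem ((cl T).add_mem ((cl T).sum_mem fun j _ => (cl T).mul_mem (intCast_mem _ _) (hlog j))
    ((cl T).mul_mem (intCast_mem _ _) ((cl T).mul_mem ((cl T).mul_mem ?_ hpi) I_mem))) (natCast_mem _ _)
  exact_mod_cast natCast_mem (cl T) 2

/-- absolute values -/
lemma log_norm_mem {T : Set ℂ} {m : ℕ} {b : Fin m → ℝ} (hb : ∀ j, 0 < b j)
    (hlog : ∀ j, ((Real.log (b j) : ℝ) : ℂ) ∈ cl T) {α : ℂ} {n : ℕ} (hn : n ≠ 0) {k : Fin m → ℤ}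
    (h : ‖α‖ ^ n = ∏ j, b j ^ k j) : ((Real.log ‖α‖ : ℝ) : ℂ) ∈ cl T := by
  have h1 : (n : ℝ) * Real.log ‖α‖ = ∑ j, (k j : ℝ) * Real.log (b j) := by
    rw [← Real.log_pow, h, Real.log_prod]
    · exact Finset.sum_congr rfl fun j _ => Real.log_zpow _ _
    · intro j _
      exact zpow_ne_zero _ (hb j).ne'
  have hn' : (n : ℝ) ≠ 0 := by exact_mod_cast hn
  have h2 : Real.log ‖α‖ = (∑ j, (k j : ℝ) * Real.log (b j)) / n := by
    rw [eq_div_iff hn', mul_comm, h1]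
  rw [h2]
  push_cast
  exact (cl T).div_mem ((cl T).sum_mem fun j _ => (cl T).mul_mem (intCast_mem _ _) (hlog j)) (natCast_mem _ _)

/-- arguments and absolute values from logarithms -/
lemma arg_mem {T : Set ℂ} {α : ℂ} (h1 : Complex.log α ∈ cl T) (h2 : ((Real.log ‖α‖ : ℝ) : ℂ) ∈ cl T) :
    ((α.arg : ℝ) : ℂ) ∈ cl T := by
  have h3 : ((α.arg : ℝ) : ℂ) = (Complex.log α - ((Real.log ‖α‖ : ℝ) : ℂ)) / Complex.I := by
    rw [Complex.log, eq_div_iff Complex.I_ne_zero]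
    ring
  rw [h3]
  exact (cl T).div_mem ((cl T).sub_mem h1 h2) I_mem

end Pool.Agent.W5h35.GA
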