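import Pool.Agent.W5h35.GA.Ost

/-!
# Algebraic independence of iterated primitives
-/

set_option autoImplicit false

open Polynomial

namespace Pool.Agent.W5h35.GA

variable {C L : Type} [Field C] [Field L] [Algebra C L] [Differential L]

lemma dL_add (x y : L) : dL (x + y) = dL x + dL y := map_add _ x y
lemma dL_neg (x : L) : dL (-x) = -dL x := map_neg _ x
lemma dL_one : dL (1 : L) = 0 := Derivation.map_one_eq_zero _
lemma dL_mul (x y : L) : dL (x * y) = x * dL y + y * dL x := Derivation.leibniz _ x y
lemma dL_inv (x : L) : dL x⁻¹ = -(x⁻¹ ^ 2) * dL x := by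
  rw [dL, Derivation.leibniz_inv, smul_eq_mul]

/-- the field generated over `F` by a set -/
noncomputable def ext (F : Subfield L) (S : Set L) : Subfield L := (IntermediateField.adjoin F S).toSubfield

lemma le_ext (F : Subfield L) (S : Set L) : F ≤ ext F S := by
  intro x hx
  exact (IntermediateField.adjoin F S).algebraMap_mem (⟨x, hx⟩ : F)

lemma subset_ext (F : Subfield L) (S : Set L) : S ⊆ ext F S := IntermediateField.subset_adjoin F S

lemma ext_le {F : Subfield L} {S : Set L} {K : Subfield L} (h1 : F ≤ K) (h2 : S ⊆ K) : ext F S ≤ K := by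
  intro x hx
  have : IntermediateField.adjoin F S ≤ (K.toIntermediateField (fun a => h1 a.2) : IntermediateField F L) :=
    IntermediateField.adjoin_le_iff.2 h2
  exact this hx

lemma ext_ext (F : Subfield L) (S T : Set L) : ext (ext F S) T = ext F (S ∪ T) := by
  apply le_antisymm
  · refine ext_le (ext_le (le_ext _ _) (Set.subset_union_left.trans (subset_ext _ _)))
      (Set.subset_union_right.trans (subset_ext _ _))
  · refine ext_le ((le_ext _ _).trans (le_ext _ _)) (Set.union_subset ?_ (subset_ext _ _))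
    exact (subset_ext F S).trans (le_ext _ _)

lemma ext_empty (F : Subfield L) : ext F ∅ = F :=
  le_antisymm (ext_le le_rfl (Set.empty_subset _)) (le_ext _ _)

theorem Stb.ext {F : Subfield L} (hF : Stb C F) {S : Set L} (hS : ∀ y ∈ S, dL y ∈ ext F S) : Stb C (ext F S) where
  const := fun c => le_ext F S (hF.const c)
  stable := by
    intro x hx
    refine IntermediateField.adjoin_induction (F := F) (s := S) (p := fun x _ => dL x ∈ GA.ext F S) ?_ ?_ ?_ ?_ ?_ hx
    · intro x hx; exact hS x hx
    · intro x
      exact le_ext F S (hF.stable _ x.2)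
    · intro x y _ _ hx hy
      rw [dL, map_add]; exact add_mem hx hy
    · intro x _ hx
      rw [dL, Derivation.leibniz_inv]
      refine (GA.ext F S).mul_mem (neg_mem ((GA.ext F S).pow_mem ((GA.ext F S).inv_mem ?_) 2)) hx
      assumption
    · intro x y hx0 hy0 hx hy
      rw [dL, Derivation.leibniz]
      exact add_mem ((GA.ext F S).mul_mem hx0 hy) ((GA.ext F S).mul_mem hy0 hx)

variable {ι : Type} {F : Subfield L} {y : ι → L}

lemma stb_img (hF : Stb C F) (hy : ∀ i, dL (y i) ∈ F) (s : Set ι) : Stb C (ext F (y '' s)) := by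
  apply hF.ext
  rintro _ ⟨i, _, rfl⟩
  exact le_ext _ _ (hy i)

lemma tr_ext {s : Set ι} {i : ι} (h : Transcendental (Algebra.adjoin F (y '' s)) (y i)) : Transcendental (ext F (y '' s)) (y i) :=
  IntermediateField.transcendental_adjoin_iff.2 h

theorem descend [CharZero L] (hC : Cst C L) (hF : Stb C F) (hy : ∀ i, dL (y i) ∈ F) (s : Finset ι)
    (hs : AlgebraicIndepOn F y (s : Set ι)) : ∀ f ∈ ext F (y '' (s : Set ι)), dL f ∈ F →
    ∃ c : ι → C, f - ∑ i ∈ s, algebraMap C L (c i) * y i ∈ F := by
  classical
  induction s using Finset.induction_on with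
  | empty =>
    intro f hf _
    refine ⟨0, ?_⟩
    rw [Finset.coe_empty, Set.image_empty, ext_empty] at hf
    rw [Finset.sum_empty, sub_zero]
    exact hf
  | insert a s ha ih =>
    intro f hf hf'
    rw [Finset.coe_insert] at hs hf
    obtain ⟨h1, h2⟩ := (AlgebraicIndepOn.insert_iff (by simpa using ha)).1 hs
    have h3 := tr_ext h2
    have hst := stb_img hF hy (s : Set ι)
    rw [Set.image_insert_eq, Set.insert_eq, Set.union_comm, ← ext_ext] at hf
    obtain ⟨_, c, hc⟩ := simple hC hst h3 (le_ext _ _ (hy a)) hf (c := 0) (b := dL f) (le_ext _ _ hf') (by simp)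
    obtain ⟨c', hc'⟩ := ih h1 _ hc (by
      rw [dL, map_sub, Derivation.leibniz]
      have h5 : Differential.deriv (algebraMap C L c) = 0 := hC.1 c
      rw [h5, smul_zero, add_zero, smul_eq_mul]
      exact F.sub_mem hf' (F.mul_mem (hF.const c) (hy a)))
    refine ⟨Function.update c' a c, ?_⟩
    rw [Finset.sum_insert ha, Function.update_self]
    have h6 : ∑ i ∈ s, algebraMap C L (Function.update c' a c i) * y i = ∑ i ∈ s, algebraMap C L (c' i) * y i := by
      refine Finset.sum_congr rfl fun i hi => ?_
      rw [Function.update_of_ne]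
      rintro rfl
      exact ha hi
    rw [h6]
    have h7 : f - (algebraMap C L c * y a + ∑ i ∈ s, algebraMap C L (c' i) * y i) =
        f - algebraMap C L c * y a - ∑ i ∈ s, algebraMap C L (c' i) * y i := by ring
    rw [h7]
    exact hc'

/-- Ostrowski's theorem -/
theorem ostrowski [CharZero L] [Fintype ι] (hC : Cst C L) (hF : Stb C F) (hy : ∀ i, dL (y i) ∈ F)
    (H : ∀ c : ι → C, ∑ i, algebraMap C L (c i) * y i ∈ F → c = 0) : AlgebraicIndependent F y := by
  classical
  apply algebraicIndependent_of_finite_type' (FaithfulSMul.algebraMap_injective F L)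
  intro t ht hind i hi hal
  obtain ⟨u, rfl⟩ := ht.exists_finset_coe
  have hiu : i ∉ u := fun h => hi (Finset.mem_coe.2 h)
  have h1 : IsAlgebraic (ext F (y '' (u : Set ι))) (y i) := by
    by_contra h
    have := IntermediateField.transcendental_adjoin_iff.1
      (show Transcendental (IntermediateField.adjoin F (y '' (u : Set ι))) (y i) from h)
    exact this hal
  have h2 := mem_of_alg hC (stb_img hF hy (u : Set ι)) h1 (le_ext _ _ (hy i))
  obtain ⟨c, hc⟩ := descend hC hF hy u hind (y i) h2 (hy i)
  have h3 := H (fun j => if j ∈ u then - c j else if j = i then 1 else 0) (by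
    have h4 : ∑ j, algebraMap C L (if j ∈ u then - c j else if j = i then 1 else 0) * y j =
        y i - ∑ j ∈ u, algebraMap C L (c j) * y j := by
      have h5 : ∀ j, algebraMap C L (if j ∈ u then - c j else if j = i then 1 else 0) * y j =
          (if j = i then y i else 0) - (if j ∈ u then algebraMap C L (c j) * y j else 0) := by
        intro j
        by_cases hj : j ∈ u
        · have hji : j ≠ i := by
            rintro rfl
            exact hiu hj
          rw [if_pos hj, if_pos hj, if_neg hji, map_neg]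
          ring
        · by_cases hji : j = i
          · rw [if_neg hj, if_neg hj, if_pos hji, if_pos hji, hji, map_one, one_mul, sub_zero]
          · rw [if_neg hj, if_neg hj, if_neg hji, if_neg hji, map_zero, zero_mul, sub_zero]
      rw [Finset.sum_congr rfl fun j _ => h5 j, Finset.sum_sub_distrib, Finset.sum_ite_eq', if_pos (Finset.mem_univ i),
        ← Finset.sum_filter]
      congr 1
      refine Finset.sum_congr ?_ fun _ _ => rfl
      ext j
      simp
    rw [h4]
    exact hc)
  have h4 := congrFun h3 i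
  simp only [hiu, if_false, if_true, Pi.zero_apply] at h4
  exact one_ne_zero h4

/-- the next level -/
theorem next [CharZero L] [Fintype ι] (hC : Cst C L) (hF : Stb C F) (hy : ∀ i, dL (y i) ∈ F)
    (hind : AlgebraicIndependent F y) {f : L} (hf : f ∈ ext F (Set.range y)) {c : ι → C}
    (hfc : dL f = ∑ i, algebraMap C L (c i) * y i) : c = 0 := by
  classical
  funext i
  have h1 : Transcendental (ext F (y '' {i}ᶜ)) (y i) := tr_ext (hind.transcendental_adjoin (by simp))
  have h2 : f ∈ ext (ext F (y '' {i}ᶜ)) {y i} := by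
    rw [ext_ext, ← Set.image_singleton, ← Set.image_union, Set.compl_union_self, Set.image_univ]
    exact hf
  refine (simple hC (stb_img hF hy _) h1 (le_ext _ _ (hy i)) h2 (c := c i)
    (b := ∑ j ∈ Finset.univ.erase i, algebraMap C L (c j) * y j) ?_ ?_).1
  · refine Subfield.sum_mem _ fun j hj => Subfield.mul_mem _ (le_ext _ _ (hF.const _)) (subset_ext _ _ ⟨j, ?_, rfl⟩)
    simpa using (Finset.mem_erase.1 hj).1
  · rw [hfc, Finset.add_sum_erase _ (fun j => algebraMap C L (c j) * y j) (Finset.mem_univ i)]

/-- the fields of the tower -/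
noncomputable def Fl (F : Subfield L) (Y : ℕ → ι → L) : ℕ → Subfield L
  | 0 => F
  | l + 1 => ext (Fl F Y l) (Set.range (Y (l + 1)))

theorem tower [CharZero L] [Fintype ι] (hC : Cst C L) (hF : Stb C F) (Y : ℕ → ι → L) (hY0 : ∀ i, Y 0 i ∈ F)
    (hY : ∀ l i, dL (Y (l + 1) i) = Y l i)
    (H : ∀ (c : ι → C) (f : L), f ∈ F → dL f = ∑ i, algebraMap C L (c i) * Y 0 i → c = 0) (l : ℕ) :
    (∀ i, Y l i ∈ Fl F Y l) ∧ Stb C (Fl F Y l) ∧ AlgebraicIndependent (Fl F Y l) (Y (l + 1)) := by
  have hD : ∀ (l : ℕ) (c : ι → C), dL (∑ i, algebraMap C L (c i) * Y (l + 1) i) = ∑ i, algebraMap C L (c i) * Y l i := by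
    intro l c
    rw [dL, map_sum]
    refine Finset.sum_congr rfl fun i _ => ?_
    rw [Derivation.leibniz]
    have h5 : Differential.deriv (algebraMap C L (c i)) = 0 := hC.1 _
    rw [h5, smul_zero, add_zero, smul_eq_mul]
    congr 1
    exact hY l i
  induction l with
  | zero =>
    refine ⟨hY0, hF, ?_⟩
    apply ostrowski hC (F := F) hF
    · intro i; rw [hY 0 i]; exact hY0 i
    · intro c hc
      exact H c _ hc (hD 0 c)
  | succ l ih =>
    obtain ⟨h1, h2, h3⟩ := ih
    have hm : ∀ i, dL (Y (l + 1) i) ∈ Fl F Y l := fun i => by rw [hY l i]; exact h1 i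
    have hm1 : ∀ i, Y (l + 1) i ∈ Fl F Y (l + 1) := fun i => subset_ext _ _ ⟨i, rfl⟩
    have hst : Stb C (Fl F Y (l + 1)) := by
      apply h2.ext
      rintro _ ⟨i, rfl⟩
      exact le_ext _ _ (hm i)
    refine ⟨hm1, hst, ?_⟩
    apply ostrowski hC hst
    · intro i; rw [hY (l + 1) i]; exact hm1 i
    · intro c hc
      exact next hC h2 hm h3 hc (hD (l + 1) c)

end Pool.Agent.W5h35.GA
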