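import Pool.Agent.W5h35.GA.Num2

/-!
# Algebraic closure over the field generated by the exponentials of algebraic numbers
-/

set_option autoImplicit false

open Set

namespace Pool.Agent.W5h35.GA

/-- the field generated by the exponentials of algebraic numbers -/
noncomputable def Phi : IntermediateField ℚ ℂ := IntermediateField.adjoin ℚ expAlg

theorem Ec_alg_Phi : AlgebraicIndependent Phi (fun i : Ix => Ec (i.1.1 + 1) i.1.2) :=
  IntermediateField.algebraicIndependent_adjoin_iff.2 Ec_alg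

/-- the matroid of algebraic independence -/
noncomputable abbrev Mc : Matroid ℂ := AlgebraicIndependent.matroid Phi ℂ

lemma mem_cl_iff {S : Set ℂ} {x : ℂ} : x ∈ Mc.closure S ↔ IsAlgebraic (Algebra.adjoin Phi S) x := by
  rw [AlgebraicIndependent.matroid_closure_eq]
  exact Iff.rfl

open scoped IntermediateField.algebraAdjoinAdjoin in
lemma mem_cl_iff' {S : Set ℂ} {x : ℂ} : x ∈ Mc.closure S ↔ IsAlgebraic (IntermediateField.adjoin Phi S) x := by
  rw [mem_cl_iff]
  exact IsFractionRing.isAlgebraic_iff (Algebra.adjoin Phi S) (IntermediateField.adjoin Phi S) ℂ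

/-- the closure as a field -/
noncomputable def cl (S : Set ℂ) : Subfield ℂ where
  carrier := Mc.closure S
  mul_mem' := fun ha hb => mem_cl_iff.2 ((mem_cl_iff.1 ha).mul (mem_cl_iff.1 hb))
  one_mem' := mem_cl_iff.2 isAlgebraic_one
  add_mem' := fun ha hb => mem_cl_iff.2 ((mem_cl_iff.1 ha).add (mem_cl_iff.1 hb))
  zero_mem' := mem_cl_iff.2 isAlgebraic_zero
  neg_mem' := fun ha => mem_cl_iff.2 (mem_cl_iff.1 ha).neg
  inv_mem' := fun _ ha => mem_cl_iff.2 (mem_cl_iff.1 ha).inv

lemma mem_cl {S : Set ℂ} {x : ℂ} : x ∈ cl S ↔ IsAlgebraic (IntermediateField.adjoin Phi S) x := mem_cl_iff'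

lemma mem_cl0 {x : ℂ} : x ∈ cl ∅ ↔ IsAlgebraic Phi x := by
  rw [mem_cl, IntermediateField.adjoin_empty]
  constructor
  · rintro ⟨p, hp, h⟩
    have hinj : Function.Injective (algebraMap Phi (⊥ : IntermediateField Phi ℂ)) := RingHom.injective _
    have hsurj : Function.Surjective (algebraMap Phi (⊥ : IntermediateField Phi ℂ)) := by
      rintro ⟨z, hz⟩
      obtain ⟨y, rfl⟩ := IntermediateField.mem_bot.1 hz
      exact ⟨y, rfl⟩
    obtain ⟨q, rfl⟩ := Polynomial.map_surjective _ hsurj p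
    refine ⟨q, fun h0 => hp (by rw [h0, Polynomial.map_zero]), ?_⟩
    rwa [Polynomial.aeval_map_algebraMap] at h
  · intro h
    exact h.extendScalars (RingHom.injective _)

lemma subset_cl (S : Set ℂ) : S ⊆ cl S := Matroid.subset_closure Mc S (subset_univ _)

lemma cl_mono {S T : Set ℂ} (h : S ⊆ T) : cl S ≤ cl T := Matroid.closure_subset_closure Mc h

lemma cl_le {S T : Set ℂ} (h : S ⊆ cl T) : cl S ≤ cl T :=
  Matroid.closure_subset_closure_of_subset_closure h

lemma of_pow {S : Set ℂ} {x : ℂ} {n : ℕ} (hn : n ≠ 0) (h : x ^ n ∈ cl S) : x ∈ cl S :=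
  mem_cl_iff.2 (IsAlgebraic.of_pow (Nat.pos_of_ne_zero hn) (mem_cl_iff.1 h))

/-- algebraic numbers are in every closure -/
lemma alg_mem {S : Set ℂ} {x : ℂ} (h : IsAlgebraic ℚ x) : x ∈ cl S := by
  rw [mem_cl]
  exact h.extendScalars (RingHom.injective _)

lemma I_mem {S : Set ℂ} : Complex.I ∈ cl S := by
  refine of_pow (n := 2) two_ne_zero ?_
  rw [Complex.I_sq]
  exact (cl S).neg_mem (cl S).one_mem

lemma exp_mem {S : Set ℂ} {x : ℂ} (h : IsAlgebraic ℚ x) : Complex.exp x ∈ cl S := by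
  rw [mem_cl]
  have h1 : Complex.exp x ∈ Phi := IntermediateField.subset_adjoin ℚ _ ⟨x, h, rfl⟩
  have h2 : IsAlgebraic Phi (Complex.exp x) := isAlgebraic_algebraMap (⟨_, h1⟩ : Phi)
  exact h2.extendScalars (RingHom.injective _)

lemma card_le {ι : Type*} [Fintype ι] {x : ι → ℂ} (hx : AlgebraicIndependent Phi x) {T : Set ℂ} (h : ∀ i, x i ∈ cl T) :
    (Fintype.card ι : ℕ∞) ≤ Mc.eRk T := by
  have h1 : Mc.Indep (range x) := hx.to_subtype_range
  have h2 : range x ⊆ Mc.closure T := by
    rintro _ ⟨i, rfl⟩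
    exact h i
  calc (Fintype.card ι : ℕ∞) = (range x).encard := by
        rw [← image_univ, hx.injective.injOn.encard_image, encard_univ, ENat.card_eq_coe_fintype_card]
    _ ≤ Mc.eRk (Mc.closure T) := h1.encard_le_eRk_of_subset h2
    _ = Mc.eRk T := Matroid.eRk_closure_eq Mc T

/-- a lower bound for the transcendence degree of a generated field -/
lemma trdeg_ge {ι : Type*} [Fintype ι] {x : ι → ℂ} (hx : AlgebraicIndependent Phi x) {A : Set ℂ} (h : ∀ i, x i ∈ cl A) :
    (Fintype.card ι : Cardinal) ≤ Algebra.trdeg Phi (IntermediateField.adjoin Phi A) := by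
  obtain ⟨I, hI⟩ := Mc.exists_isBasis A (subset_univ _)
  have h1 := card_le hx h
  rw [← hI.encard_eq_eRk] at h1
  obtain ⟨t, htI, htc⟩ := exists_subset_encard_eq h1
  have hfin : t.Finite := by
    rw [← encard_lt_top_iff, htc]
    exact ENat.natCast_lt_top _
  have hind : AlgebraicIndependent Phi (fun i : t => (i : ℂ)) := hI.indep.subset htI
  have htA : ∀ i : t, (i : ℂ) ∈ IntermediateField.adjoin Phi A := fun i =>
    IntermediateField.subset_adjoin Phi A (hI.subset (htI i.2))
  let f : t → IntermediateField.adjoin Phi A := fun i => ⟨i, htA i⟩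
  have hf : AlgebraicIndependent Phi f :=
    ((IntermediateField.adjoin Phi A).val.algebraicIndependent_iff (IntermediateField.adjoin Phi A).val.injective).1 hind
  have := hfin.fintype
  have h2 := hf.cardinalMk_le_trdeg
  refine le_trans (le_of_eq ?_) h2
  have h3 : ((Fintype.card ι : ℕ) : ℕ∞) = ((Fintype.card t : ℕ) : ℕ∞) := by
    rw [← htc, ← ENat.card_eq_coe_fintype_card, Set.encard]
  have h4 : Fintype.card ι = Fintype.card t := by exact_mod_cast h3
  rw [Cardinal.mk_fintype, h4]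

/-- counting -/
lemma count_gen {ι κ : Type*} [Fintype ι] [Fintype κ] {x : ι → ℂ} (hx : AlgebraicIndependent Phi x) {y : κ → ℂ}
    (S : Finset κ) (hS : ∀ k ∈ S, y k ∈ cl ∅) (h : ∀ i, x i ∈ cl (range y)) :
    Fintype.card ι + S.card ≤ Fintype.card κ := by
  classical
  have h1 : cl (range y) ≤ cl (y '' (Sᶜ : Finset κ)) := by
    refine cl_le ?_
    rintro z ⟨k, rfl⟩
    by_cases hk : k ∈ S
    · exact cl_mono (empty_subset _) (hS k hk)
    · refine subset_cl _ ⟨k, ?_, rfl⟩
      simpa using hk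
  have h2 := card_le hx (fun i => h1 (h i))
  have h3 : (y '' (Sᶜ : Finset κ) : Set ℂ).encard ≤ (((Sᶜ : Finset κ).card : ℕ) : ℕ∞) := by
    have e : (((Sᶜ : Finset κ) : Set κ)).encard = ((Sᶜ : Finset κ).card : ℕ∞) := encard_coe_eq_coe_finsetCard _
    rw [← e]
    exact encard_image_le _ _
  have h4 : (Fintype.card ι : ℕ∞) ≤ (((Sᶜ : Finset κ).card : ℕ) : ℕ∞) := h2.trans ((Matroid.eRk_le_encard _ _).trans h3)
  have h5 : Fintype.card ι ≤ (Sᶜ : Finset κ).card := by exact_mod_cast h4
  rw [Finset.card_compl] at h5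
  have h6 := Finset.card_le_univ S
  omega

end Pool.Agent.W5h35.GA
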