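import Pool.Agent.W5h35.GA.Block

/-!
# Exponential polynomials as power series
-/

set_option autoImplicit false

open PowerSeries

namespace Pool.Agent.W5h35.GA

/-- the power series `exp (β X)` -/
noncomputable def eX (β : ℂ) : ℂ⟦X⟧ := rescale β (exp ℂ)

lemma eX_add (a b : ℂ) : eX (a + b) = eX a * eX b := (exp_mul_exp_eq_exp_add a b).symm

lemma eX_zero : eX 0 = 1 := by
  rw [eX, rescale_zero_apply]
  simp

lemma coeff_eX (β : ℂ) (n : ℕ) : coeff n (eX β) = β ^ n / n.factorial := by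
  rw [eX, coeff_rescale, coeff_exp]
  simp [div_eq_mul_inv]

lemma deriv_eX (β : ℂ) : d⁄dX ℂ (eX β) = C β * eX β := by
  ext n
  rw [coeff_derivative, coeff_C_mul, coeff_eX, coeff_eX, Nat.factorial_succ]
  have : (n.factorial : ℂ) ≠ 0 := by exact_mod_cast n.factorial_ne_zero
  have h2 : ((n : ℂ) + 1) ≠ 0 := by exact_mod_cast Nat.succ_ne_zero n
  push_cast
  rw [pow_succ]
  field_simp

lemma eX_ne (β : ℂ) : eX β ≠ 0 := by
  intro h
  have := congrArg (coeff 0) h
  rw [coeff_eX] at this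
  simp at this

/-- differentiation as a linear map -/
noncomputable def T : Module.End ℂ ℂ⟦X⟧ := (d⁄dX ℂ : Derivation ℂ ℂ⟦X⟧ ℂ⟦X⟧).toLinearMap

lemma T_apply (f : ℂ⟦X⟧) : T f = d⁄dX ℂ f := rfl

lemma mem_gen (β : ℂ) (k : ℕ) : (X : ℂ⟦X⟧) ^ k * eX β ∈ T.maxGenEigenspace β := by
  induction k with
  | zero =>
    rw [Module.End.mem_maxGenEigenspace]
    refine ⟨1, ?_⟩
    rw [pow_one, pow_zero, one_mul, LinearMap.sub_apply, T_apply, deriv_eX, LinearMap.smul_apply]
    rw [Module.End.one_apply, smul_eq_C_mul, sub_self]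
  | succ k ih =>
    rw [Module.End.mem_maxGenEigenspace] at ih ⊢
    obtain ⟨n, hn⟩ := ih
    refine ⟨n + 1, ?_⟩
    have h1 : (T - β • (1 : Module.End ℂ ℂ⟦X⟧)) (X ^ (k + 1) * eX β) = ((k : ℂ) + 1) • (X ^ k * eX β) := by
      rw [LinearMap.sub_apply, T_apply, LinearMap.smul_apply, Module.End.one_apply, smul_eq_C_mul, smul_eq_C_mul,
        Derivation.leibniz, deriv_eX, Derivation.leibniz_pow, derivative_X, Nat.add_sub_cancel]
      simp only [smul_eq_mul, nsmul_eq_mul, map_add, map_one, map_natCast]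
      push_cast
      ring
    rw [pow_succ, Module.End.mul_apply, h1, map_smul, hn, smul_zero]

lemma mem_gen' (β : ℂ) (P : Polynomial ℂ) : (P : ℂ⟦X⟧) * eX β ∈ T.maxGenEigenspace β := by
  induction P using Polynomial.induction_on' with
  | add p q hp hq => rw [Polynomial.coe_add, add_mul]; exact add_mem hp hq
  | monomial n a =>
    rw [Polynomial.coe_monomial, monomial_eq_C_mul_X_pow, mul_assoc, ← smul_eq_C_mul]
    exact Submodule.smul_mem _ _ (mem_gen β n)

/-- linear independence of the exponentials over the polynomials -/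
theorem exp_indep (S : Finset ℂ) (P : ℂ → Polynomial ℂ) (h : ∑ β ∈ S, (P β : ℂ⟦X⟧) * eX β = 0) :
    ∀ β ∈ S, P β = 0 := by
  intro β hβ
  have h1 := (iSupIndep_iff_finsetSum_eq_zero_imp_eq_zero _).1 (Module.End.independent_maxGenEigenspace T) S
    (fun β => (P β : ℂ⟦X⟧) * eX β) (fun β _ => mem_gen' β (P β)) h β hβ
  rcases mul_eq_zero.1 h1 with h2 | h2
  · exact_mod_cast h2
  · exact absurd h2 (eX_ne β)

/-- the ring of exponential sums -/
noncomputable def B : Subalgebra ℂ ℂ⟦X⟧ := Algebra.adjoin ℂ (Set.range eX)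

lemma eX_mem (β : ℂ) : eX β ∈ B := Algebra.subset_adjoin ⟨β, rfl⟩

lemma B_span (b : ℂ⟦X⟧) (hb : b ∈ B) : ∃ (S : Finset ℂ) (c : ℂ → ℂ), b = ∑ β ∈ S, c β • eX β := by
  classical
  have h1 : b ∈ Submodule.span ℂ (Set.range eX) := by
    have h2 : (Submonoid.closure (Set.range eX) : Set ℂ⟦X⟧) = Set.range eX := by
      apply le_antisymm
      · intro x hx
        induction hx using Submonoid.closure_induction with
        | mem x hx => exact hx
        | one => exact ⟨0, eX_zero⟩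
        | mul x y _ _ hx hy =>
          obtain ⟨a, rfl⟩ := hx
          obtain ⟨b, rfl⟩ := hy
          exact ⟨a + b, eX_add a b⟩
      · exact Submonoid.subset_closure
    have h3 : b ∈ Subalgebra.toSubmodule B := hb
    rw [B, Algebra.adjoin_eq_span, h2] at h3
    exact h3
  obtain ⟨c, hc⟩ := (Finsupp.mem_span_range_iff_exists_finsupp).1 h1
  exact ⟨c.support, c, hc.symm⟩

lemma deriv_B (b : ℂ⟦X⟧) (hb : b ∈ B) : d⁄dX ℂ b ∈ B := by
  obtain ⟨S, c, rfl⟩ := B_span b hb
  rw [map_sum]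
  refine sum_mem fun β _ => ?_
  rw [Derivation.map_smul, deriv_eX, ← smul_eq_C_mul]
  exact B.smul_mem (B.smul_mem (eX_mem β) _) _

/-- a derivation from an additive map satisfying the Leibniz rule -/
@[reducible] noncomputable def mkDiff {R : Type} [CommRing R] (d : R →+ R) (h : ∀ a b, d (a * b) = a * d b + b * d a) :
    Differential R :=
  ⟨Derivation.mk' { toFun := d
                    map_add' := fun x y => map_add d x y
                    map_smul' := fun n x => by rw [map_zsmul]; rfl } h⟩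

lemma mkDiff_apply {R : Type} [CommRing R] (d : R →+ R) (h : ∀ a b, d (a * b) = a * d b + b * d a) (x : R) :
    (mkDiff d h).deriv x = d x := rfl

noncomputable instance instDPS : Differential ℂ⟦X⟧ :=
  mkDiff (d⁄dX ℂ : Derivation ℂ ℂ⟦X⟧ ℂ⟦X⟧).toLinearMap.toAddMonoidHom
    (fun a b => (d⁄dX ℂ : Derivation ℂ ℂ⟦X⟧ ℂ⟦X⟧).leibniz a b)

lemma dPS (f : ℂ⟦X⟧) : (Differential.deriv f : ℂ⟦X⟧) = d⁄dX ℂ f := rfl

noncomputable instance instDB : Differential B :=
  mkDiff { toFun := fun x => (⟨d⁄dX ℂ x.1, deriv_B _ x.2⟩ : B)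
           map_zero' := Subtype.ext (map_zero (d⁄dX ℂ : Derivation ℂ ℂ⟦X⟧ ℂ⟦X⟧))
           map_add' := fun x y => Subtype.ext (map_add (d⁄dX ℂ : Derivation ℂ ℂ⟦X⟧ ℂ⟦X⟧) x.1 y.1) }
    (fun a b => Subtype.ext ((d⁄dX ℂ : Derivation ℂ ℂ⟦X⟧ ℂ⟦X⟧).leibniz a.1 b.1))

instance instDAB : DifferentialAlgebra B ℂ⟦X⟧ := ⟨fun _ => rfl⟩

theorem X_tr : Transcendental B (X : ℂ⟦X⟧) := by
  classical
  rw [transcendental_iff]
  intro p hp
  -- expand
  choose S c hc using fun k => B_span ((p.coeff k : B) : ℂ⟦X⟧) (p.coeff k).2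
  set N := p.natDegree + 1 with hN
  set U : Finset ℂ := (Finset.range N).biUnion S with hU
  set c' : ℕ → ℂ → ℂ := fun k β => if β ∈ S k then c k β else 0 with hc'
  have h1 : ∀ k ∈ Finset.range N, ((p.coeff k : B) : ℂ⟦X⟧) = ∑ β ∈ U, c' k β • eX β := by
    intro k hk
    rw [hc k]
    have h2 : ∀ β ∈ U, c' k β • eX β = if β ∈ S k then c k β • eX β else 0 := by
      intro β _
      rw [hc']
      simp only
      split_ifs
      · rfl
      · rw [zero_smul]
    rw [Finset.sum_congr rfl h2, ← Finset.sum_filter]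
    refine Finset.sum_congr ?_ fun _ _ => rfl
    ext β
    rw [Finset.mem_filter, hU, Finset.mem_biUnion]
    exact ⟨fun h => ⟨⟨k, hk, h⟩, h⟩, fun h => h.2⟩
  have h3 : ∑ β ∈ U, ((∑ k ∈ Finset.range N, Polynomial.monomial k (c' k β) : Polynomial ℂ) : ℂ⟦X⟧) * eX β = 0 := by
    rw [Polynomial.aeval_eq_sum_range] at hp
    rw [← hp]
    have h4 : ∀ k ∈ Finset.range N, p.coeff k • (X : ℂ⟦X⟧) ^ k = ∑ β ∈ U, c' k β • (X ^ k * eX β) := by
      intro k hk
      rw [Algebra.smul_def]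
      have : (algebraMap B ℂ⟦X⟧) (p.coeff k) = ((p.coeff k : B) : ℂ⟦X⟧) := rfl
      rw [this, h1 k hk, Finset.sum_mul]
      refine Finset.sum_congr rfl fun β _ => ?_
      rw [smul_mul_assoc, mul_comm]
    rw [Finset.sum_congr rfl h4, Finset.sum_comm]
    refine Finset.sum_congr rfl fun β _ => ?_
    have h5 : ((∑ k ∈ Finset.range N, Polynomial.monomial k (c' k β) : Polynomial ℂ) : ℂ⟦X⟧) =
        ∑ k ∈ Finset.range N, C (c' k β) * X ^ k := by
      rw [← Polynomial.coeToPowerSeries.ringHom_apply, map_sum]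
      refine Finset.sum_congr rfl fun k _ => ?_
      rw [Polynomial.coeToPowerSeries.ringHom_apply, Polynomial.coe_monomial, monomial_eq_C_mul_X_pow]
    rw [h5, Finset.sum_mul]
    refine Finset.sum_congr rfl fun k _ => ?_
    rw [smul_eq_C_mul, mul_assoc]
  have h6 := exp_indep U _ h3
  have h7 : ∀ k ∈ Finset.range N, ∀ β ∈ U, c' k β = 0 := by
    intro k hk β hβ
    have h8 := congrArg (fun q => Polynomial.coeff q k) (h6 β hβ)
    simp only [Polynomial.finsetSum_coeff, Polynomial.coeff_monomial, Polynomial.coeff_zero] at h8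
    rw [Finset.sum_ite_eq', if_pos hk] at h8
    exact h8
  ext k : 1
  by_cases hk : k ∈ Finset.range N
  · apply Subtype.ext
    rw [h1 k hk, Polynomial.coeff_zero]
    have : ∑ β ∈ U, c' k β • eX β = 0 := Finset.sum_eq_zero fun β hβ => by rw [h7 k hk β hβ, zero_smul]
    rw [this]
    rfl
  · rw [Polynomial.coeff_zero]
    apply Polynomial.coeff_eq_zero_of_natDegree_lt
    rw [Finset.mem_range, not_lt] at hk
    omega

end Pool.Agent.W5h35.GA
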