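import Pool.Agent.W5h35.GA.Exp

/-!
# Algebraic independence of the functions `E_l (α X)` over the exponential polynomials
-/

set_option autoImplicit false

open PowerSeries

namespace Pool.Agent.W5h35.GA

section

open Polynomial

variable {R : Type} [CommRing R] [IsDomain R] [CharZero R] [Differential R]

lemma impl_X_pow (m : ℕ) (a : Polynomial R) :
    Polynomial.X * Differential.implicitDeriv (1 : Polynomial R) (Polynomial.X ^ m * a) =
      Polynomial.X ^ m * ((m : Polynomial R) * a + Polynomial.X * Differential.implicitDeriv (1 : Polynomial R) a) := by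
  rw [Derivation.leibniz, Derivation.leibniz_pow, Differential.implicitDeriv_X]
  rcases m with _ | m
  · simp
  · rw [Nat.add_sub_cancel]
    simp only [smul_eq_mul, nsmul_eq_mul, mul_one]
    push_cast
    ring

lemma factor_X {p : Polynomial R} (hp : p ≠ 0) : ∃ (m : ℕ) (q : Polynomial R), p = Polynomial.X ^ m * q ∧ q.coeff 0 ≠ 0 := by
  obtain ⟨q, h1, h2⟩ := Polynomial.exists_eq_pow_rootMultiplicity_mul_and_not_dvd p hp 0
  refine ⟨Polynomial.rootMultiplicity 0 p, q, ?_, ?_⟩
  · rw [Polynomial.C_0, sub_zero] at h1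
    exact h1
  · intro h
    rw [Polynomial.C_0, sub_zero] at h2
    exact h2 (Polynomial.X_dvd_iff.2 h)

theorem base_poly {a b : Polynomial R} {h : R} (hb : b ≠ 0)
    (hab : Polynomial.X * (Differential.implicitDeriv (1 : Polynomial R) a * b -
      a * Differential.implicitDeriv (1 : Polynomial R) b) = Polynomial.C h * b ^ 2) : h = 0 := by
  by_contra hh
  have ha : a ≠ 0 := by
    rintro rfl
    rw [map_zero, zero_mul, zero_mul, sub_zero, mul_zero] at hab
    rcases mul_eq_zero.1 hab.symm with h1 | h1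
    · exact hh (Polynomial.C_eq_zero.1 h1)
    · exact hb (pow_eq_zero_iff (by norm_num) |>.1 h1)
  obtain ⟨m, a0, rfl, ha0⟩ := factor_X ha
  obtain ⟨n, b0, rfl, hb0⟩ := factor_X hb
  set δ : Derivation ℤ (Polynomial R) (Polynomial R) := Differential.implicitDeriv (1 : Polynomial R) with hδ
  have h1 := impl_X_pow m a0
  have h2 := impl_X_pow n b0
  rw [← hδ] at h1 h2
  have h3 : Polynomial.X ^ (m + n) * ((((m : Polynomial R) - (n : Polynomial R))) * (a0 * b0) + Polynomial.X * (δ a0 * b0 - a0 * δ b0)) =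
      Polynomial.X ^ (n + n) * (Polynomial.C h * b0 ^ 2) := by
    have h4 : Polynomial.X ^ (n + n) * (Polynomial.C h * b0 ^ 2) = Polynomial.C h * (Polynomial.X ^ n * b0) ^ 2 := by ring
    rw [h4, ← hab]
    have h5 : Polynomial.X * (δ (Polynomial.X ^ m * a0) * (Polynomial.X ^ n * b0) - Polynomial.X ^ m * a0 * δ (Polynomial.X ^ n * b0)) =
        (Polynomial.X * δ (Polynomial.X ^ m * a0)) * (Polynomial.X ^ n * b0) -
          Polynomial.X ^ m * a0 * (Polynomial.X * δ (Polynomial.X ^ n * b0)) := by ring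
    rw [h5, h1, h2]
    ring
  have hX : ∀ k : ℕ, (Polynomial.X : Polynomial R) ^ k ≠ 0 := fun k => pow_ne_zero _ Polynomial.X_ne_zero
  have hsq : ∀ p : Polynomial R, (Polynomial.C h * b0 ^ 2).coeff 0 = h * (b0.coeff 0) ^ 2 := by
    intro _
    rw [Polynomial.coeff_C_mul, pow_two, Polynomial.mul_coeff_zero, pow_two]
  have hne : h * (b0.coeff 0) ^ 2 ≠ 0 := mul_ne_zero hh (pow_ne_zero _ hb0)
  rcases lt_trichotomy m n with hmn | hmn | hmn
  · obtain ⟨k, rfl⟩ := Nat.exists_eq_add_of_lt hmn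
    rw [show m + k + 1 + (m + k + 1) = (m + (m + k + 1)) + (k + 1) by ring, pow_add _ (m + (m + k + 1)), mul_assoc] at h3
    have h4 := mul_left_cancel₀ (hX _) h3
    have h5 := congrArg (fun p => Polynomial.coeff p 0) h4
    simp only [Polynomial.coeff_add, Polynomial.mul_coeff_zero, Polynomial.coeff_X_zero, zero_mul, add_zero,
      Polynomial.coeff_sub, Polynomial.coeff_X_pow] at h5
    rw [if_neg (by omega), zero_mul] at h5
    rcases mul_eq_zero.1 h5 with h6 | h6
    · have h7 : ((m : Polynomial R)).coeff 0 = (m : R) := by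
        rw [Polynomial.natCast_coeff_zero]
      have h8 : (((m + k + 1 : ℕ) : Polynomial R)).coeff 0 = ((m + k + 1 : ℕ) : R) := by
        rw [Polynomial.natCast_coeff_zero]
      rw [h7, h8] at h6
      push_cast at h6
      have h9 : ((k + 1 : ℕ) : R) = 0 := by push_cast; linear_combination -h6
      exact Nat.cast_ne_zero.2 (Nat.succ_ne_zero k) h9
    · rcases mul_eq_zero.1 h6 with h7 | h7
      · exact ha0 h7
      · exact hb0 h7
  · subst hmn
    have h4 := mul_left_cancel₀ (hX _) h3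
    have h5 := congrArg (fun p => Polynomial.coeff p 0) h4
    simp only [hsq 0] at h5
    rw [sub_self, zero_mul, zero_add, Polynomial.mul_coeff_zero, Polynomial.coeff_X_zero, zero_mul] at h5
    exact hne h5.symm
  · obtain ⟨k, rfl⟩ := Nat.exists_eq_add_of_lt hmn
    rw [show n + k + 1 + n = (n + n) + (k + 1) by ring, pow_add _ (n + n), mul_assoc] at h3
    have h4 := mul_left_cancel₀ (hX _) h3
    have h5 := congrArg (fun p => Polynomial.coeff p 0) h4
    simp only [hsq 0] at h5
    rw [Polynomial.mul_coeff_zero, Polynomial.coeff_X_pow, if_neg (by omega), zero_mul] at h5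
    exact hne h5.symm

end

/-! ## Laurent series -/

/-- the field of Laurent series -/
abbrev LS : Type := LaurentSeries ℂ

/-- the derivation `X d/dX` -/
noncomputable def DL : LS →+ LS where
  toFun f :=
    { coeff := fun n => (n : ℂ) * f.coeff n
      isPWO_support' := f.isPWO_support.mono (by
        intro n hn
        rw [Function.mem_support] at hn
        exact fun h => hn (by rw [h, mul_zero])) }
  map_zero' := by ext n; simp
  map_add' f g := by ext n; simp [mul_add]

lemma coeff_DL (f : LS) (n : ℤ) : (DL f).coeff n = (n : ℂ) * f.coeff n := rfl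

lemma supp_DL (f : LS) : (DL f).support ⊆ f.support := by
  intro n hn
  rw [HahnSeries.mem_support] at hn ⊢
  intro h
  exact hn (by rw [coeff_DL, h, mul_zero])

lemma DL_mul (f g : LS) : DL (f * g) = f * DL g + g * DL f := by
  rw [mul_comm g (DL f)]
  ext n
  rw [coeff_DL, HahnSeries.coeff_add, HahnSeries.coeff_mul, HahnSeries.coeff_mul_right' g.isPWO_support (supp_DL g),
    HahnSeries.coeff_mul_left' f.isPWO_support (supp_DL f), ← Finset.sum_add_distrib, Finset.mul_sum]
  refine Finset.sum_congr rfl fun ij hij => ?_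
  rw [Finset.mem_antidiagonal] at hij
  rw [coeff_DL, coeff_DL, ← hij.2.2]
  push_cast
  ring

noncomputable instance instDLS : Differential LS := mkDiff DL DL_mul

lemma dLS (f : LS) : (Differential.deriv f : LS) = DL f := rfl

/-- the inclusion of the power series -/
noncomputable abbrev io : ℂ⟦X⟧ →+* LS := HahnSeries.ofPowerSeries ℤ ℂ

lemma io_inj : Function.Injective io := HahnSeries.ofPowerSeries_injective

lemma io_C (c : ℂ) : io (C c) = algebraMap ℂ LS c := by
  rw [HahnSeries.algebraMap_apply' ℤ]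
  rfl

lemma alg_coeff (c : ℂ) (n : ℤ) : (algebraMap ℂ LS c).coeff n = if n = 0 then c else 0 := by
  rw [← io_C, io, HahnSeries.ofPowerSeries_C, HahnSeries.C_apply, HahnSeries.coeff_single]
  congr

lemma DL_io (f : ℂ⟦X⟧) : DL (io f) = io (X * d⁄dX ℂ f) := by
  ext n
  rw [coeff_DL]
  rcases lt_or_ge n 0 with h | h
  · have h1 : ∀ g : ℂ⟦X⟧, (io g).coeff n = 0 := by
      intro g
      rw [io, HahnSeries.ofPowerSeries_apply]
      apply HahnSeries.embDomain_of_notMem_range
      rintro ⟨m, hm⟩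
      have : (m : ℤ) = n := hm
      omega
    rw [h1, h1, mul_zero]
  · obtain ⟨m, rfl⟩ := Int.eq_ofNat_of_zero_le h
    rw [io, LaurentSeries.coeff_coe_powerSeries, LaurentSeries.coeff_coe_powerSeries]
    rcases m with _ | m
    · simp
    · rw [coeff_succ_X_mul, coeff_derivative]
      push_cast
      ring

theorem cst_LS : Cst ℂ LS := by
  refine ⟨fun c => ?_, fun u c h => ?_⟩
  · show DL _ = 0
    ext n
    rw [coeff_DL, alg_coeff]
    split_ifs with h
    · rw [h]; simp
    · simp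
  · have h1 : ∀ n : ℤ, (n : ℂ) * u.coeff n = if n = 0 then c else 0 := by
      intro n
      have h2 := congrArg (fun f : LS => f.coeff n) h
      simp only [alg_coeff] at h2
      exact h2
    refine ⟨u.coeff 0, ?_⟩
    ext n
    rw [alg_coeff]
    split_ifs with hn
    · rw [hn]
    · have h2 := h1 n
      rw [if_neg hn] at h2
      rcases mul_eq_zero.1 h2 with h3 | h3
      · exact absurd (by exact_mod_cast h3) hn
      · exact h3

/-- the ring of exponential polynomials -/
noncomputable def A0 : Subring ℂ⟦X⟧ := (Polynomial.aeval (R := B) (X : ℂ⟦X⟧)).range.toSubring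

lemma mem_A0 {f : ℂ⟦X⟧} : f ∈ A0 ↔ ∃ p : Polynomial B, Polynomial.aeval (X : ℂ⟦X⟧) p = f := Iff.rfl

lemma B_le_A0 {f : ℂ⟦X⟧} (hf : f ∈ B) : f ∈ A0 := mem_A0.2 ⟨Polynomial.C ⟨f, hf⟩, by rw [Polynomial.aeval_C]; rfl⟩

lemma X_mem_A0 : X ∈ A0 := mem_A0.2 ⟨Polynomial.X, by rw [Polynomial.aeval_X]⟩

lemma C_mem_A0 (c : ℂ) : C c ∈ A0 := B_le_A0 (B.algebraMap_mem c)

lemma deriv_aeval (p : Polynomial B) : d⁄dX ℂ (Polynomial.aeval (X : ℂ⟦X⟧) p) =
    Polynomial.aeval (X : ℂ⟦X⟧) (Differential.implicitDeriv (1 : Polynomial B) p) := by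
  rw [← dPS]
  refine Differential.deriv_aeval_eq_implicitDeriv (A := B) (X : ℂ⟦X⟧) 1 ?_ p
  rw [dPS, derivative_X, map_one]

lemma deriv_A0 {f : ℂ⟦X⟧} (hf : f ∈ A0) : d⁄dX ℂ f ∈ A0 := by
  obtain ⟨p, rfl⟩ := mem_A0.1 hf
  exact mem_A0.2 ⟨_, (deriv_aeval p).symm⟩

/-- the field of quotients of exponential polynomials -/
noncomputable def F0 : Subfield LS := Subfield.closure (io '' A0)

lemma io_mem_F0 {f : ℂ⟦X⟧} (hf : f ∈ A0) : io f ∈ F0 := Subfield.subset_closure ⟨f, hf, rfl⟩

lemma mem_F0 {f : LS} (hf : f ∈ F0) : ∃ a b : ℂ⟦X⟧, a ∈ A0 ∧ b ∈ A0 ∧ b ≠ 0 ∧ f * io b = io a := by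
  obtain ⟨y, hy, z, hz, rfl⟩ := Subfield.mem_closure_iff.1 hf
  have h1 : Subring.closure (io '' A0) = A0.map io := by
    apply le_antisymm
    · rw [Subring.closure_le]
      rintro _ ⟨f, hf, rfl⟩
      exact ⟨f, hf, rfl⟩
    · rintro _ ⟨f, hf, rfl⟩
      exact Subring.subset_closure ⟨f, hf, rfl⟩
  rw [h1] at hy hz
  obtain ⟨a, ha, rfl⟩ := hy
  obtain ⟨b, hb, rfl⟩ := hz
  by_cases hb0 : b = 0
  · refine ⟨0, 1, zero_mem _, one_mem _, one_ne_zero, ?_⟩
    rw [hb0]
    simp
  · refine ⟨a, b, ha, hb, hb0, ?_⟩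
    have : io b ≠ 0 := fun h => hb0 (io_inj (h.trans (map_zero io).symm))
    field_simp

theorem stb_F0 : Stb ℂ F0 where
  const := fun c => by rw [← io_C]; exact io_mem_F0 (C_mem_A0 c)
  stable := by
    intro x hx
    refine Subfield.closure_induction (s := io '' A0) (p := fun x _ => dL x ∈ F0) ?_ ?_ ?_ ?_ ?_ ?_ hx
    · rintro _ ⟨f, hf, rfl⟩
      show DL _ ∈ F0
      rw [DL_io]
      exact io_mem_F0 (A0.mul_mem X_mem_A0 (deriv_A0 hf))
    · rw [dL_one]; exact zero_mem _
    · intro x y _ _ hx hy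
      rw [dL_add]; exact add_mem hx hy
    · intro x _ hx
      rw [dL_neg]; exact neg_mem hx
    · intro x hx0 hx
      rw [dL_inv]
      refine F0.mul_mem (neg_mem (F0.pow_mem (F0.inv_mem ?_) 2)) hx
      exact hx0
    · intro x y hx0 hy0 hx hy
      rw [dL_mul]
      exact add_mem (F0.mul_mem hx0 hy) (F0.mul_mem hy0 hx)

/-- the functions `E_l (α X)` -/
noncomputable def EC (l : ℕ) (α : ℂ) : ℂ⟦X⟧ :=
  PowerSeries.mk fun m => if m = 0 then 0 else -(-α) ^ m / (m.factorial * (m : ℂ) ^ l)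

lemma EC_zero (α : ℂ) : EC 0 α = 1 - eX (-α) := by
  ext n
  rw [map_sub, coeff_one, EC, coeff_mk, coeff_eX]
  split_ifs with h
  · rw [h]; simp
  · rw [pow_zero, mul_one, zero_sub, neg_div]

lemma deriv_EC (l : ℕ) (α : ℂ) : X * d⁄dX ℂ (EC (l + 1) α) = EC l α := by
  ext m
  rcases m with _ | m
  · simp [EC]
  · rw [coeff_succ_X_mul, coeff_derivative, EC, coeff_mk, EC, coeff_mk, if_neg (Nat.succ_ne_zero m),
      if_neg (Nat.succ_ne_zero m)]
    have : ((m + 1).factorial : ℂ) ≠ 0 := by exact_mod_cast (m + 1).factorial_ne_zero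
    have h2 : ((m : ℂ) + 1) ≠ 0 := by exact_mod_cast Nat.succ_ne_zero m
    push_cast
    rw [pow_succ ((m : ℂ) + 1)]
    field_simp

lemma eX_LI : LinearIndependent ℂ eX := by
  rw [linearIndependent_iff']
  intro S g hg β hβ
  have h := exp_indep S (fun β => Polynomial.C (g β)) (by
    rw [← hg]
    refine Finset.sum_congr rfl fun β _ => ?_
    rw [Polynomial.coe_C, smul_eq_C_mul]) β hβ
  exact Polynomial.C_eq_zero.1 h

instance instCZB : CharZero B := charZero_of_injective_algebraMap (FaithfulSMul.algebraMap_injective ℂ B)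

theorem base_case {ι : Type} [Fintype ι] {α : ι → ℂ} (hα : Function.Injective α) (h0 : ∀ i, α i ≠ 0) (c : ι → ℂ) (f : LS)
    (hf : f ∈ F0) (hfc : dL f = ∑ i, algebraMap ℂ LS (c i) * io (EC 0 (α i))) : c = 0 := by
  classical
  obtain ⟨a, b, ha, hb, hb0, hab⟩ := mem_F0 hf
  obtain ⟨p, rfl⟩ := mem_A0.1 ha
  obtain ⟨q, rfl⟩ := mem_A0.1 hb
  set φ : Polynomial B →ₐ[B] ℂ⟦X⟧ := Polynomial.aeval (X : ℂ⟦X⟧) with hφ
  have hinj : Function.Injective φ := transcendental_iff_injective.1 X_tr
  have hmem : ∀ i, EC 0 (α i) ∈ B := fun i => by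
    rw [EC_zero]; exact B.sub_mem B.one_mem (eX_mem _)
  set h : B := ∑ i, (c i) • (⟨EC 0 (α i), hmem i⟩ : B) with hh
  have hhv : (h : ℂ⟦X⟧) = ∑ i, c i • EC 0 (α i) := by
    rw [hh]
    push_cast
    rfl
  have hfh : DL f = io (h : ℂ⟦X⟧) := by
    rw [hhv, map_sum]
    refine hfc.trans (Finset.sum_congr rfl fun i _ => ?_)
    rw [smul_eq_C_mul, map_mul, io_C]
  have hiob : io (φ q) ≠ 0 := fun h => hb0 (io_inj (h.trans (map_zero io).symm))
  have h1 : io (X * d⁄dX ℂ (φ p)) * io (φ q) = io ((h : ℂ⟦X⟧) * φ q ^ 2) + io (φ p) * io (X * d⁄dX ℂ (φ q)) := by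
    rw [← DL_io, ← DL_io, ← hab, DL_mul, hfh, map_mul, map_pow]
    ring
  have h2 : X * (d⁄dX ℂ (φ p) * φ q - φ p * d⁄dX ℂ (φ q)) = (h : ℂ⟦X⟧) * φ q ^ 2 := by
    apply io_inj
    have h3 : X * (d⁄dX ℂ (φ p) * φ q - φ p * d⁄dX ℂ (φ q)) = X * d⁄dX ℂ (φ p) * φ q - φ p * (X * d⁄dX ℂ (φ q)) := by
      ring
    rw [h3, map_sub, map_mul io (X * d⁄dX ℂ (φ p)), h1, map_mul io (φ p)]
    ring
  have h3 : Polynomial.X * (Differential.implicitDeriv (1 : Polynomial B) p * q -
      p * Differential.implicitDeriv (1 : Polynomial B) q) = Polynomial.C h * q ^ 2 := by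
    apply hinj
    have e1 : φ (Polynomial.X * (Differential.implicitDeriv (1 : Polynomial B) p * q -
      p * Differential.implicitDeriv (1 : Polynomial B) q)) = X * (d⁄dX ℂ (φ p) * φ q - φ p * d⁄dX ℂ (φ q)) := by
      rw [map_mul φ Polynomial.X, map_sub φ, map_mul φ (_ : Polynomial B) q, map_mul φ p, hφ, Polynomial.aeval_X, deriv_aeval,
        deriv_aeval]
    rw [e1, h2, map_mul, map_pow, hφ, Polynomial.aeval_C]
    rfl
  have hq : q ≠ 0 := by
    rintro rfl
    exact hb0 (map_zero _)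
  have h4 : h = 0 := base_poly hq h3
  have h5 : ∑ i, c i • EC 0 (α i) = 0 := by rw [← hhv, h4]; rfl
  -- linear independence
  set γ : Option ι → ℂ := fun o => o.elim 0 (fun i => - α i) with hγ
  have hγi : Function.Injective γ := by
    intro o o' hoo
    rcases o with _ | i <;> rcases o' with _ | j
    · rfl
    · exact absurd (neg_eq_zero.1 (show -α j = 0 from hoo.symm)) (h0 j)
    · exact absurd (neg_eq_zero.1 (show -α i = 0 from hoo)) (h0 i)
    · rw [hα (neg_injective (show -α i = -α j from hoo))]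
  have h6 := Fintype.linearIndependent_iff.1 (eX_LI.comp γ hγi) (fun o => o.elim (∑ i, c i) (fun i => - c i)) (by
    rw [Fintype.sum_option]
    simp only [Function.comp_apply, hγ, Option.elim_none, Option.elim_some, eX_zero]
    rw [← h5, Finset.sum_smul, ← Finset.sum_add_distrib]
    refine Finset.sum_congr rfl fun i _ => ?_
    rw [EC_zero, smul_sub, neg_smul]
    ring)
  funext i
  have h7 := h6 (some i)
  simpa using h7

end Pool.Agent.W5h35.GA
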