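import Pool.Agent.W5h35.GA.Fun

/-!
# Algebraic independence of the functions `E_l (α X)` over the exponential polynomials, final form
-/

set_option autoImplicit false

open PowerSeries

namespace Pool.Agent.W5h35.GA

section

variable {C L : Type} [Field C] [Field L] [Algebra C L] [Differential L] {ι : Type} {F : Subfield L}

lemma Fl_mono (F : Subfield L) (Y : ℕ → ι → L) (l : ℕ) : F ≤ Fl F Y l := by
  induction l with
  | zero => exact le_refl _
  | succ l ih => exact ih.trans (le_ext _ _)

lemma Fl_le (F : Subfield L) (Y : ℕ → ι → L) {l m : ℕ} (h : l ≤ m) : Fl F Y l ≤ Fl F Y m := by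
  induction m, h using Nat.le_induction with
  | base => exact le_refl _
  | succ l _ ih => exact ih.trans (le_ext _ _)

theorem levels [CharZero L] [Fintype ι] (hC : Cst C L) (hF : Stb C F) (Y : ℕ → ι → L) (hY0 : ∀ i, Y 0 i ∈ F)
    (hY : ∀ l i, dL (Y (l + 1) i) = Y l i)
    (H : ∀ (c : ι → C) (f : L), f ∈ F → dL f = ∑ i, algebraMap C L (c i) * Y 0 i → c = 0) (J : ℕ) :
    AlgebraicIndependent F (fun p : Fin J × ι => Y (p.1 + 1) p.2) := by
  induction J with
  | zero =>
    rw [algebraicIndependent_empty_type_iff]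
    exact FaithfulSMul.algebraMap_injective F L
  | succ J ih =>
    obtain ⟨_, _, h3⟩ := tower hC hF Y hY0 hY H J
    let hle := Fl_mono F Y J
    letI : Algebra F (Fl F Y J) := (Subfield.inclusion hle).toAlgebra
    haveI : IsScalarTower F (Fl F Y J) L := IsScalarTower.of_algebraMap_eq (fun _ => rfl)
    have h4 := ih.sumElim_of_tower (S := Fl F Y J) (by
      rintro _ ⟨p, rfl⟩
      exact ⟨⟨_, Fl_le F Y (show (p.1 : ℕ) + 1 ≤ J by omega) (subset_ext _ _ ⟨p.2, rfl⟩)⟩, rfl⟩) h3
    let g : Fin (J + 1) × ι → ι ⊕ (Fin J × ι) := fun p => if h : (p.1 : ℕ) < J then Sum.inr (⟨p.1, h⟩, p.2) else Sum.inl p.2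
    have hg : Function.Injective g := by
      rintro ⟨i, a⟩ ⟨j, b⟩ hab
      simp only [g] at hab
      split_ifs at hab with h1 h2 h2
      · have h5 := Sum.inr_injective hab
        have h6 := congrArg (fun p => ((p.1 : Fin J) : ℕ)) h5
        have h7 := congrArg Prod.snd h5
        simp only at h6 h7
        rw [Fin.ext h6, h7]
      · have h5 := Sum.inl_injective hab
        have h6 : i = j := Fin.ext (by omega)
        rw [h6, h5]
    have h5 := h4.comp g hg
    convert h5 using 1
    funext p
    simp only [Function.comp_apply, g]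
    split_ifs with h
    · rfl
    · have : (p.1 : ℕ) = J := by omega
      rw [this]
      rfl

end

variable {ι : Type} [Fintype ι] {α : ι → ℂ}

instance instCZL : CharZero LS := charZero_of_injective_algebraMap (algebraMap ℂ LS).injective

theorem EC_alg_LS (hα : Function.Injective α) (h0 : ∀ i, α i ≠ 0) (J : ℕ) :
    AlgebraicIndependent F0 (fun p : Fin J × ι => io (EC (p.1 + 1) (α p.2))) := by
  refine levels cst_LS stb_F0 (fun l i => io (EC l (α i))) (fun i => ?_) (fun l i => ?_) ?_ J
  · refine io_mem_F0 (B_le_A0 ?_)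
    rw [EC_zero]
    exact B.sub_mem B.one_mem (eX_mem _)
  · show DL _ = _
    rw [DL_io, deriv_EC]
  · intro c f hf hfc
    exact base_case hα h0 c f hf hfc

theorem EC_alg (hα : Function.Injective α) (h0 : ∀ i, α i ≠ 0) (J : ℕ) :
    AlgebraicIndependent A0 (fun p : Fin J × ι => EC (p.1 + 1) (α p.2)) := by
  rw [algebraicIndependent_iff]
  intro p hp
  let ψ : A0 →+* F0 := (io.comp A0.subtype).codRestrict F0.toSubring (fun x => io_mem_F0 x.2)
  have hψ : Function.Injective ψ := fun x y h => Subtype.ext (io_inj (congrArg Subtype.val h))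
  have h1 := (algebraicIndependent_iff.1 (EC_alg_LS hα h0 J)) (MvPolynomial.map ψ p) (by
    rw [MvPolynomial.aeval_def, MvPolynomial.eval₂_map]
    have h2 := congrArg io hp
    rw [map_zero, MvPolynomial.aeval_def, MvPolynomial.eval₂_comp_left] at h2
    exact h2)
  exact MvPolynomial.map_injective ψ hψ (h1.trans (map_zero _).symm)

/-- the variable is transcendental over the ring generated by the exponentials and the functions `E_l` -/
theorem X_tr_all (hα : Function.Injective α) (h0 : ∀ i, α i ≠ 0) (J : ℕ) :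
    Transcendental (Algebra.adjoin B (Set.range fun p : Fin J × ι => EC (p.1 + 1) (α p.2))) (X : ℂ⟦X⟧) := by
  let ψ : B →+* A0 := (B.subtype : B →+* ℂ⟦X⟧).codRestrict A0 (fun x => B_le_A0 x.2)
  letI : Algebra B A0 := ψ.toAlgebra
  haveI : IsScalarTower B A0 ℂ⟦X⟧ := IsScalarTower.of_algebraMap_eq (fun _ => rfl)
  have h1 : AlgebraicIndependent B (fun _ : Unit => (X : ℂ⟦X⟧)) := algebraicIndependent_unique_type_iff.2 X_tr
  have h2 := h1.sumElim_of_tower (S := A0) (by
    rintro _ ⟨_, rfl⟩
    exact ⟨⟨X, X_mem_A0⟩, rfl⟩) (EC_alg hα h0 J)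
  have h3 := h2.transcendental_adjoin (s := Set.range Sum.inl) (i := Sum.inr ()) (by simp)
  rw [← Set.range_comp] at h3
  exact h3

end Pool.Agent.W5h35.GA
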