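import Pool.Agent.W5h35.GA.Num

/-!
# Algebraic independence of the numbers `E_l (α)` over the field generated by the exponentials, final form
-/

set_option autoImplicit false

open PowerSeries

namespace Pool.Agent.W5h35.GA

lemma evA_mk (x : ℂ⟦X⟧) (hx : x ∈ Af) : evA ⟨x, hx⟩ = evC x := rfl

lemma algBA (x : Bf) : algebraMap Bf Af x = (⟨x.1, Bf_le_Af x.2⟩ : Af) := rfl

lemma evA_alg (x : Bf) : evA (algebraMap Bf Af x) = evC x.1 := by rw [algBA, evA_mk]

lemma evC_add {f g : ℂ⟦X⟧} (hf : f ∈ Cc) (hg : g ∈ Cc) : evC (f + g) = evC f + evC g := by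
  have h1 : Summable fun n => coeff n f := Summable.of_norm hf
  have h2 : Summable fun n => coeff n g := Summable.of_norm hg
  rw [evC, evC, evC, ← h1.tsum_add h2]
  exact tsum_congr fun n => map_add _ _ _

lemma evC_mul {f g : ℂ⟦X⟧} (hf : f ∈ Cc) (hg : g ∈ Cc) : evC (f * g) = evC f * evC g := by
  rw [evC, evC, evC, tsum_mul_tsum_eq_tsum_sum_antidiagonal_of_summable_norm hf hg]
  exact tsum_congr fun n => coeff_mul _ _ _

lemma evC_rat (r : ℚ) : evC (algebraMap ℚ ℂ⟦X⟧ r) = algebraMap ℚ ℂ r := by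
  rw [evC, tsum_eq_single 0]
  · rw [PowerSeries.algebraMap_apply]
    simp
  · intro n hn
    rw [PowerSeries.algebraMap_apply, coeff_C, if_neg hn]

/-- the exponentials of algebraic numbers -/
def expAlg : Set ℂ := {z | ∃ β : ℂ, IsAlgebraic ℚ β ∧ z = Complex.exp β}

/-- the ring generated by the exponentials of algebraic numbers -/
noncomputable def Rexp : Subalgebra ℚ ℂ := Algebra.adjoin ℚ expAlg

lemma evA_Bf (f : ℂ⟦X⟧) (hf : f ∈ Bf) : evC f ∈ Rexp := by
  have hA : ∀ {f : ℂ⟦X⟧}, f ∈ Bf → f ∈ Cc := fun h => Af_Cc (Bf_le_Af h)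
  induction hf using Algebra.adjoin_induction with
  | mem x hx =>
    obtain ⟨β, hβ, rfl⟩ := hx
    rw [evC_eX]
    exact Algebra.subset_adjoin ⟨β, hβ, rfl⟩
  | algebraMap r =>
    rw [evC_rat]
    exact Rexp.algebraMap_mem _
  | add x y hx' hy' hx hy =>
    rw [evC_add (hA hx') (hA hy')]
    exact Rexp.add_mem hx hy
  | mul x y hx' hy' hx hy =>
    rw [evC_mul (hA hx') (hA hy')]
    exact Rexp.mul_mem hx hy

/-- the values as a homomorphism of the ring of exponential sums -/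
noncomputable def evB : Bf →+* Rexp :=
  (evA.comp (algebraMap Bf Af)).codRestrict Rexp (fun x => by
    rw [RingHom.comp_apply, evA_alg]
    exact evA_Bf x.1 x.2)

lemma evB_coe (x : Bf) : ((evB x : Rexp) : ℂ) = evC x.1 := by
  rw [evB, RingHom.codRestrict_apply, RingHom.comp_apply, evA_alg]

lemma evB_surj : Function.Surjective evB := by
  rintro ⟨z, hz⟩
  have hA : ∀ {f : ℂ⟦X⟧}, f ∈ Bf → f ∈ Cc := fun h => Af_Cc (Bf_le_Af h)
  have h : ∃ f, f ∈ Bf ∧ evC f = z := by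
    induction hz using Algebra.adjoin_induction with
    | mem x hx =>
      obtain ⟨β, hβ, rfl⟩ := hx
      exact ⟨eX β, Algebra.subset_adjoin ⟨β, hβ, rfl⟩, evC_eX β⟩
    | algebraMap r => exact ⟨algebraMap ℚ ℂ⟦X⟧ r, Subalgebra.algebraMap_mem _ _, evC_rat r⟩
    | add x y _ _ hx hy =>
      obtain ⟨f, hf, hf'⟩ := hx
      obtain ⟨g, hg, hg'⟩ := hy
      exact ⟨f + g, Bf.add_mem hf hg, by rw [evC_add (hA hf) (hA hg), hf', hg']⟩
    | mul x y _ _ hx hy =>
      obtain ⟨f, hf, hf'⟩ := hx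
      obtain ⟨g, hg, hg'⟩ := hy
      exact ⟨f * g, Bf.mul_mem hf hg, by rw [evC_mul (hA hf) (hA hg), hf', hg']⟩
  obtain ⟨f, hf, hfz⟩ := h
  refine ⟨⟨f, hf⟩, Subtype.ext ?_⟩
  rw [evB_coe]
  exact hfz

/-- **Algebraic independence of the numbers `E_l (α)`, `l ≥ 1`, `α ≠ 0` algebraic, over the ring generated by the exponentials
of algebraic numbers.** -/
theorem Ec_alg : AlgebraicIndependent Rexp (fun i : Ix => Ec (i.1.1 + 1) i.1.2) := by
  have h := AlgebraicIndependent.ringHom_of_comp_eq (S := Rexp) (B := ℂ) evB evA xf_alg evB_surj evA_inj (by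
    refine RingHom.ext fun x => ?_
    rw [RingHom.comp_apply, RingHom.comp_apply]
    have h1 : evA (algebraMap Bf Af x) = evC x.1 := evA_alg x
    have h2 : (algebraMap Rexp ℂ) (evB x) = evC x.1 := evB_coe x
    exact h2.trans h1.symm)
  have h3 : (evA ∘ xf) = fun i : Ix => Ec (i.1.1 + 1) i.1.2 := by
    funext i
    have hx : EC (i.1.1 + 1) i.1.2 ∈ Af := Algebra.subset_adjoin (Or.inr ⟨_, _, i.2.1, i.2.2, rfl⟩)
    have h4 : xf i = ⟨EC (i.1.1 + 1) i.1.2, hx⟩ := rfl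
    rw [Function.comp_apply, h4, evA_mk]
    rfl
  rw [← h3]
  exact h

end Pool.Agent.W5h35.GA
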