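import Pool.Agent.R352.E.Gen
import Pool.Agent.W5h35.GA.Num2

/-!
# The numbers `E_l (α)` and the complex Gompertz numbers
-/

set_option autoImplicit false

open Filter Topology Set MeasureTheory

namespace Pool.Agent.W5h35.GA

open Pool.Agent.R352.E

lemma Ec_eq (l : ℕ) (α : ℂ) : Ec l α = ∑' m : ℕ, -(-α) ^ (m + 1) / ((m + 1).factorial * ((m : ℂ) + 1) ^ l) := by
  have hs : Summable fun n => PowerSeries.coeff n (EC l α) := Summable.of_norm (EC_Cc l α)
  rw [Ec, evC, hs.tsum_eq_zero_add]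
  have h0 : PowerSeries.coeff 0 (EC l α) = 0 := by rw [EC, PowerSeries.coeff_mk, if_pos rfl]
  rw [h0, zero_add]
  refine tsum_congr fun m => ?_
  rw [EC, PowerSeries.coeff_mk, if_neg (Nat.succ_ne_zero m)]
  push_cast
  rfl

lemma Ec_real (l : ℕ) (x : ℝ) : Ec l (x : ℂ) = ((EE l x : ℝ) : ℂ) := by
  rw [Ec_eq, EE, Complex.ofReal_tsum]
  refine tsum_congr fun m => ?_
  push_cast
  rfl

lemma Ec_diff (l : ℕ) : Differentiable ℂ (Ec l) := by
  intro α
  set R : ℝ := ‖α‖ + 1 with hR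
  have hα : α ∈ Metric.ball (0 : ℂ) R := by
    rw [mem_ball_zero_iff]; linarith
  have h : DifferentiableOn ℂ (fun α : ℂ => ∑' m : ℕ, -(-α) ^ (m + 1) / ((m + 1).factorial * ((m : ℂ) + 1) ^ l))
      (Metric.ball 0 R) := by
    refine Complex.differentiableOn_tsum_of_summable_norm (u := fun m : ℕ => R ^ (m + 1) / (m + 1).factorial)
      ((summable_nat_add_iff 1).2 (Real.summable_pow_div_factorial R)) ?_ Metric.isOpen_ball ?_
    · intro m
      fun_prop
    · intro m w hw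
      rw [mem_ball_zero_iff] at hw
      rw [norm_div, norm_neg, norm_pow, norm_neg, norm_mul, norm_pow, Complex.norm_natCast]
      have h1 : (1 : ℝ) ≤ ‖(m : ℂ) + 1‖ ^ l := by
        refine one_le_pow₀ ?_
        have : (m : ℂ) + 1 = (((m : ℝ) + 1 : ℝ) : ℂ) := by push_cast; rfl
        rw [this, Complex.norm_real, Real.norm_eq_abs, abs_of_nonneg (by positivity)]
        linarith [show (0 : ℝ) ≤ m by positivity]
      have h2 : (0 : ℝ) < (m + 1).factorial := by positivity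
      refine div_le_div₀ (by positivity) (pow_le_pow_left₀ (norm_nonneg _) hw.le _) h2 (le_mul_of_one_le_right h2.le h1)
  have h2 := (h α hα).differentiableAt (Metric.isOpen_ball.mem_nhds hα)
  have h3 : (fun α : ℂ => ∑' m : ℕ, -(-α) ^ (m + 1) / ((m + 1).factorial * ((m : ℂ) + 1) ^ l)) = Ec l := by
    funext α
    rw [Ec_eq]
  rw [h3] at h2
  exact h2

/-- the complex Gompertz numbers -/
noncomputable def dC (l : ℕ) (α : ℂ) : ℂ := ∫ s in Ioi (0 : ℝ), Complex.log (1 + s / α) ^ l * (Real.exp (-s) : ℝ)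

lemma dC_real (l : ℕ) {x : ℝ} (hx : 0 < x) : dC l (x : ℂ) = ((dl l x : ℝ) : ℂ) := by
  rw [dC, dl, ← integral_complex_ofReal]
  refine setIntegral_congr_fun measurableSet_Ioi fun s hs => ?_
  have hs' : (0 : ℝ) < s := hs
  have h1 : (0 : ℝ) ≤ 1 + s / x := by positivity
  have h2 : (1 : ℂ) + s / x = ((1 + s / x : ℝ) : ℂ) := by push_cast; rfl
  simp only [h2, ← Complex.ofReal_log h1]
  push_cast
  rfl

lemma slit_lower {α : ℂ} (hα : α ∈ Complex.slitPlane) : ∃ c : ℝ, 0 < c ∧ ∀ s : ℝ, 0 ≤ s → c ≤ ‖α + s‖ := by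
  rcases Complex.mem_slitPlane_iff.1 hα with h | h
  · refine ⟨α.re, h, fun s hs => ?_⟩
    refine le_trans ?_ (Complex.re_le_norm _)
    simp only [Complex.add_re, Complex.ofReal_re]
    linarith
  · refine ⟨|α.im|, abs_pos.2 h, fun s _ => ?_⟩
    refine le_trans ?_ (Complex.abs_im_le_norm _)
    simp

lemma slit_of_lower {α : ℂ} {c : ℝ} (hc : 0 < c) (h : ∀ s : ℝ, 0 ≤ s → c ≤ ‖α + s‖) : α ∈ Complex.slitPlane := by
  rw [Complex.mem_slitPlane_iff]
  by_contra hcon
  push Not at hcon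
  have h1 := h (-α.re) (by linarith [hcon.1])
  have h2 : α + ((-α.re : ℝ) : ℂ) = 0 := by
    apply Complex.ext
    · simp
    · simp [hcon.2]
  rw [h2, norm_zero] at h1
  linarith

lemma slit_one_add {α : ℂ} (hα : α ∈ Complex.slitPlane) {s : ℝ} (hs : 0 ≤ s) : 1 + s / α ∈ Complex.slitPlane := by
  have h0 : α ≠ 0 := Complex.slitPlane_ne_zero hα
  rw [Complex.mem_slitPlane_iff]
  by_contra hcon
  push Not at hcon
  set w : ℂ := 1 + s / α with hw
  have h1 : w = ((w.re : ℝ) : ℂ) := by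
    apply Complex.ext
    · simp
    · simp [hcon.2]
  have h2 : (s : ℂ) = α * ((w.re - 1 : ℝ) : ℂ) := by
    have h3 : (s : ℂ) / α = w - 1 := by rw [hw]; ring
    push_cast
    rw [← h1, ← h3]
    field_simp
  have hne : (w.re - 1) ≠ 0 := by linarith [hcon.1]
  have h3 : α = ((s / (w.re - 1) : ℝ) : ℂ) := by
    have hne' : ((w.re - 1 : ℝ) : ℂ) ≠ 0 := by exact_mod_cast hne
    rw [Complex.ofReal_div, eq_div_iff hne', ← h2]
  have h4 : s / (w.re - 1) ≤ 0 := div_nonpos_of_nonneg_of_nonpos hs (by linarith [hcon.1])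
  rw [h3, Complex.mem_slitPlane_iff] at hα
  simp only [Complex.ofReal_re, Complex.ofReal_im, ne_eq, not_true_eq_false, or_false] at hα
  linarith

lemma log_bound' {t : ℝ} (ht : 0 < t) : |Real.log t| ≤ t + t⁻¹ := by
  have h1 : Real.log t ≤ t := by
    have := Real.log_le_sub_one_of_pos ht
    linarith
  have h2 : -Real.log t ≤ t⁻¹ := by
    rw [← Real.log_inv]
    have := Real.log_le_sub_one_of_pos (inv_pos.2 ht)
    linarith
  have h3 : 0 < t⁻¹ := inv_pos.2 ht
  rw [abs_le]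
  constructor <;> linarith

/-- the bound for the logarithm -/
lemma clog_bound {α : ℂ} {c M : ℝ} (hc : 0 < c) (h : ∀ s : ℝ, 0 ≤ s → c ≤ ‖α + s‖) (hM : ‖α‖ ≤ M) {s : ℝ} (hs : 0 ≤ s) :
    ‖Complex.log (1 + s / α)‖ ≤ (1 + c⁻¹ + M * c⁻¹ + Real.pi) * (1 + s) := by
  have hα : c ≤ ‖α‖ := by simpa using h 0 le_rfl
  have hα0 : 0 < ‖α‖ := lt_of_lt_of_le hc hα
  have hαne : α ≠ 0 := norm_pos_iff.1 hα0
  have hM0 : 0 < M := lt_of_lt_of_le hα0 hM
  have hci : 0 < c⁻¹ := inv_pos.2 hc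
  set w : ℂ := 1 + s / α with hw
  have hwn : ‖w‖ = ‖α + s‖ / ‖α‖ := by
    rw [← norm_div, hw, add_div, div_self hαne]
  have hw0 : 0 < ‖w‖ := by
    rw [hwn]
    exact div_pos (lt_of_lt_of_le hc (h s hs)) hα0
  have hw1 : ‖w‖ ≤ 1 + s * c⁻¹ := by
    refine (norm_add_le _ _).trans ?_
    rw [norm_one, norm_div, Complex.norm_real, Real.norm_eq_abs, abs_of_nonneg hs, div_eq_mul_inv]
    gcongr
  have hw2 : ‖w‖⁻¹ ≤ M * c⁻¹ := by
    rw [hwn, inv_div, div_eq_mul_inv]
    gcongr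
    exact h s hs
  have h1 : ‖Complex.log w‖ ≤ |Real.log ‖w‖| + Real.pi := by
    refine (Complex.norm_le_abs_re_add_abs_im _).trans ?_
    rw [Complex.log_re, Complex.log_im]
    gcongr
    exact Complex.abs_arg_le_pi w
  refine h1.trans ?_
  have h2 := log_bound' hw0
  have hpi := Real.pi_pos
  have h3 : 0 ≤ s * c⁻¹ := by positivity
  have h4 : 0 ≤ (M * c⁻¹) * s := by positivity
  have h5 : 0 ≤ Real.pi * s := by positivity
  nlinarith

lemma int_poly_exp (n : ℕ) : IntegrableOn (fun s : ℝ => (1 + s) ^ n * Real.exp (-s)) (Ioi 0) := by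
  refine integrable_of_isBigO_exp_neg (b := 1 / 2) (by norm_num) ?_ ?_
  · fun_prop
  · have h1 : (fun s : ℝ => (1 + s) ^ n) =O[atTop] fun s : ℝ => Real.exp (1 / 2 * s) := by
      have h2 : (fun s : ℝ => (1 + s) ^ n) =O[atTop] fun s : ℝ => s ^ n := by
        refine Asymptotics.IsBigO.pow ?_ n
        refine Asymptotics.IsBigO.of_bound 2 ?_
        filter_upwards [eventually_ge_atTop (1 : ℝ)] with s hs
        rw [Real.norm_eq_abs, Real.norm_eq_abs, abs_of_nonneg (by linarith), abs_of_nonneg (by linarith)]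
        linarith
      exact h2.trans (isLittleO_pow_exp_pos_mul_atTop n (by norm_num : (0 : ℝ) < 1 / 2)).isBigO
    have h3 := h1.mul (Asymptotics.isBigO_refl (fun s : ℝ => Real.exp (-s)) atTop)
    refine h3.congr (fun _ => rfl) fun s => ?_
    rw [← Real.exp_add]
    congr 1
    ring

lemma meas_F (l : ℕ) (α : ℂ) : AEStronglyMeasurable (fun s : ℝ => Complex.log (1 + s / α) ^ l * (Real.exp (-s) : ℝ))
    (volume.restrict (Ioi 0)) := by
  refine Measurable.aestronglyMeasurable ?_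
  fun_prop

lemma int_F (l : ℕ) {α : ℂ} (hα : α ∈ Complex.slitPlane) :
    Integrable (fun s : ℝ => Complex.log (1 + s / α) ^ l * (Real.exp (-s) : ℝ)) (volume.restrict (Ioi 0)) := by
  obtain ⟨c, hc, h⟩ := slit_lower hα
  set K : ℝ := 1 + c⁻¹ + ‖α‖ * c⁻¹ + Real.pi with hK
  refine Integrable.mono' ((int_poly_exp l).const_mul (K ^ l)) (meas_F l α) ?_
  filter_upwards [ae_restrict_mem measurableSet_Ioi] with s hs
  have hs' : (0 : ℝ) < s := hs
  rw [norm_mul, norm_pow, Complex.norm_real, Real.norm_eq_abs, abs_of_pos (Real.exp_pos _), ← mul_assoc, ← mul_pow]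
  gcongr
  exact clog_bound hc h le_rfl hs'.le

lemma dC_deriv (l : ℕ) {α : ℂ} (hα : α ∈ Complex.slitPlane) : DifferentiableAt ℂ (dC (l + 1)) α := by
  obtain ⟨c, hc, h⟩ := slit_lower hα
  set M : ℝ := ‖α‖ + c / 2 with hM
  set K : ℝ := 1 + (c / 2)⁻¹ + M * (c / 2)⁻¹ + Real.pi with hK
  have hc2 : 0 < c / 2 := by linarith
  have hK0 : 0 ≤ K := by
    have := Real.pi_pos
    positivity
  have hball : ∀ β ∈ Metric.ball α (c / 2), (∀ s : ℝ, 0 ≤ s → c / 2 ≤ ‖β + s‖) ∧ ‖β‖ ≤ M := by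
    intro β hβ
    rw [Metric.mem_ball, dist_eq_norm] at hβ
    refine ⟨fun s hs => ?_, ?_⟩
    · have h1 : α + s = (β + s) - (β - α) := by ring
      have h2 := h s hs
      rw [h1] at h2
      have h3 := norm_sub_le (β + s) (β - α)
      linarith
    · have h1 : β = α + (β - α) := by ring
      rw [h1]
      refine (norm_add_le _ _).trans ?_
      linarith
  have hmain := hasDerivAt_integral_of_dominated_loc_of_deriv_le (μ := volume.restrict (Ioi (0 : ℝ))) (𝕜 := ℂ)
    (F := fun (β : ℂ) (s : ℝ) => Complex.log (1 + s / β) ^ (l + 1) * (Real.exp (-s) : ℝ))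
    (F' := fun (β : ℂ) (s : ℝ) => ((l + 1 : ℕ) * Complex.log (1 + s / β) ^ l * (-(s / (β * (β + s))))) * (Real.exp (-s) : ℝ))
    (x₀ := α) (s := Metric.ball α (c / 2))
    (bound := fun s : ℝ => ((l + 1 : ℕ) * K ^ l * ((c / 2)⁻¹ * (c / 2)⁻¹)) * ((1 + s) ^ (l + 1) * Real.exp (-s)))
    (Metric.ball_mem_nhds α hc2) (Eventually.of_forall fun β => meas_F (l + 1) β) (int_F (l + 1) hα) ?_ ?_ ?_ ?_
  · exact hmain.2.differentiableAt
  · refine Measurable.aestronglyMeasurable ?_
    fun_prop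
  · filter_upwards [ae_restrict_mem measurableSet_Ioi] with s hs β hβ
    have hs' : (0 : ℝ) < s := hs
    obtain ⟨h1, h2⟩ := hball β hβ
    have h3 : c / 2 ≤ ‖β‖ := by simpa using h1 0 le_rfl
    have h4 := h1 s hs'.le
    rw [norm_mul, norm_mul, norm_mul, norm_pow, norm_neg, norm_div, norm_mul, Complex.norm_natCast, Complex.norm_real,
      Complex.norm_real, Real.norm_eq_abs, Real.norm_eq_abs, abs_of_pos hs', abs_of_pos (Real.exp_pos _)]
    have h5 : ‖Complex.log (1 + s / β)‖ ^ l ≤ (K * (1 + s)) ^ l :=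
      pow_le_pow_left₀ (norm_nonneg _) (clog_bound hc2 h1 h2 hs'.le) l
    have h6 : s / (‖β‖ * ‖β + s‖) ≤ (1 + s) * ((c / 2)⁻¹ * (c / 2)⁻¹) := by
      rw [div_eq_mul_inv, mul_inv]
      gcongr
      linarith
    calc ((l + 1 : ℕ) : ℝ) * ‖Complex.log (1 + s / β)‖ ^ l * (s / (‖β‖ * ‖β + s‖)) * Real.exp (-s)
        ≤ ((l + 1 : ℕ) : ℝ) * (K * (1 + s)) ^ l * ((1 + s) * ((c / 2)⁻¹ * (c / 2)⁻¹)) * Real.exp (-s) := by
          gcongr
      _ = _ := by rw [mul_pow, pow_succ]; ring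
  · exact (int_poly_exp (l + 1)).const_mul _
  · filter_upwards [ae_restrict_mem measurableSet_Ioi] with s hs β hβ
    have hs' : (0 : ℝ) < s := hs
    obtain ⟨h1, h2⟩ := hball β hβ
    have hβs : β ∈ Complex.slitPlane := slit_of_lower hc2 h1
    have hβ0 : β ≠ 0 := Complex.slitPlane_ne_zero hβs
    have hw := slit_one_add hβs hs'.le
    have hβs0 : β + s ≠ 0 := by
      intro h0
      have := h1 s hs'.le
      rw [h0, norm_zero] at this
      linarith
    have h3 : HasDerivAt (fun β : ℂ => 1 + (s : ℂ) / β) (-(s : ℂ) / β ^ 2) β := by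
      have h4 := ((hasDerivAt_inv hβ0).const_mul (s : ℂ)).const_add 1
      refine (h4.congr_deriv ?_).congr_of_eventuallyEq (Eventually.of_forall fun z => ?_)
      · ring
      · rfl
    have h4 := ((h3.clog hw).pow (l + 1)).mul_const ((Real.exp (-s) : ℝ) : ℂ)
    refine h4.congr_deriv ?_
    have hw0 : 1 + (s : ℂ) / β ≠ 0 := Complex.slitPlane_ne_zero hw
    have h5 : -(s : ℂ) / β ^ 2 / (1 + s / β) = -(s / (β * (β + s))) := by
      have h6 : 1 + (s : ℂ) / β = (β + s) / β := by field_simp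
      rw [h6]
      field_simp
    rw [Nat.add_sub_cancel, h5]

lemma dC_zero (α : ℂ) : dC 0 α = 1 := by
  rw [dC]
  simp only [pow_zero, one_mul]
  rw [integral_complex_ofReal, integral_exp_neg_Ioi_zero]
  simp

lemma dC_diff (l : ℕ) : DifferentiableOn ℂ (dC l) Complex.slitPlane := by
  intro α hα
  rcases l with _ | l
  · have : dC 0 = fun _ => (1 : ℂ) := funext dC_zero
    rw [this]
    exact differentiableWithinAt_const _
  · exact (dC_deriv l hα).differentiableWithinAt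

/-- the moments -/
noncomputable def Nc (l : ℕ) (L : ℂ) : ℂ :=
  ∑ i ∈ Finset.range (l + 1), (l.choose i : ℂ) * (-1) ^ (l - i) * (L ^ (l - i) * ((mo i : ℝ) : ℂ))

lemma Nc_real (l : ℕ) {x : ℝ} (hx : 0 < x) : Nc l (Complex.log x) = ((NN l x : ℝ) : ℂ) := by
  rw [Nc, NN, ← Complex.ofReal_log hx.le]
  push_cast
  rfl

/-- **the relation for complex arguments** -/
theorem Ec_rel (l : ℕ) {α : ℂ} (hα : α ∈ Complex.slitPlane) :
    Ec l α = (-1) ^ l / l.factorial * (Nc l (Complex.log α) - Complex.exp (-α) * dC l α) := by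
  have hf : AnalyticOnNhd ℂ (Ec l) Complex.slitPlane :=
    (Ec_diff l).differentiableOn.analyticOnNhd Complex.isOpen_slitPlane
  have hg : AnalyticOnNhd ℂ (fun α => (-1) ^ l / l.factorial * (Nc l (Complex.log α) - Complex.exp (-α) * dC l α))
      Complex.slitPlane := by
    refine DifferentiableOn.analyticOnNhd ?_ Complex.isOpen_slitPlane
    have h1 : DifferentiableOn ℂ (fun α => Nc l (Complex.log α)) Complex.slitPlane := by
      unfold Nc
      refine DifferentiableOn.fun_sum fun i _ => ?_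
      refine DifferentiableOn.const_mul (DifferentiableOn.mul_const (DifferentiableOn.pow ?_ _) _) _
      intro z hz
      exact (Complex.differentiableAt_log hz).differentiableWithinAt
    refine DifferentiableOn.const_mul (h1.sub (DifferentiableOn.mul ?_ (dC_diff l))) _
    fun_prop
  have hpre : IsPreconnected Complex.slitPlane := by
    have : StarConvex ℝ (1 : ℂ) Complex.slitPlane := Complex.starConvex_one_slitPlane
    exact (this.isPathConnected Complex.one_mem_slitPlane).isConnected.isPreconnected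
  have hfreq : ∃ᶠ z in 𝓝[≠] (1 : ℂ), Ec l z = (-1) ^ l / l.factorial * (Nc l (Complex.log z) - Complex.exp (-z) * dC l z) := by
    have ht : Tendsto (fun x : ℝ => (x : ℂ)) (𝓝[≠] 1) (𝓝[≠] (1 : ℂ)) := by
      refine tendsto_nhdsWithin_iff.2 ⟨?_, ?_⟩
      · have h1 : Tendsto (fun x : ℝ => (x : ℂ)) (𝓝 1) (𝓝 ((1 : ℝ) : ℂ)) := Complex.continuous_ofReal.tendsto 1
        rw [Complex.ofReal_one] at h1
        exact h1.mono_left nhdsWithin_le_nhds
      · filter_upwards [self_mem_nhdsWithin] with x hx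
        intro h
        apply hx
        have h' : (x : ℂ) = 1 := h
        exact_mod_cast h'
    refine ht.frequently (Eventually.frequently ?_)
    filter_upwards [nhdsWithin_le_nhds (Ioi_mem_nhds (show (0 : ℝ) < 1 from one_pos))] with x hx
    have hx' : (0 : ℝ) < x := hx
    rw [Ec_real, Nc_real l hx', dC_real l hx', EE_rel l hx']
    push_cast
    rfl
  exact hf.eqOn_of_preconnected_of_frequently_eq hg hpre Complex.one_mem_slitPlane hfreq hα

end Pool.Agent.W5h35.GA
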