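import Pool.Agent.W5h35.GA.Cl
import Pool.Agent.W5h35.GA.RelC

/-!
# Membership of the numbers `E_l (α)` in closures
-/

set_option autoImplicit false

open Filter Topology Set MeasureTheory

namespace Pool.Agent.W5h35.GA

open Pool.Agent.R352.E

noncomputable def PAc : PowerSeries ℂ := PowerSeries.mk fun n => ((mo n / n.factorial : ℝ) : ℂ)
noncomputable def PCc : PowerSeries ℂ := PowerSeries.mk fun n => ((cc n / n.factorial : ℝ) : ℂ)
noncomputable def PEc (a : ℂ) : PowerSeries ℂ := PowerSeries.mk fun n => a ^ n / n.factorial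

lemma dPAc : PowerSeries.derivative ℂ PAc = PAc * PCc := by
  ext n
  have h := congrArg (PowerSeries.coeff n) dPA
  rw [PowerSeries.coeff_derivative, PowerSeries.coeff_mul] at h
  simp only [PA, PC, PowerSeries.coeff_mk] at h
  rw [PowerSeries.coeff_derivative, PowerSeries.coeff_mul]
  simp only [PAc, PCc, PowerSeries.coeff_mk]
  have h2 := congrArg (fun x : ℝ => (x : ℂ)) h
  push_cast at h2 ⊢
  exact h2

lemma dPEc (a : ℂ) : PowerSeries.derivative ℂ (PEc a) = a • PEc a := by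
  ext n
  rw [PowerSeries.coeff_derivative, PowerSeries.coeff_smul]
  simp only [PEc, PowerSeries.coeff_mk, smul_eq_mul]
  rw [Nat.factorial_succ]
  have h4 : (n.factorial : ℂ) ≠ 0 := by exact_mod_cast n.factorial_ne_zero
  have h7 : ((n : ℂ) + 1) ≠ 0 := by exact_mod_cast n.succ_ne_zero
  push_cast
  field_simp
  rw [pow_succ]
  ring

/-- generating series of `Nc l L / l!` -/
noncomputable def PBc (L : ℂ) : PowerSeries ℂ := PEc (-L) * PAc

lemma coeff_PBc (l : ℕ) (L : ℂ) : PowerSeries.coeff l (PBc L) = Nc l L / l.factorial := by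
  rw [PBc, PowerSeries.coeff_mul]
  simp only [PAc, PEc, PowerSeries.coeff_mk]
  rw [Finset.Nat.sum_antidiagonal_eq_sum_range_succ (fun i j => (-L) ^ i / (i.factorial : ℂ) * ((mo j / j.factorial : ℝ) : ℂ)),
    ← Finset.sum_range_reflect, Nc, Finset.sum_div]
  refine Finset.sum_congr rfl fun i hi => ?_
  have hi' : i ≤ l := by have := Finset.mem_range.1 hi; omega
  have e1 : l + 1 - 1 - i = l - i := by omega
  have e2 : l - (l - i) = i := by omega
  rw [e1, e2, neg_pow]
  have h3 : (l.choose i : ℂ) * i.factorial * (l - i).factorial = l.factorial := by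
    exact_mod_cast Nat.choose_mul_factorial_mul_factorial hi'
  have h4 : (l.factorial : ℂ) ≠ 0 := by exact_mod_cast l.factorial_ne_zero
  have h5 : (i.factorial : ℂ) ≠ 0 := by exact_mod_cast i.factorial_ne_zero
  have h6 : ((l - i).factorial : ℂ) ≠ 0 := by exact_mod_cast (l - i).factorial_ne_zero
  push_cast
  field_simp
  linear_combination (-(L ^ (l - i) * ((mo i : ℝ) : ℂ))) * h3

lemma dPBc (L : ℂ) : PowerSeries.derivative ℂ (PBc L) = PBc L * (PCc - PowerSeries.C L) := by
  rw [PBc, Derivation.leibniz, dPAc, dPEc]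
  simp only [smul_eq_mul, neg_smul, PowerSeries.smul_eq_C_mul]
  ring

lemma coeff_PBc_mem {L : ℂ} {T : Set ℂ} (h0 : (Real.eulerMascheroniConstant : ℂ) + L ∈ cl T) (J : ℕ)
    (hz : ∀ k, 2 ≤ k → k ≤ J → ((zt k : ℝ) : ℂ) ∈ cl T) : ∀ n ≤ J, PowerSeries.coeff n (PBc L) ∈ cl T := by
  have hc : ∀ j < J, PowerSeries.coeff j (PCc - PowerSeries.C L) ∈ cl T := by
    intro j hj
    rw [map_sub, PowerSeries.coeff_C, PCc, PowerSeries.coeff_mk]
    cases j with
    | zero =>
      simp only [cc, Nat.factorial_zero, Nat.cast_one, div_one, if_true]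
      have := (cl T).neg_mem h0
      convert this using 1
      push_cast
      ring
    | succ j =>
      simp only [cc, Nat.succ_ne_zero, if_false, sub_zero]
      push_cast
      refine (cl T).div_mem ((cl T).mul_mem ((cl T).mul_mem ?_ ?_) (hz _ (by omega) (by omega))) ?_
      · exact (cl T).pow_mem ((cl T).neg_mem (cl T).one_mem) _
      · exact natCast_mem (cl T) _
      · exact natCast_mem (cl T) _
  intro n
  induction n using Nat.strong_induction_on with
  | _ n ih =>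
    intro hn
    cases n with
    | zero =>
      rw [coeff_PBc, Nc]
      simp [mo0]
    | succ n =>
      have h1 : PowerSeries.coeff n (PowerSeries.derivative ℂ (PBc L)) =
          PowerSeries.coeff n (PBc L * (PCc - PowerSeries.C L)) := by rw [dPBc]
      rw [PowerSeries.coeff_derivative, PowerSeries.coeff_mul] at h1
      have h2 : PowerSeries.coeff (n + 1) (PBc L) = (∑ p ∈ Finset.HasAntidiagonal.antidiagonal n, PowerSeries.coeff p.1 (PBc L) *
          PowerSeries.coeff p.2 (PCc - PowerSeries.C L)) / ((n : ℂ) + 1) := by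
        rw [eq_div_iff (by exact_mod_cast n.succ_ne_zero), h1]
      rw [h2]
      refine (cl T).div_mem ((cl T).sum_mem fun p hp => ?_) ?_
      · have hp' := Finset.HasAntidiagonal.mem_antidiagonal.1 hp
        exact (cl T).mul_mem (ih p.1 (by omega) (by omega)) (hc p.2 (by omega))
      · exact_mod_cast natCast_mem (cl T) (n + 1)

/-- membership of `E_l(α)` -/
lemma Ec_mem {α : ℂ} (hα : α ∈ Complex.slitPlane) (ha : IsAlgebraic ℚ α) {T : Set ℂ}
    (h0 : (Real.eulerMascheroniConstant : ℂ) + Complex.log α ∈ cl T) (l : ℕ)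
    (hz : ∀ k, 2 ≤ k → k ≤ l → ((zt k : ℝ) : ℂ) ∈ cl T) (hd : dC l α ∈ cl T) : Ec l α ∈ cl T := by
  have hl : (l.factorial : ℂ) ≠ 0 := by exact_mod_cast l.factorial_ne_zero
  have h1 : Ec l α = (-1) ^ l * (PowerSeries.coeff l (PBc (Complex.log α)) - Complex.exp (-α) * dC l α / l.factorial) := by
    rw [Ec_rel l hα, coeff_PBc]
    ring
  rw [h1]
  refine (cl T).mul_mem ((cl T).pow_mem ((cl T).neg_mem (cl T).one_mem) _) ((cl T).sub_mem ?_ ?_)
  · exact coeff_PBc_mem h0 l hz l le_rfl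
  · exact (cl T).div_mem ((cl T).mul_mem (exp_mem ha.neg) hd) (natCast_mem (cl T) _)

/-- even zeta values -/
lemma zt_even' {T : Set ℂ} (hpi : (Real.pi : ℂ) ∈ cl T) (k : ℕ) (hk : k ≠ 0) : ((zt (2 * k) : ℝ) : ℂ) ∈ cl T := by
  have h1 := hasSum_zeta_nat hk
  have h2 : zt (2 * k) = (-1 : ℝ) ^ (k + 1) * (2 : ℝ) ^ (2 * k - 1) * Real.pi ^ (2 * k) * bernoulli (2 * k) / (2 * k).factorial := by
    rw [← h1.tsum_eq, zt]
    have hs : Summable (fun n : ℕ => 1 / (n : ℝ) ^ (2 * k)) := h1.summable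
    rw [← hs.sum_add_tsum_nat_add 1]
    simp only [Finset.sum_range_succ, Finset.sum_range_zero, zero_add]
    have h0 : (0 : ℝ) ^ (2 * k) = 0 := zero_pow (by omega)
    rw [Nat.cast_zero, h0, div_zero, zero_add]
    refine tsum_congr fun n => ?_
    push_cast
    rfl
  rw [h2]
  push_cast
  refine (cl T).div_mem ((cl T).mul_mem ((cl T).mul_mem ((cl T).mul_mem ?_ ?_) ((cl T).pow_mem hpi _)) ?_) (natCast_mem (cl T) _)
  · exact (cl T).pow_mem ((cl T).neg_mem (cl T).one_mem) _
  · refine (cl T).pow_mem ?_ _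
    exact_mod_cast natCast_mem (cl T) 2
  · exact SubfieldClass.ratCast_mem _ _

/-- the constants ζ(3), ζ(3)/π³, ζ(5), …, ζ(2c+3) -/
noncomputable def cons (c : ℕ) : Fin (c + 2) → ℝ := fun i =>
  if (i : ℕ) = 0 then zt 3 else if (i : ℕ) = 1 then zt 3 / Real.pi ^ 3 else zt (2 * i + 1)

lemma zt_pos (k : ℕ) (hk : 2 ≤ k) : 0 < zt k := by
  have h2 : Summable (fun n : ℕ => 1 / ((n : ℝ) + 1) ^ k) := by
    have := (summable_nat_add_iff 1).2 (Real.summable_one_div_nat_pow.2 (show 1 < k by omega))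
    refine this.congr fun n => ?_
    push_cast
    rfl
  exact h2.tsum_pos (fun n => by positivity) 0 (by norm_num)

lemma pi_mem' {T : Set ℂ} (h3 : ((zt 3 : ℝ) : ℂ) ∈ cl T) (h4 : ((zt 3 / Real.pi ^ 3 : ℝ) : ℂ) ∈ cl T) :
    (Real.pi : ℂ) ∈ cl T := by
  refine of_pow (n := 3) (by norm_num) ?_
  have h0 : (zt 3 : ℂ) ≠ 0 := by
    have := zt_pos 3 (by norm_num)
    exact_mod_cast this.ne'
  have hpi : (Real.pi : ℂ) ≠ 0 := by exact_mod_cast Real.pi_ne_zero
  have h5 : (Real.pi : ℂ) ^ 3 = (zt 3 : ℂ) / ((zt 3 / Real.pi ^ 3 : ℝ) : ℂ) := by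
    push_cast
    field_simp
  rw [h5]
  exact (cl T).div_mem h3 h4

lemma cons_mem {c : ℕ} {T : Set ℂ} (h : ∀ i, ((cons c i : ℝ) : ℂ) ∈ cl T) :
    (Real.pi : ℂ) ∈ cl T ∧ ∀ k, 2 ≤ k → k ≤ 2 * c + 4 → ((zt k : ℝ) : ℂ) ∈ cl T := by
  have h3 : ((zt 3 : ℝ) : ℂ) ∈ cl T := by
    have := h ⟨0, by omega⟩
    simpa [cons] using this
  have h4 : ((zt 3 / Real.pi ^ 3 : ℝ) : ℂ) ∈ cl T := by
    have := h ⟨1, by omega⟩
    simpa only [cons, one_ne_zero, if_false, if_true] using this
  have hpi := pi_mem' h3 h4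
  refine ⟨hpi, fun k hk hk' => ?_⟩
  rcases Nat.even_or_odd' k with ⟨j, rfl | rfl⟩
  · exact zt_even' hpi j (by omega)
  · rcases Nat.lt_or_ge j 2 with hj | hj
    · have : j = 1 := by omega
      subst this
      exact h3
    · have := h ⟨j, by omega⟩
      have e0 : j ≠ 0 := by omega
      have e1 : j ≠ 1 := by omega
      simpa only [cons, e0, e1, if_false] using this

end Pool.Agent.W5h35.GA
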