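import Pool.Agent.W5h35.GA.SS
import Pool.Agent.W5h35.GA.Ind

/-!
# Coordinates of power series over number fields
-/

set_option autoImplicit false

open PowerSeries

namespace Pool.Agent.W5h35.GA

open Pool.Agent.Y113 Pool.Agent.R352.E

/-! ## E-functions as an algebra and their values at 1 -/

/-- the algebra of E-functions over `ℚ` -/
def EFa : Subalgebra ℚ ℚ⟦X⟧ where
  carrier := {f | EF f}
  mul_mem' := fun ha hb => ha.mul hb
  one_mem' := EF.one
  add_mem' := fun ha hb => EF_add ha hb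
  zero_mem' := EF_zero
  algebraMap_mem' := fun r => by
    show EF _
    rw [Algebra.algebraMap_eq_smul_one]
    exact EF_smul r EF.one

/-- the value at 1 -/
noncomputable def evh : EFa →+* ℝ where
  toFun f := ev 1 f.1
  map_one' := ev_one
  map_mul' a b := Cv.ev_mul one_pos a.2.cv b.2.cv
  map_zero' := ev_zero
  map_add' a b := Cv.ev_add one_pos a.2.cv b.2.cv

lemma EF_pow_seq {u : ℕ → ℚ} {C : ℝ} {D : ℕ} (hC : 1 ≤ C) (hD : 1 ≤ D) (hu : ∀ n, |((u n : ℚ) : ℝ)| ≤ C ^ (n + 1))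
    (hd : ∀ n, ∃ a : ℤ, (D : ℚ) ^ (n + 1) * u n = a) (l : ℕ) :
    EF (PowerSeries.mk fun n => if n = 0 then 0 else u n / (n.factorial * (n : ℚ) ^ l)) := by
  set f : ℚ⟦X⟧ := PowerSeries.mk fun n => if n = 0 then 0 else u n / (n.factorial * (n : ℚ) ^ l) with hf
  have hcf : ∀ m, cf m f = if m = 0 then 0 else u m / (m : ℚ) ^ l := by
    intro m
    rw [cf, hf, coeff_mk]
    have : (m.factorial : ℚ) ≠ 0 := by exact_mod_cast m.factorial_ne_zero
    split_ifs
    · rw [mul_zero]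
    · field_simp
  have hD1 : (1 : ℝ) ≤ D := by exact_mod_cast hD
  have hb1 : (1 : ℝ) ≤ (2 ^ 8 : ℝ) ^ l := one_le_pow₀ (by norm_num)
  have hDb : (1 : ℝ) ≤ D * (2 ^ 8 : ℝ) ^ l := one_le_mul_of_one_le_of_one_le hD1 hb1
  set C' : ℝ := C * (D * (2 ^ 8) ^ l) with hC'
  have hC1 : 1 ≤ C' := one_le_mul_of_one_le_of_one_le hC hDb
  refine ⟨C', hC1, fun m => ?_, fun m => ⟨D ^ (m + 1) * Nat.lcmUpto m ^ l, ?_, ?_, fun j hj => ?_⟩⟩
  · rw [hcf]
    split_ifs with h
    · simp only [Rat.cast_zero, abs_zero]; positivity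
    · push_cast
      rw [abs_div, abs_pow, Nat.abs_cast]
      have hm1 : (1 : ℝ) ≤ (m : ℝ) ^ l := one_le_pow₀ (by exact_mod_cast Nat.pos_of_ne_zero h)
      refine (div_le_self (abs_nonneg _) hm1).trans ((hu m).trans ?_)
      exact pow_le_pow_left₀ (by linarith) (le_mul_of_one_le_right (by linarith) hDb) _
  · exact Nat.mul_pos (by positivity) (pow_pos (Nat.lcmUpto_pos m) _)
  · push_cast
    have h2 : (Nat.lcmUpto m : ℝ) ^ l ≤ ((2 ^ 8 : ℝ) ^ l) ^ (m + 1) := by
      have h3 : (Nat.lcmUpto m : ℝ) ^ l ≤ ((2 ^ 8 : ℝ) ^ l) ^ m := by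
        rw [← pow_mul, mul_comm l m, pow_mul]
        exact pow_le_pow_left₀ (by positivity) (lcm_bound m) l
      exact h3.trans (pow_le_pow_right₀ hb1 (by omega))
    calc (D : ℝ) ^ (m + 1) * (Nat.lcmUpto m : ℝ) ^ l ≤ (D : ℝ) ^ (m + 1) * ((2 ^ 8 : ℝ) ^ l) ^ (m + 1) :=
          mul_le_mul_of_nonneg_left h2 (by positivity)
      _ = (D * (2 ^ 8 : ℝ) ^ l) ^ (m + 1) := by rw [mul_pow]
      _ ≤ C' ^ (m + 1) := pow_le_pow_left₀ (by positivity) (le_mul_of_one_le_left (by positivity) hC) _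
  · rw [hcf]
    split_ifs with h
    · exact ⟨0, by simp⟩
    · have hdv : j ∣ Nat.lcmUpto m := Finset.dvd_lcm (f := id) (Finset.mem_Icc.2 ⟨by omega, hj⟩)
      obtain ⟨c, hc⟩ := hdv
      obtain ⟨a, ha⟩ := hd j
      refine ⟨(D : ℤ) ^ (m - j) * a * (c : ℤ) ^ l, ?_⟩
      have hj0 : (j : ℚ) ≠ 0 := by exact_mod_cast h
      have h3 : (D : ℚ) ^ (m + 1) = D ^ (m - j) * D ^ (j + 1) := by rw [← pow_add]; congr 1; omega
      push_cast
      rw [hc, ← ha]
      push_cast
      rw [h3, mul_pow]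
      field_simp

lemma EF_pow_seq' {u : ℕ → ℚ} {C : ℝ} {D : ℕ} (hC : 1 ≤ C) (hD : 1 ≤ D) (hu : ∀ n, |((u n : ℚ) : ℝ)| ≤ C ^ (n + 1))
    (hd : ∀ n, ∃ a : ℤ, (D : ℚ) ^ (n + 1) * u n = a) : EF (PowerSeries.mk fun n => u n / n.factorial) := by
  have h1 := EF_pow_seq hC hD hu hd 0
  have h2 := EF_add h1 (EF_smul (u 0) EF.one)
  convert h2 using 1
  ext n
  rw [coeff_mk, map_add, coeff_mk, coeff_smul, coeff_one]
  by_cases h : n = 0
  · rw [if_pos h, if_pos h, h]; simp
  · rw [if_neg h, if_neg h]; simp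

/-! ## coordinates -/

variable {K : Type} [Field K] [NumberField K]

/-- a basis -/
noncomputable def bK (K : Type) [Field K] [NumberField K] : Module.Basis (Fin (Module.finrank ℚ K)) ℚ K := Module.finBasis ℚ K

/-- the coordinates of an element -/
noncomputable abbrev co (k : Fin (Module.finrank ℚ K)) : K →ₗ[ℚ] ℚ := (bK K).coord k

lemma sum_co (x : K) : ∑ k, co k x • bK K k = x := (bK K).sum_repr x

lemma co_mul (k : Fin (Module.finrank ℚ K)) (x y : K) : co k (x * y) = ∑ j, co k (x * bK K j) * co j y := by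
  conv_lhs => rw [← sum_co y]
  rw [Finset.mul_sum, map_sum]
  refine Finset.sum_congr rfl fun j _ => ?_
  rw [mul_smul_comm, map_smul, smul_eq_mul, mul_comm]

/-- the coordinates of a power series -/
noncomputable def cop (k : Fin (Module.finrank ℚ K)) (F : K⟦X⟧) : ℚ⟦X⟧ := PowerSeries.mk fun n => co k (coeff n F)

lemma coeff_cop (k : Fin (Module.finrank ℚ K)) (F : K⟦X⟧) (n : ℕ) : coeff n (cop k F) = co k (coeff n F) := coeff_mk _ _

lemma cop_add (k : Fin (Module.finrank ℚ K)) (F G : K⟦X⟧) : cop k (F + G) = cop k F + cop k G := by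
  ext n
  rw [coeff_cop, map_add, map_add, map_add, coeff_cop, coeff_cop]

lemma cop_sub (k : Fin (Module.finrank ℚ K)) (F G : K⟦X⟧) : cop k (F - G) = cop k F - cop k G := by
  ext n
  rw [coeff_cop, map_sub, map_sub, map_sub, coeff_cop, coeff_cop]

lemma cop_zero (k : Fin (Module.finrank ℚ K)) : cop k (0 : K⟦X⟧) = 0 := by
  ext n
  rw [coeff_cop, map_zero, map_zero, map_zero]

lemma cop_C_mul (k : Fin (Module.finrank ℚ K)) (c : K) (F : K⟦X⟧) : cop k (C c * F) = ∑ j, co k (c * bK K j) • cop j F := by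
  ext n
  rw [coeff_cop, coeff_C_mul, co_mul, map_sum]
  refine Finset.sum_congr rfl fun j _ => ?_
  rw [coeff_smul, coeff_cop, smul_eq_mul]

lemma cop_C (k : Fin (Module.finrank ℚ K)) (c : K) : cop k (C c : K⟦X⟧) = C (co k c) := by
  ext n
  rw [coeff_cop, coeff_C, coeff_C]
  split_ifs
  · rfl
  · rw [map_zero]

lemma cop_one (k : Fin (Module.finrank ℚ K)) : cop k (1 : K⟦X⟧) = C (co k 1) := by
  rw [← cop_C, map_one]

lemma cop_X_mul (k : Fin (Module.finrank ℚ K)) (F : K⟦X⟧) : cop k (X * F) = X * cop k F := by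
  ext n
  rcases n with _ | n
  · rw [coeff_cop]; simp
  · rw [coeff_cop, coeff_succ_X_mul, coeff_succ_X_mul, coeff_cop]

lemma cop_deriv (k : Fin (Module.finrank ℚ K)) (F : K⟦X⟧) : cop k (d⁄dX K F) = d⁄dX ℚ (cop k F) := by
  ext n
  rw [coeff_cop, coeff_derivative, coeff_derivative, coeff_cop]
  have h : coeff (n + 1) F * ((n : K) + 1) = ((n : ℚ) + 1) • coeff (n + 1) F := by
    rw [Algebra.smul_def, mul_comm]
    congr 1
    push_cast
    simp
  rw [h, map_smul, smul_eq_mul, mul_comm]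

lemma cop_mul (k : Fin (Module.finrank ℚ K)) (F G : K⟦X⟧) :
    cop k (F * G) = ∑ i, ∑ j, co k (bK K i * bK K j) • (cop i F * cop j G) := by
  ext n
  rw [coeff_cop, coeff_mul, map_sum, map_sum]
  simp only [map_sum, coeff_smul, coeff_mul, coeff_cop, Finset.mul_sum, smul_eq_mul]
  have h : ∀ p : ℕ × ℕ, co k (coeff p.1 F * coeff p.2 G) = ∑ i, ∑ j, co k (bK K i * bK K j) * (co i (coeff p.1 F) * co j (coeff p.2 G)) := by
    intro p
    conv_lhs => rw [← sum_co (coeff p.1 F), ← sum_co (coeff p.2 G)]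
    rw [Finset.sum_mul, map_sum]
    refine Finset.sum_congr rfl fun i _ => ?_
    rw [Finset.mul_sum, map_sum]
    refine Finset.sum_congr rfl fun j _ => ?_
    rw [smul_mul_assoc, mul_smul_comm, smul_smul, map_smul, smul_eq_mul]
    ring
  rw [Finset.sum_congr rfl fun p _ => h p, Finset.sum_comm]
  refine Finset.sum_congr rfl fun i _ => ?_
  rw [Finset.sum_comm]

/-- the power series is determined by its coordinates -/
lemma sum_cop (F : K⟦X⟧) : ∑ k, PowerSeries.map (algebraMap ℚ K) (cop k F) * C (bK K k) = F := by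
  ext n
  rw [map_sum]
  conv_rhs => rw [← sum_co (coeff n F)]
  refine Finset.sum_congr rfl fun k _ => ?_
  rw [coeff_mul_C, coeff_map, coeff_cop, Algebra.smul_def]

lemma cop_map_mul (k : Fin (Module.finrank ℚ K)) (f : ℚ⟦X⟧) (F : K⟦X⟧) :
    cop k (PowerSeries.map (algebraMap ℚ K) f * F) = f * cop k F := by
  ext n
  rw [coeff_cop, coeff_mul, coeff_mul, map_sum]
  refine Finset.sum_congr rfl fun p _ => ?_
  rw [coeff_map, ← Algebra.smul_def, map_smul, smul_eq_mul, coeff_cop]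

/-- growth and denominators of the coordinates of powers -/
lemma pow_bounds (β : K) : ∃ (C : ℝ) (D : ℕ), 1 ≤ C ∧ 1 ≤ D ∧ ∀ (k : Fin (Module.finrank ℚ K)) (n : ℕ),
    |((co k (β ^ n) : ℚ) : ℝ)| ≤ C ^ (n + 1) ∧ ∃ a : ℤ, (D : ℚ) ^ (n + 1) * co k (β ^ n) = a := by
  classical
  set C : ℝ := 1 + (∑ k : Fin (Module.finrank ℚ K), |((co k (1 : K) : ℚ) : ℝ)|) +
    ∑ k : Fin (Module.finrank ℚ K), ∑ j, |((co k (β * bK K j) : ℚ) : ℝ)| with hC
  set D : ℕ := (∏ k : Fin (Module.finrank ℚ K), (co k (1 : K)).den) *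
    ∏ k : Fin (Module.finrank ℚ K), ∏ j, (co k (β * bK K j)).den with hD
  have hC1 : 1 ≤ C := by
    have h1 : 0 ≤ ∑ k : Fin (Module.finrank ℚ K), |((co k (1 : K) : ℚ) : ℝ)| := Finset.sum_nonneg fun _ _ => abs_nonneg _
    have h2 : 0 ≤ ∑ k : Fin (Module.finrank ℚ K), ∑ j, |((co k (β * bK K j) : ℚ) : ℝ)| :=
      Finset.sum_nonneg fun _ _ => Finset.sum_nonneg fun _ _ => abs_nonneg _
    rw [hC]; linarith
  have hD1 : 1 ≤ D := Nat.succ_le_of_lt (Nat.mul_pos (Finset.prod_pos fun k _ => (co k (1 : K)).den_pos)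
    (Finset.prod_pos fun k _ => Finset.prod_pos fun j _ => (co k (β * bK K j)).den_pos))
  have hCa : ∀ k : Fin (Module.finrank ℚ K), |((co k (1 : K) : ℚ) : ℝ)| ≤ C := by
    intro k
    have h1 := Finset.single_le_sum (f := fun k : Fin (Module.finrank ℚ K) => |((co k (1 : K) : ℚ) : ℝ)|)
      (fun _ _ => abs_nonneg _) (Finset.mem_univ k)
    have h2 : 0 ≤ ∑ k : Fin (Module.finrank ℚ K), ∑ j, |((co k (β * bK K j) : ℚ) : ℝ)| :=
      Finset.sum_nonneg fun _ _ => Finset.sum_nonneg fun _ _ => abs_nonneg _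
    rw [hC]
    linarith
  have hCb : ∀ k : Fin (Module.finrank ℚ K), ∑ j, |((co k (β * bK K j) : ℚ) : ℝ)| ≤ C := by
    intro k
    have h1 := Finset.single_le_sum (f := fun k : Fin (Module.finrank ℚ K) => ∑ j, |((co k (β * bK K j) : ℚ) : ℝ)|)
      (fun _ _ => Finset.sum_nonneg fun _ _ => abs_nonneg _) (Finset.mem_univ k)
    have h2 : 0 ≤ ∑ k : Fin (Module.finrank ℚ K), |((co k (1 : K) : ℚ) : ℝ)| := Finset.sum_nonneg fun _ _ => abs_nonneg _
    rw [hC]
    linarith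
  have hint : ∀ (x : ℚ) (m : ℕ), x.den ∣ m → ∃ a : ℤ, (m : ℚ) * x = a := by
    rintro x _ ⟨r, rfl⟩
    refine ⟨r * x.num, ?_⟩
    have h2 : (x.den : ℚ) * x = x.num := by
      rw [mul_comm]; exact Rat.mul_den_eq_num x
    push_cast
    rw [← h2]
    ring
  have hDa : ∀ k : Fin (Module.finrank ℚ K), ∃ a : ℤ, (D : ℚ) * co k (1 : K) = a := fun k =>
    hint _ _ ((Finset.dvd_prod_of_mem (fun k : Fin (Module.finrank ℚ K) => (co k (1 : K)).den) (Finset.mem_univ k)).trans
      (Dvd.intro _ rfl))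
  have hDb : ∀ k j : Fin (Module.finrank ℚ K), ∃ a : ℤ, (D : ℚ) * co k (β * bK K j) = a := fun k j =>
    hint _ _ (((Finset.dvd_prod_of_mem (fun j => (co k (β * bK K j)).den) (Finset.mem_univ j)).trans
      (Finset.dvd_prod_of_mem (fun k : Fin (Module.finrank ℚ K) => ∏ j, (co k (β * bK K j)).den) (Finset.mem_univ k))).trans
      (Dvd.intro_left _ rfl))
  refine ⟨C, D, hC1, hD1, fun k n => ?_⟩
  induction n generalizing k with
  | zero =>
    rw [pow_zero, zero_add, pow_one, pow_one]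
    exact ⟨hCa k, hDa k⟩
  | succ n ih =>
    have h1 : co k (β ^ (n + 1)) = ∑ j, co k (β * bK K j) * co j (β ^ n) := by
      rw [pow_succ', co_mul]
    constructor
    · rw [h1]
      push_cast
      refine (Finset.abs_sum_le_sum_abs _ _).trans ?_
      calc ∑ j, |((co k (β * bK K j) : ℚ) : ℝ) * ((co j (β ^ n) : ℚ) : ℝ)|
          ≤ ∑ j, |((co k (β * bK K j) : ℚ) : ℝ)| * C ^ (n + 1) := by
            refine Finset.sum_le_sum fun j _ => ?_
            rw [abs_mul]
            exact mul_le_mul_of_nonneg_left (ih j).1 (abs_nonneg _)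
        _ = (∑ j, |((co k (β * bK K j) : ℚ) : ℝ)|) * C ^ (n + 1) := by rw [Finset.sum_mul]
        _ ≤ C * C ^ (n + 1) := mul_le_mul_of_nonneg_right (hCb k) (by positivity)
        _ = C ^ (n + 1 + 1) := by rw [pow_succ' C (n + 1)]
    · choose a ha using fun j => hDb k j
      choose c hc using fun j => (ih j).2
      refine ⟨∑ j, a j * c j, ?_⟩
      rw [h1, Finset.mul_sum]
      push_cast
      refine Finset.sum_congr rfl fun j _ => ?_
      rw [← ha j, ← hc j]
      ring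

/-- `exp (β X)` over the field -/
noncomputable def eK (β : K) : K⟦X⟧ := PowerSeries.mk fun n => β ^ n / n.factorial

/-- `E_l (α X)` over the field -/
noncomputable def EK (l : ℕ) (α : K) : K⟦X⟧ :=
  PowerSeries.mk fun m => if m = 0 then 0 else -(-α) ^ m / (m.factorial * (m : K) ^ l)

lemma EF_eK (k : Fin (Module.finrank ℚ K)) (β : K) : EF (cop k (eK β)) := by
  obtain ⟨C, D, hC, hD, h⟩ := pow_bounds β
  have h1 := EF_pow_seq' (u := fun n => co k (β ^ n)) hC hD (fun n => (h k n).1) (fun n => (h k n).2)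
  convert h1 using 1
  ext n
  rw [coeff_cop, eK, coeff_mk, coeff_mk]
  have h2 : β ^ n / (n.factorial : K) = ((n.factorial : ℚ)⁻¹) • β ^ n := by
    rw [Algebra.smul_def, div_eq_mul_inv, mul_comm]
    simp
  rw [h2, map_smul, smul_eq_mul, div_eq_mul_inv, mul_comm]

lemma EF_EK (k : Fin (Module.finrank ℚ K)) (l : ℕ) (α : K) : EF (cop k (EK l α)) := by
  obtain ⟨C, D, hC, hD, h⟩ := pow_bounds (-α)
  have h1 := EF_smul (-1) (EF_pow_seq (u := fun n => co k ((-α) ^ n)) hC hD (fun n => (h k n).1) (fun n => (h k n).2) l)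
  convert h1 using 1
  ext n
  rw [coeff_cop, EK, coeff_mk, coeff_smul, coeff_mk]
  split_ifs with hn
  · rw [map_zero, smul_zero]
  · have h2 : -(-α) ^ n / ((n.factorial : K) * (n : K) ^ l) = (-((n.factorial : ℚ) * (n : ℚ) ^ l)⁻¹) • (-α) ^ n := by
      rw [Algebra.smul_def, div_eq_mul_inv]
      simp
      ring
    rw [h2, map_smul, smul_eq_mul, smul_eq_mul, div_eq_mul_inv]
    ring

lemma deriv_eK (β : K) : d⁄dX K (eK β) = C β * eK β := by
  ext n
  rw [coeff_derivative, coeff_C_mul, eK, coeff_mk, coeff_mk, Nat.factorial_succ]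
  have : (n.factorial : K) ≠ 0 := by exact_mod_cast n.factorial_ne_zero
  have h2 : ((n : K) + 1) ≠ 0 := by exact_mod_cast Nat.succ_ne_zero n
  push_cast
  rw [pow_succ]
  field_simp

lemma EK_zero (α : K) : EK 0 α = 1 - eK (-α) := by
  ext n
  rw [map_sub, coeff_one, EK, coeff_mk, eK, coeff_mk]
  split_ifs with h
  · rw [h]; simp
  · rw [pow_zero, mul_one, zero_sub, neg_div]

lemma deriv_EK (l : ℕ) (α : K) : X * d⁄dX K (EK (l + 1) α) = EK l α := by
  ext m
  rcases m with _ | m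
  · simp [EK]
  · rw [coeff_succ_X_mul, coeff_derivative, EK, coeff_mk, EK, coeff_mk, if_neg (Nat.succ_ne_zero m),
      if_neg (Nat.succ_ne_zero m)]
    have : ((m + 1).factorial : K) ≠ 0 := by exact_mod_cast (m + 1).factorial_ne_zero
    have h2 : ((m : K) + 1) ≠ 0 := by exact_mod_cast Nat.succ_ne_zero m
    push_cast
    rw [pow_succ ((m : K) + 1)]
    field_simp

lemma map_eK (σ : K →+* ℂ) (β : K) : PowerSeries.map σ (eK β) = eX (σ β) := by
  ext n
  rw [coeff_map, eK, coeff_mk, coeff_eX, map_div₀, map_pow, map_natCast]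

lemma map_EK (σ : K →+* ℂ) (l : ℕ) (α : K) : PowerSeries.map σ (EK l α) = EC l (σ α) := by
  ext n
  rw [coeff_map, EK, coeff_mk, EC, coeff_mk]
  split_ifs with h
  · rw [map_zero]
  · simp

end Pool.Agent.W5h35.GA
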