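import Pool.Agent.W5h35.GA.NF

/-!
# The theorem of Siegel and Shidlovskii for the functions `exp (β X)`, `E_l (α X)` over a number field
-/

set_option autoImplicit false

open PowerSeries

namespace Pool.Agent.W5h35.GA

open Pool.Agent.Y113 Pool.Agent.R352.E

variable {K : Type} [Field K] [NumberField K]

lemma co_conj : ∃ e : Fin (Module.finrank ℚ K) → K, ∀ (k : Fin (Module.finrank ℚ K)) (x : K),
    ((co k x : ℚ) : ℂ) = ∑ σ : K →ₐ[ℚ] ℂ, σ (e k) * σ x := by
  classical
  refine ⟨(Algebra.traceForm ℚ K).dualBasis (traceForm_nondegenerate ℚ K) (bK K), fun k x => ?_⟩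
  have h1 : co k x = Algebra.trace ℚ K ((Algebra.traceForm ℚ K).dualBasis (traceForm_nondegenerate ℚ K) (bK K) k * x) := by
    rw [← Algebra.traceForm_apply]
    conv_rhs => rw [← sum_co x]
    rw [map_sum]
    have h2 : ∀ j, (Algebra.traceForm ℚ K) ((Algebra.traceForm ℚ K).dualBasis (traceForm_nondegenerate ℚ K) (bK K) k)
        (co j x • bK K j) = if j = k then co j x else 0 := by
      intro j
      rw [map_smul, LinearMap.BilinForm.apply_dualBasis_left, smul_eq_mul]
      split_ifs <;> simp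
    rw [Finset.sum_congr rfl fun j _ => h2 j, Finset.sum_ite_eq', if_pos (Finset.mem_univ k)]
  rw [h1]
  have h3 := trace_eq_sum_embeddings (K := ℚ) (L := K) ℂ
    (x := (Algebra.traceForm ℚ K).dualBasis (traceForm_nondegenerate ℚ K) (bK K) k * x)
  have h4 : algebraMap ℚ ℂ (Algebra.trace ℚ K ((Algebra.traceForm ℚ K).dualBasis (traceForm_nondegenerate ℚ K) (bK K) k * x)) =
      (((Algebra.trace ℚ K ((Algebra.traceForm ℚ K).dualBasis (traceForm_nondegenerate ℚ K) (bK K) k * x) : ℚ)) : ℂ) := rfl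
  rw [← h4, h3]
  refine Finset.sum_congr rfl fun σ _ => ?_
  rw [map_mul]

/-- the inclusion of the power series with rational coefficients -/
noncomputable abbrev mQ : ℚ⟦X⟧ →+* ℂ⟦X⟧ := PowerSeries.map (algebraMap ℚ ℂ)

lemma mQ_inj : Function.Injective mQ := PowerSeries.map_injective _ (algebraMap ℚ ℂ).injective

lemma map_cop : ∃ e : Fin (Module.finrank ℚ K) → K, ∀ (k : Fin (Module.finrank ℚ K)) (F : K⟦X⟧),
    mQ (cop k F) = ∑ σ : K →ₐ[ℚ] ℂ, C (σ (e k)) * PowerSeries.map (σ : K →+* ℂ) F := by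
  obtain ⟨e, he⟩ := co_conj (K := K)
  refine ⟨e, fun k F => ?_⟩
  ext n
  rw [coeff_map, coeff_cop, map_sum]
  refine (he k _).trans (Finset.sum_congr rfl fun σ _ => ?_)
  rw [coeff_C_mul, coeff_map]
  rfl

section Family

variable (S A : Finset K) (J : ℕ)

/-- the index set of the functions -/
abbrev Tau (S A : Finset K) (J : ℕ) : Type := Fin (Module.finrank ℚ K) × (S ⊕ (Fin J × A))

/-- the functions over the field -/
noncomputable def gK : S ⊕ (Fin J × A) → K⟦X⟧
  | .inl β => eK β.1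
  | .inr p => EK (p.1 + 1) p.2.1

/-- their coordinates -/
noncomputable def gQ (t : Tau S A J) : ℚ⟦X⟧ := cop t.1 (gK S A J t.2)

lemma X_PS {U : Submodule ℚ ℚ⟦X⟧} {x : ℚ⟦X⟧} (hx : x ∈ PS U) : X * x ∈ PS U := by
  have h : (X : ℚ⟦X⟧) * x = (Polynomial.X : Polynomial ℚ) • x := by
    rw [Algebra.smul_def]
    congr 1
    show _ = ((Polynomial.X : Polynomial ℚ) : ℚ⟦X⟧)
    rw [Polynomial.coe_X]
  rw [h]
  exact Submodule.smul_mem _ _ hx

lemma EF_gQ (t : Tau S A J) : EF (gQ S A J t) := by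
  obtain ⟨k, β | p⟩ := t
  · exact EF_eK k β.1
  · exact EF_EK k _ _

lemma der_gQ (hA : ∀ α ∈ A, -α ∈ S) (t : Tau S A J) : X * d⁄dX ℚ (gQ S A J t) ∈ PS (V (gQ S A J)) := by
  have hmem : ∀ t, gQ S A J t ∈ V (gQ S A J) := fun t => Submodule.subset_span (Set.mem_insert_of_mem _ ⟨t, rfl⟩)
  obtain ⟨k, β | ⟨l, α⟩⟩ := t
  · apply X_PS
    apply le_PS
    have h1 : d⁄dX ℚ (gQ S A J (k, .inl β)) = ∑ j, co k (β.1 * bK K j) • gQ S A J (j, .inl β) := by
      rw [gQ, ← cop_deriv]
      show cop k (d⁄dX K (eK β.1)) = _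
      rw [deriv_eK, cop_C_mul]
      rfl
    rw [h1]
    exact Submodule.sum_mem _ fun j _ => Submodule.smul_mem _ _ (hmem _)
  · apply le_PS
    have h1 : X * d⁄dX ℚ (gQ S A J (k, .inr (l, α))) = cop k (EK l α.1) := by
      rw [gQ, ← cop_deriv, ← cop_X_mul]
      show cop k (X * d⁄dX K (EK (l + 1) α.1)) = _
      rw [deriv_EK]
    rw [h1]
    obtain ⟨l, hl⟩ := l
    rcases l with _ | l
    · show cop k (EK 0 α.1) ∈ _
      rw [EK_zero, cop_sub, cop_one]
      refine Submodule.sub_mem _ ?_ (hmem (k, .inl ⟨-α.1, hA _ α.2⟩))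
      have : (C (co k (1 : K)) : ℚ⟦X⟧) = co k (1 : K) • 1 := by
        rw [smul_eq_C_mul, mul_one]
      rw [this]
      exact Submodule.smul_mem _ _ (one_mem_V _)
    · exact hmem (k, .inr (⟨l, by omega⟩, α))

/-- the conjugates of the arguments -/
noncomputable def Aσ : Finset ℂ := by
  classical
  exact (Finset.univ : Finset (K →ₐ[ℚ] ℂ)).biUnion fun σ => A.image σ

lemma mem_Aσ (σ : K →ₐ[ℚ] ℂ) {α : K} (hα : α ∈ A) : σ α ∈ Aσ A := by
  classical
  rw [Aσ, Finset.mem_biUnion]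
  exact ⟨σ, Finset.mem_univ _, Finset.mem_image_of_mem _ hα⟩

lemma Aσ_ne (h0 : (0 : K) ∉ A) (x : Aσ A) : (x : ℂ) ≠ 0 := by
  classical
  obtain ⟨x, hx⟩ := x
  rw [Aσ, Finset.mem_biUnion] at hx
  obtain ⟨σ, _, hx⟩ := hx
  obtain ⟨α, hα, rfl⟩ := Finset.mem_image.1 hx
  intro h
  apply h0
  have h' : σ α = 0 := h
  rw [(map_eq_zero σ).1 h'] at hα
  exact hα

/-- the ring generated by all conjugate functions -/
noncomputable def RC : Subalgebra B ℂ⟦X⟧ := Algebra.adjoin B (Set.range fun p : Fin J × Aσ A => EC (p.1 + 1) (p.2 : ℂ))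

lemma B_le_RC {f : ℂ⟦X⟧} (hf : f ∈ B) : f ∈ RC A J := (RC A J).algebraMap_mem (⟨f, hf⟩ : B)

lemma mQ_mem (G : ℚ⟦X⟧) (hG : G ∈ Algebra.adjoin ℚ (Set.range (gQ S A J))) : mQ G ∈ RC A J := by
  induction hG using Algebra.adjoin_induction with
  | mem x hx =>
    obtain ⟨⟨k, t⟩, rfl⟩ := hx
    obtain ⟨e, he⟩ := map_cop (K := K)
    rw [gQ, he k]
    refine Subalgebra.sum_mem _ fun σ _ => Subalgebra.mul_mem _ (B_le_RC A J (B.algebraMap_mem _)) ?_
    rcases t with β | ⟨l, α⟩
    · show PowerSeries.map (σ : K →+* ℂ) (eK β.1) ∈ _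
      rw [map_eK]
      exact B_le_RC A J (eX_mem _)
    · show PowerSeries.map (σ : K →+* ℂ) (EK (l + 1) α.1) ∈ _
      rw [map_EK]
      exact Algebra.subset_adjoin ⟨(l, ⟨σ α.1, mem_Aσ A σ α.2⟩), rfl⟩
  | algebraMap r =>
    have : mQ (algebraMap ℚ ℚ⟦X⟧ r) = C (r : ℂ) := by
      rw [PowerSeries.algebraMap_apply, mQ, PowerSeries.map_C]
      rfl
    rw [this]
    exact B_le_RC A J (B.algebraMap_mem _)
  | add x y _ _ hx hy => rw [map_add]; exact Subalgebra.add_mem _ hx hy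
  | mul x y _ _ hx hy => rw [map_mul]; exact Subalgebra.mul_mem _ hx hy

lemma X_tr_Q (h0 : (0 : K) ∉ A) : Transcendental (Algebra.adjoin ℚ (Set.range (gQ S A J))) (X : ℚ⟦X⟧) := by
  have h1 : Transcendental (RC A J) (X : ℂ⟦X⟧) := X_tr_all (ι := Aσ A) (α := fun x => (x : ℂ)) Subtype.val_injective (Aσ_ne A h0) J
  rw [transcendental_iff] at h1 ⊢
  intro p hp
  let ψ : Algebra.adjoin ℚ (Set.range (gQ S A J)) →+* RC A J :=
    (mQ.comp (Algebra.adjoin ℚ (Set.range (gQ S A J))).subtype).codRestrict (RC A J) (fun x => mQ_mem S A J x.1 x.2)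
  have hψ : Function.Injective ψ := fun x y h => Subtype.ext (mQ_inj (congrArg Subtype.val h))
  have h2 := h1 (p.map ψ) (by
    rw [Polynomial.aeval_def, Polynomial.eval₂_map]
    have h3 := congrArg mQ hp
    rw [map_zero, Polynomial.aeval_def, Polynomial.hom_eval₂, PowerSeries.map_X] at h3
    exact h3)
  exact (Polynomial.map_eq_zero_iff hψ).1 h2

theorem ss_Q (hA : ∀ α ∈ A, -α ∈ S) (h0 : (0 : K) ∉ A) {G : ℚ⟦X⟧} (hG : G ∈ Algebra.adjoin ℚ (Set.range (gQ S A J)))
    (h : ev 1 G = 0) : G = 0 :=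
  ss (gQ S A J) (EF_gQ S A J) (der_gQ S A J hA) (X_tr_Q S A J h0) hG h

/-- the value at 1 of a power series with complex coefficients -/
noncomputable def evC (f : ℂ⟦X⟧) : ℂ := ∑' n, coeff n f

lemma cop_mem (k : Fin (Module.finrank ℚ K)) (F : K⟦X⟧) (hF : F ∈ Algebra.adjoin K (Set.range (gK S A J))) :
    cop k F ∈ Algebra.adjoin ℚ (Set.range (gQ S A J)) := by
  induction hF using Algebra.adjoin_induction generalizing k with
  | mem x hx =>
    obtain ⟨t, rfl⟩ := hx
    exact Algebra.subset_adjoin ⟨(k, t), rfl⟩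
  | algebraMap r =>
    have : cop k (algebraMap K K⟦X⟧ r) = algebraMap ℚ ℚ⟦X⟧ (co k r) := by
      rw [PowerSeries.algebraMap_apply, PowerSeries.algebraMap_apply]
      exact cop_C k r
    rw [this]
    exact Subalgebra.algebraMap_mem _ _
  | add x y _ _ hx hy => rw [cop_add]; exact add_mem (hx k) (hy k)
  | mul x y _ _ hx hy =>
    rw [cop_mul]
    exact sum_mem fun i _ => sum_mem fun j _ => Subalgebra.smul_mem _ (mul_mem (hx i) (hy j)) _

lemma EF_adj (G : ℚ⟦X⟧) (hG : G ∈ Algebra.adjoin ℚ (Set.range (gQ S A J))) : EF G := by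
  have h : Algebra.adjoin ℚ (Set.range (gQ S A J)) ≤ EFa := by
    rw [Algebra.adjoin_le_iff]
    rintro _ ⟨t, rfl⟩
    exact EF_gQ S A J t
  exact h hG

end Family

lemma hasSum_evC (σ : K →+* ℂ) (H : K⟦X⟧) (hH : ∀ k, EF (cop k H)) :
    HasSum (fun n => coeff n (PowerSeries.map σ H)) (∑ k, σ (bK K k) * ((ev 1 (cop k H) : ℝ) : ℂ)) := by
  have h1 : ∀ k, HasSum (fun n => σ (bK K k) * ((((coeff n (cop k H) : ℚ) : ℝ) : ℂ))) (σ (bK K k) * ((ev 1 (cop k H) : ℝ) : ℂ)) := by
    intro k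
    have h2 : HasSum (fun n => (((coeff n (cop k H) : ℚ) : ℝ))) (ev 1 (cop k H)) := by
      have h3 := (Cv.summable one_pos (hH k).cv).hasSum
      simp only [div_one, one_pow, mul_one] at h3
      have h4 : ev 1 (cop k H) = ∑' n, (((coeff n (cop k H) : ℚ) : ℝ)) := by
        rw [ev]
        simp
      rw [h4]
      exact h3
    exact (Complex.hasSum_ofReal.2 h2).mul_left _
  have h2 := hasSum_sum (s := Finset.univ) (fun k _ => h1 k)
  convert h2 using 1
  funext n
  rw [coeff_map]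
  conv_lhs => rw [← sum_co (coeff n H)]
  rw [map_sum]
  refine Finset.sum_congr rfl fun k _ => ?_
  rw [coeff_cop, Algebra.smul_def, map_mul, mul_comm]
  congr 1
  have : σ (algebraMap ℚ K (co k (coeff n H))) = ((co k (coeff n H) : ℚ) : ℂ) := by simp
  rw [this]
  push_cast
  rfl

/-- **The theorem of Siegel and Shidlovskii over a number field.** -/
theorem ss_K (S A : Finset K) (J : ℕ) (hA : ∀ α ∈ A, -α ∈ S) (h0 : (0 : K) ∉ A) (σ : K →+* ℂ) {F : K⟦X⟧}
    (hF : F ∈ Algebra.adjoin K (Set.range (gK S A J))) (h : evC (PowerSeries.map σ F) = 0) : F = 0 := by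
  classical
  set M : Matrix (Fin (Module.finrank ℚ K)) (Fin (Module.finrank ℚ K)) ℚ⟦X⟧ := fun k j => cop k (F * C (bK K j)) with hM
  have hFb : ∀ j, F * C (bK K j) ∈ Algebra.adjoin K (Set.range (gK S A J)) := fun j =>
    mul_mem hF (Subalgebra.algebraMap_mem _ _)
  have hMm : ∀ k j, M k j ∈ Algebra.adjoin ℚ (Set.range (gQ S A J)) := fun k j => cop_mem S A J k _ (hFb j)
  have hME : ∀ k j, EF (M k j) := fun k j => EF_adj S A J _ (hMm k j)
  set M' : Matrix (Fin (Module.finrank ℚ K)) (Fin (Module.finrank ℚ K)) EFa := fun k j => ⟨M k j, hME k j⟩ with hM'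
  have hdet1 : M.det = ((M'.det : EFa) : ℚ⟦X⟧) := by
    have h1 := (EFa.subtype : EFa →+* ℚ⟦X⟧).map_det M'
    rw [show ((M'.det : EFa) : ℚ⟦X⟧) = (EFa.subtype : EFa →+* ℚ⟦X⟧) M'.det from rfl, h1]
    rfl
  -- the value of the determinant
  set v : Fin (Module.finrank ℚ K) → ℂ := fun k => σ (bK K k) with hv
  set ρ : EFa →+* ℂ := Complex.ofRealHom.comp evh with hρ
  have hvM : Matrix.vecMul v (ρ.mapMatrix M') = 0 := by
    funext j
    have h1 := (hasSum_evC σ (F * C (bK K j)) (fun k => hME k j)).tsum_eq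
    have h2 : (∑' n, coeff n (PowerSeries.map σ (F * C (bK K j)))) = 0 := by
      rw [map_mul, PowerSeries.map_C]
      simp only [coeff_mul_C]
      rw [tsum_mul_right]
      rw [evC] at h
      rw [h, zero_mul]
    rw [h2] at h1
    exact h1.symm
  have hv0 : v ≠ 0 := by
    intro h1
    have hpos : 0 < Module.finrank ℚ K := Module.finrank_pos
    have h2 := congrFun h1 ⟨0, hpos⟩
    exact (bK K).ne_zero _ ((map_eq_zero σ).1 h2)
  have hdet2 : (ρ.mapMatrix M').det = 0 := Matrix.exists_vecMul_eq_zero_iff.1 ⟨v, hv0, hvM⟩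
  rw [← RingHom.map_det] at hdet2
  have hdet3 : ev 1 M.det = 0 := by
    rw [hdet1]
    exact Complex.ofReal_eq_zero.1 hdet2
  have hdm : M.det ∈ Algebra.adjoin ℚ (Set.range (gQ S A J)) := by
    rw [Matrix.det_apply]
    exact sum_mem fun τ _ => by
      rw [Units.smul_def, zsmul_eq_mul]
      exact mul_mem (intCast_mem _ _) (prod_mem fun i _ => hMm _ _)
  have hdet : M.det = 0 := ss_Q S A J hA h0 hdm hdet3
  -- a dependence
  obtain ⟨w, hw0, hw⟩ := Matrix.exists_mulVec_eq_zero_iff.2 hdet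
  set H : K⟦X⟧ := ∑ j, PowerSeries.map (algebraMap ℚ K) (w j) * C (bK K j) with hH
  have hcopH : ∀ k, cop k H = w k := by
    intro k
    have h1 : ∀ j, cop k (PowerSeries.map (algebraMap ℚ K) (w j) * C (bK K j)) = if j = k then w j else 0 := by
      intro j
      rw [cop_map_mul, cop_C]
      have h2 : co k (bK K j) = if j = k then 1 else 0 := by
        rw [Module.Basis.coord_apply, Module.Basis.repr_self, Finsupp.single_apply]
      rw [h2]
      split_ifs
      · rw [map_one, mul_one]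
      · rw [map_zero, mul_zero]
    have h2 : cop k H = ∑ j, cop k (PowerSeries.map (algebraMap ℚ K) (w j) * C (bK K j)) := by
      rw [hH]
      ext n
      rw [coeff_cop, map_sum, map_sum, map_sum]
      exact Finset.sum_congr rfl fun j _ => (coeff_cop _ _ _).symm
    rw [h2, Finset.sum_congr rfl fun j _ => h1 j, Finset.sum_ite_eq', if_pos (Finset.mem_univ k)]
  have hH0 : H ≠ 0 := by
    intro h1
    apply hw0
    funext k
    rw [← hcopH k, h1, cop_zero]
    rfl
  have hFH : F * H = 0 := by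
    rw [← sum_cop (F * H)]
    have h1 : ∀ k, cop k (F * H) = 0 := by
      intro k
      have h2 : F * H = ∑ j, PowerSeries.map (algebraMap ℚ K) (w j) * (F * C (bK K j)) := by
        rw [hH, Finset.mul_sum]
        exact Finset.sum_congr rfl fun j _ => by ring
      have h3 : cop k (F * H) = ∑ j, cop k (PowerSeries.map (algebraMap ℚ K) (w j) * (F * C (bK K j))) := by
        rw [h2]
        ext n
        rw [coeff_cop, map_sum, map_sum, map_sum]
        exact Finset.sum_congr rfl fun j _ => (coeff_cop _ _ _).symm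
      rw [h3]
      have h4 := congrFun hw k
      rw [Matrix.mulVec, dotProduct] at h4
      rw [Pi.zero_apply] at h4
      rw [← h4]
      refine Finset.sum_congr rfl fun j _ => ?_
      rw [cop_map_mul, mul_comm]
    refine Finset.sum_eq_zero fun k _ => ?_
    rw [h1 k, map_zero, zero_mul]
  rcases mul_eq_zero.1 hFH with h1 | h1
  · exact h1
  · exact absurd h1 hH0

end Pool.Agent.W5h35.GA
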