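import Pool.Agent.W5h35.GA.NF2

/-!
# Algebraic independence of the numbers `E_l (α)` over the field generated by the exponentials
-/

set_option autoImplicit false

open PowerSeries

namespace Pool.Agent.W5h35.GA

/-! ## values at 1 -/

/-- the power series absolutely convergent at 1 -/
noncomputable def Cc : Subalgebra ℂ ℂ⟦X⟧ where
  carrier := {f | Summable fun n => ‖coeff n f‖}
  mul_mem' := by
    intro f g hf hg
    have h1 := summable_norm_sum_mul_antidiagonal_of_summable_norm hf hg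
    refine h1.congr fun n => ?_
    rw [coeff_mul]
  add_mem' := by
    intro f g hf hg
    refine Summable.of_nonneg_of_le (fun n => norm_nonneg _) (fun n => ?_) (Summable.add hf hg)
    rw [map_add]
    exact norm_add_le _ _
  algebraMap_mem' := by
    intro r
    show Summable fun n => ‖coeff n (algebraMap ℂ ℂ⟦X⟧ r)‖
    refine summable_of_ne_finset_zero (s := {0}) fun n hn => ?_
    rw [Finset.mem_singleton] at hn
    rw [PowerSeries.algebraMap_apply, coeff_C, if_neg hn, norm_zero]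

lemma mem_Cc {f : ℂ⟦X⟧} : f ∈ Cc ↔ Summable fun n => ‖coeff n f‖ := Iff.rfl

/-- the value at 1 as a homomorphism -/
noncomputable def evCh : Cc →+* ℂ where
  toFun f := evC f.1
  map_one' := by
    show ∑' n, coeff n (1 : ℂ⟦X⟧) = 1
    rw [tsum_eq_single 0]
    · simp
    · intro n hn
      rw [coeff_one, if_neg hn]
  map_zero' := by
    show ∑' n, coeff n (0 : ℂ⟦X⟧) = 0
    simp
  map_mul' f g := by
    show ∑' n, coeff n (f.1 * g.1) = (∑' n, coeff n f.1) * ∑' n, coeff n g.1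
    rw [tsum_mul_tsum_eq_tsum_sum_antidiagonal_of_summable_norm f.2 g.2]
    exact tsum_congr fun n => coeff_mul _ _ _
  map_add' f g := by
    show ∑' n, coeff n (f.1 + g.1) = (∑' n, coeff n f.1) + ∑' n, coeff n g.1
    have h1 : Summable fun n => coeff n f.1 := Summable.of_norm f.2
    have h2 : Summable fun n => coeff n g.1 := Summable.of_norm g.2
    rw [← h1.tsum_add h2]
    exact tsum_congr fun n => map_add _ _ _

lemma eX_Cc (β : ℂ) : eX β ∈ Cc := by
  rw [mem_Cc]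
  refine (Real.summable_pow_div_factorial ‖β‖).congr fun n => ?_
  rw [coeff_eX, norm_div, norm_pow, Complex.norm_natCast]

lemma EC_Cc (l : ℕ) (α : ℂ) : EC l α ∈ Cc := by
  rw [mem_Cc]
  refine Summable.of_nonneg_of_le (fun n => norm_nonneg _) (fun n => ?_) (Real.summable_pow_div_factorial ‖α‖)
  rw [EC, coeff_mk]
  split_ifs with h
  · rw [norm_zero]; positivity
  · rw [norm_div, norm_neg, norm_pow, norm_neg, norm_mul, norm_pow, Complex.norm_natCast, Complex.norm_natCast]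
    have h1 : (1 : ℝ) ≤ (n : ℝ) ^ l := one_le_pow₀ (by exact_mod_cast Nat.pos_of_ne_zero h)
    have h2 : (0 : ℝ) < n.factorial := by positivity
    exact div_le_div_of_nonneg_left (by positivity) h2 (le_mul_of_one_le_right h2.le h1)

lemma evC_eX (β : ℂ) : evC (eX β) = Complex.exp β := by
  rw [evC, Complex.exp_eq_exp_ℂ, NormedSpace.exp_eq_tsum_div]
  exact tsum_congr fun n => coeff_eX β n

/-- the number `E_l (α) = ∑_{m ≥ 1} (-1)^(m-1) α^m / (m! m^l)` -/
noncomputable def Ec (l : ℕ) (α : ℂ) : ℂ := evC (EC l α)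

/-! ## the algebra of functions -/

/-- the functions `exp (β X)`, `β` algebraic -/
def SB : Set ℂ⟦X⟧ := {f | ∃ β : ℂ, IsAlgebraic ℚ β ∧ f = eX β}

/-- the functions `E_l (α X)`, `l ≥ 1`, `α ≠ 0` algebraic -/
def SE : Set ℂ⟦X⟧ := {f | ∃ (l : ℕ) (α : ℂ), IsAlgebraic ℚ α ∧ α ≠ 0 ∧ f = EC (l + 1) α}

/-- the algebra generated by all -/
noncomputable def Af : Subalgebra ℚ ℂ⟦X⟧ := Algebra.adjoin ℚ (SB ∪ SE)

/-- the algebra generated by the exponentials -/
noncomputable def Bf : Subalgebra ℚ ℂ⟦X⟧ := Algebra.adjoin ℚ SB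

/-- the functions over a number field -/
noncomputable def GK (K : Type) [Field K] [NumberField K] : Subalgebra K K⟦X⟧ :=
  Algebra.adjoin K ({F | ∃ β : K, F = eK β} ∪ {F | ∃ (l : ℕ) (α : K), α ≠ 0 ∧ F = EK (l + 1) α})

lemma gK_mono {K : Type} [Field K] [NumberField K] {S S' A A' : Finset K} {J J' : ℕ} (hS : S ⊆ S') (hA : A ⊆ A') (hJ : J ≤ J') :
    Algebra.adjoin K (Set.range (gK S A J)) ≤ Algebra.adjoin K (Set.range (gK S' A' J')) := by
  apply Algebra.adjoin_mono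
  rintro _ ⟨t, rfl⟩
  rcases t with β | ⟨l, α⟩
  · exact ⟨.inl ⟨β.1, hS β.2⟩, rfl⟩
  · exact ⟨.inr (⟨l.1, by omega⟩, ⟨α.1, hA α.2⟩), rfl⟩

lemma GK_fin {K : Type} [Field K] [NumberField K] (F : K⟦X⟧) (hF : F ∈ GK K) : ∃ (S A : Finset K) (J : ℕ), (0 : K) ∉ A ∧
    F ∈ Algebra.adjoin K (Set.range (gK S A J)) := by
  classical
  induction hF using Algebra.adjoin_induction with
  | mem x hx =>
    rcases hx with ⟨β, rfl⟩ | ⟨l, α, hα, rfl⟩
    · refine ⟨{β}, ∅, 0, Finset.notMem_empty _, Algebra.subset_adjoin ⟨.inl ⟨β, Finset.mem_singleton_self β⟩, rfl⟩⟩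
    · refine ⟨∅, {α}, l + 1, ?_, Algebra.subset_adjoin ⟨.inr (⟨l, by omega⟩, ⟨α, Finset.mem_singleton_self α⟩), rfl⟩⟩
      rw [Finset.mem_singleton]
      exact fun h => hα h.symm
  | algebraMap r => exact ⟨∅, ∅, 0, Finset.notMem_empty _, Subalgebra.algebraMap_mem _ _⟩
  | add x y _ _ hx hy =>
    obtain ⟨S1, A1, J1, h1, hx⟩ := hx
    obtain ⟨S2, A2, J2, h2, hy⟩ := hy
    refine ⟨S1 ∪ S2, A1 ∪ A2, max J1 J2, ?_, add_mem ?_ ?_⟩
    · rw [Finset.mem_union]; tauto
    · exact gK_mono Finset.subset_union_left Finset.subset_union_left (le_max_left _ _) hx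
    · exact gK_mono Finset.subset_union_right Finset.subset_union_right (le_max_right _ _) hy
  | mul x y _ _ hx hy =>
    obtain ⟨S1, A1, J1, h1, hx⟩ := hx
    obtain ⟨S2, A2, J2, h2, hy⟩ := hy
    refine ⟨S1 ∪ S2, A1 ∪ A2, max J1 J2, ?_, mul_mem ?_ ?_⟩
    · rw [Finset.mem_union]; tauto
    · exact gK_mono Finset.subset_union_left Finset.subset_union_left (le_max_left _ _) hx
    · exact gK_mono Finset.subset_union_right Finset.subset_union_right (le_max_right _ _) hy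

theorem ss_GK {K : Type} [Field K] [NumberField K] (σ : K →+* ℂ) {F : K⟦X⟧} (hF : F ∈ GK K)
    (h : evC (PowerSeries.map σ F) = 0) : F = 0 := by
  classical
  obtain ⟨S, A, J, h0, hF'⟩ := GK_fin F hF
  have h1 := gK_mono (S' := S ∪ A.image (fun x => -x)) (A' := A) (J' := J) Finset.subset_union_left
    (Finset.Subset.refl A) le_rfl hF'
  exact ss_K _ A J (fun α hα => Finset.mem_union_right _ (Finset.mem_image_of_mem _ hα)) h0 σ h1 h

lemma Af_lift (f : ℂ⟦X⟧) (hf : f ∈ Af) : ∃ Z : Set ℂ, Z.Finite ∧ (∀ z ∈ Z, IsAlgebraic ℚ z) ∧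
    ∀ (K : IntermediateField ℚ ℂ) [NumberField K], Z ⊆ K → ∃ F ∈ GK K, PowerSeries.map (algebraMap K ℂ) F = f := by
  induction hf using Algebra.adjoin_induction with
  | mem x hx =>
    rcases hx with ⟨β, hβ, rfl⟩ | ⟨l, α, hα, hα0, rfl⟩
    · refine ⟨{β}, Set.finite_singleton β, fun z hz => by rw [Set.mem_singleton_iff.1 hz]; exact hβ, fun K _ hK => ?_⟩
      refine ⟨eK (⟨β, hK rfl⟩ : K), Algebra.subset_adjoin (Or.inl ⟨_, rfl⟩), ?_⟩
      rw [map_eK]
      rfl
    · refine ⟨{α}, Set.finite_singleton α, fun z hz => by rw [Set.mem_singleton_iff.1 hz]; exact hα, fun K _ hK => ?_⟩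
      refine ⟨EK (l + 1) (⟨α, hK rfl⟩ : K), Algebra.subset_adjoin (Or.inr ⟨l, ⟨α, hK rfl⟩, ?_, rfl⟩), ?_⟩
      · intro h
        exact hα0 (congrArg Subtype.val h)
      · rw [map_EK]
        rfl
  | algebraMap r =>
    refine ⟨∅, Set.finite_empty, fun z hz => absurd hz (Set.notMem_empty z), fun K _ _ => ?_⟩
    refine ⟨algebraMap K K⟦X⟧ (r : K), Subalgebra.algebraMap_mem _ _, ?_⟩
    rw [PowerSeries.algebraMap_apply, PowerSeries.map_C, PowerSeries.algebraMap_apply]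
    congr 1
  | add x y _ _ hx hy =>
    obtain ⟨Z1, h1, h2, h3⟩ := hx
    obtain ⟨Z2, h4, h5, h6⟩ := hy
    refine ⟨Z1 ∪ Z2, h1.union h4, fun z hz => hz.elim (h2 z) (h5 z), fun K _ hK => ?_⟩
    obtain ⟨F, hF, rfl⟩ := h3 K (Set.subset_union_left.trans hK)
    obtain ⟨G, hG, rfl⟩ := h6 K (Set.subset_union_right.trans hK)
    exact ⟨F + G, add_mem hF hG, map_add _ _ _⟩
  | mul x y _ _ hx hy =>
    obtain ⟨Z1, h1, h2, h3⟩ := hx
    obtain ⟨Z2, h4, h5, h6⟩ := hy
    refine ⟨Z1 ∪ Z2, h1.union h4, fun z hz => hz.elim (h2 z) (h5 z), fun K _ hK => ?_⟩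
    obtain ⟨F, hF, rfl⟩ := h3 K (Set.subset_union_left.trans hK)
    obtain ⟨G, hG, rfl⟩ := h6 K (Set.subset_union_right.trans hK)
    exact ⟨F * G, mul_mem hF hG, map_mul _ _ _⟩

/-- a function of the algebra vanishing at 1 is zero -/
theorem Af_inj {f : ℂ⟦X⟧} (hf : f ∈ Af) (h : evC f = 0) : f = 0 := by
  obtain ⟨Z, h1, h2, h3⟩ := Af_lift f hf
  let K := IntermediateField.adjoin ℚ Z
  haveI : Finite Z := h1
  haveI : FiniteDimensional ℚ K := IntermediateField.finiteDimensional_adjoin (fun z hz => (h2 z hz).isIntegral)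
  haveI : NumberField K := { to_charZero := inferInstance, to_finiteDimensional := inferInstance }
  obtain ⟨F, hF, rfl⟩ := h3 K (IntermediateField.subset_adjoin ℚ Z)
  rw [ss_GK (algebraMap K ℂ) hF h, map_zero]

lemma Af_Cc {f : ℂ⟦X⟧} (hf : f ∈ Af) : f ∈ Cc := by
  induction hf using Algebra.adjoin_induction with
  | mem x hx =>
    rcases hx with ⟨β, hβ, rfl⟩ | ⟨l, α, hα, hα0, rfl⟩
    · exact eX_Cc β
    · exact EC_Cc _ α
  | algebraMap r =>
    rw [PowerSeries.algebraMap_apply]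
    exact Cc.algebraMap_mem _
  | add x y _ _ hx hy => exact add_mem hx hy
  | mul x y _ _ hx hy => exact mul_mem hx hy

/-- the value at 1 on the algebra -/
noncomputable def evA : Af →+* ℂ where
  toFun f := evC f.1
  map_one' := evCh.map_one
  map_zero' := evCh.map_zero
  map_mul' f g := evCh.map_mul ⟨f.1, Af_Cc f.2⟩ ⟨g.1, Af_Cc g.2⟩
  map_add' f g := evCh.map_add ⟨f.1, Af_Cc f.2⟩ ⟨g.1, Af_Cc g.2⟩

lemma evA_inj : Function.Injective evA := by
  rw [injective_iff_map_eq_zero]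
  intro f hf
  exact Subtype.ext (Af_inj f.2 hf)

lemma Bf_le_Af : Bf ≤ Af := Algebra.adjoin_mono Set.subset_union_left

/-- pairs -/
abbrev Ix : Type := {p : ℕ × ℂ // IsAlgebraic ℚ p.2 ∧ p.2 ≠ 0}

/-- the functions as elements of the algebra -/
noncomputable def xf (i : Ix) : Af := ⟨EC (i.1.1 + 1) i.1.2, Algebra.subset_adjoin (Or.inr ⟨_, _, i.2.1, i.2.2, rfl⟩)⟩

lemma Bf_A0 {f : ℂ⟦X⟧} (hf : f ∈ Bf) : f ∈ A0 := by
  apply B_le_A0
  induction hf using Algebra.adjoin_induction with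
  | mem x hx =>
    obtain ⟨β, _, rfl⟩ := hx
    exact eX_mem β
  | algebraMap r =>
    have h : algebraMap ℚ ℂ⟦X⟧ r = algebraMap ℂ ℂ⟦X⟧ (r : ℂ) := by
      rw [PowerSeries.algebraMap_apply, PowerSeries.algebraMap_apply]
      rfl
    rw [h]
    exact B.algebraMap_mem _
  | add x y _ _ hx hy => exact add_mem hx hy
  | mul x y _ _ hx hy => exact mul_mem hx hy

noncomputable instance instAlgBA : Algebra Bf Af := (Subalgebra.inclusion Bf_le_Af).toRingHom.toAlgebra

theorem xf_alg : AlgebraicIndependent Bf xf := by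
  classical
  apply algebraicIndependent_of_finite_type
  intro t ht
  -- the arguments
  let T : Finset ℂ := ht.toFinset.image fun i => i.1.2
  have hT0 : ∀ x : T, (x : ℂ) ≠ 0 := by
    rintro ⟨x, hx⟩
    obtain ⟨i, _, rfl⟩ := Finset.mem_image.1 hx
    exact i.2.2
  obtain ⟨J, hJ⟩ : ∃ J : ℕ, ∀ i ∈ t, i.1.1 < J := by
    refine ⟨(ht.toFinset.sup fun i => i.1.1) + 1, fun i hi => ?_⟩
    have := Finset.le_sup (f := fun i : Ix => i.1.1) (ht.mem_toFinset.2 hi)
    omega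
  have h1 := EC_alg (ι := T) (α := fun x => (x : ℂ)) Subtype.val_injective hT0 J
  let g : t → Fin J × T := fun i => (⟨i.1.1.1, hJ i.1 i.2⟩,
    ⟨i.1.1.2, Finset.mem_image.2 ⟨i.1, ht.mem_toFinset.2 i.2, rfl⟩⟩)
  have hg : Function.Injective g := by
    intro i j hij
    have h2 := congrArg (fun p : Fin J × T => (p.1 : ℕ)) hij
    have h3 := congrArg (fun p : Fin J × T => (p.2 : ℂ)) hij
    exact Subtype.ext (Subtype.ext (Prod.ext h2 h3))
  have h2 := h1.comp g hg
  -- change of rings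
  let ψ : Bf →+* A0 := (Bf.subtype : Bf →+* ℂ⟦X⟧).codRestrict A0 (fun x => Bf_A0 x.2)
  refine AlgebraicIndependent.of_ringHom_of_comp_eq (S := A0) (B := ℂ⟦X⟧) ψ (Af.subtype : Af →+* ℂ⟦X⟧) h2 ?_ ?_
  · intro x y h
    exact Subtype.ext (congrArg (fun z : A0 => (z : ℂ⟦X⟧)) h)
  · rfl

end Pool.Agent.W5h35.GA
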