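import Mathlib

/-!
# Iterated primitives in a differential field without logarithms of constants

`L` is a field with a derivation, `C` a field of constants such that `u' ∈ C` implies `u ∈ C`.
-/

set_option autoImplicit false

open Polynomial

namespace Pool.Agent.W5h35.GA

open Differential

variable {C L : Type} [Field C] [Field L] [Algebra C L] [Differential L]

/-- the derivation -/
abbrev dL (x : L) : L := Differential.deriv x

variable (C L) in
/-- the elements of `C` are constants, and an element whose derivative is in `C` is in `C` -/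
def Cst : Prop := (∀ c : C, dL (algebraMap C L c) = 0) ∧
  ∀ (u : L) (c : C), dL u = algebraMap C L c → ∃ a : C, u = algebraMap C L a

/-- stable subfields containing the constants -/
structure Stb (C : Type) {L : Type} [Field C] [Field L] [Algebra C L] [Differential L] (F : Subfield L) : Prop where
  const : ∀ c : C, algebraMap C L c ∈ F
  stable : ∀ x ∈ F, dL x ∈ F

/-- the derivation of a stable subfield -/
noncomputable def resD {F : Subfield L} (hF : ∀ x ∈ F, dL x ∈ F) : Derivation ℤ F F :=
  Derivation.mk' { toFun := fun x => (⟨dL x.1, hF _ x.2⟩ : F)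
                   map_add' := fun x y => Subtype.ext (by simp [dL])
                   map_smul' := fun n x => Subtype.ext (by simp [dL]) } (by
    intro a b
    apply Subtype.ext
    simp [dL])

section

variable {F : Subfield L} (hF : ∀ x ∈ F, dL x ∈ F) (v : F)

/-- the derivation of the polynomial ring -/
noncomputable def pD (v : F) : Polynomial F →+ Polynomial F :=
  letI : Differential F := ⟨resD hF⟩
  (implicitDeriv (Polynomial.C v) : Derivation ℤ (Polynomial F) (Polynomial F)).toLinearMap.toAddMonoidHom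

lemma coeff_pD (p : Polynomial F) (n : ℕ) :
    ((pD hF v p).coeff n : L) = dL ((p.coeff n : F) : L) + (n + 1) * ((p.coeff (n + 1) : F) : L) * v := by
  letI : Differential F := ⟨resD hF⟩
  have h : pD hF v p = mapCoeffs p + Polynomial.C v * derivative p := by
    show implicitDeriv (Polynomial.C v) p = _
    simp [implicitDeriv]
  rw [h, coeff_add, coeff_C_mul, coeff_derivative, coeff_mapCoeffs]
  show ((((resD hF (p.coeff n)) : F) + v * (p.coeff (n + 1) * ((n : F) + 1)) : F) : L) = _
  push_cast
  have h1 : ((resD hF (p.coeff n) : F) : L) = dL ((p.coeff n : F) : L) := rfl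
  rw [h1]
  ring

lemma aeval_pD (t : L) (ht : dL t = v) (p : Polynomial F) : aeval t (pD hF v p) = dL (aeval t p) := by
  letI : Differential F := ⟨resD hF⟩
  haveI : DifferentialAlgebra F L := ⟨fun a => rfl⟩
  have h := deriv_aeval_eq_implicitDeriv (A := F) t (Polynomial.C v) (by rw [aeval_C]; exact ht) p
  rw [dL, h]
  rfl

end

theorem mem_of_alg [CharZero L] (hC : Cst C L) {F : Subfield L} (hF : Stb C F) {y : L} (hy : IsAlgebraic F y) (hy' : dL y ∈ F) :
    y ∈ F := by
  set p := minpoly F y with hp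
  have hint : IsIntegral F y := hy.isIntegral
  have hmon : p.Monic := minpoly.monic hint
  have hn : 0 < p.natDegree := minpoly.natDegree_pos hint
  set q := pD hF.stable ⟨dL y, hy'⟩ p with hq
  have hq0 : aeval y q = 0 := by
    rw [hq, aeval_pD hF.stable ⟨dL y, hy'⟩ y rfl, minpoly.aeval, dL, map_zero]
  have hdeg : q.degree < p.degree := by
    rw [Polynomial.degree_eq_natDegree hmon.ne_zero, Polynomial.degree_lt_iff_coeff_zero]
    intro m hm
    apply Subtype.ext
    rw [hq, coeff_pD, Polynomial.coeff_eq_zero_of_natDegree_lt (show p.natDegree < m + 1 by omega)]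
    rcases eq_or_lt_of_le hm with h | h
    · rw [← h, hmon.coeff_natDegree]
      simp [dL]
    · rw [Polynomial.coeff_eq_zero_of_natDegree_lt h]
      simp [dL]
  have hqz : q = 0 := by
    by_contra hne
    exact absurd (minpoly.degree_le_of_ne_zero F y hne hq0) (not_le.2 hdeg)
  obtain ⟨n, hn'⟩ : ∃ n, p.natDegree = n + 1 := ⟨p.natDegree - 1, by omega⟩
  have h1 : ((q.coeff n : F) : L) = 0 := by rw [hqz]; simp
  rw [hq, coeff_pD, ← hn', hmon.coeff_natDegree] at h1
  have h2 : dL (((p.coeff n : F) : L) + (n + 1) * y) = 0 := by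
    have h3 : dL (((p.coeff n : F) : L) + (n + 1) * y) = dL ((p.coeff n : F) : L) + (n + 1) * dL y := by
      rw [dL, map_add]
      have h4 : ((n : L) + 1) * y = (n + 1 : ℕ) • y := by rw [nsmul_eq_mul]; push_cast; ring
      rw [h4, map_nsmul, nsmul_eq_mul]
      push_cast
      rfl
    rw [h3, ← h1]
    simp
  obtain ⟨a, ha⟩ := hC.2 _ 0 (by rw [h2, map_zero])
  have hn0 : ((n : L) + 1) ≠ 0 := by exact_mod_cast (Nat.succ_ne_zero n)
  have h3 : y = (algebraMap C L a - ((p.coeff n : F) : L)) / ((n : L) + 1) := by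
    rw [← ha]
    field_simp
    ring
  rw [h3]
  refine F.div_mem (F.sub_mem (hF.const a) (p.coeff n).2) ?_
  exact_mod_cast natCast_mem F (n + 1)

/-- one variable -/
theorem simple [CharZero L] (hC : Cst C L) {F : Subfield L} (hF : Stb C F) {t : L} (ht : Transcendental F t)
    (ht' : dL t ∈ F) {f : L} (hf : f ∈ (IntermediateField.adjoin F {t}).toSubfield) {c : C} {b : L} (hb : b ∈ F)
    (hfb : dL f = algebraMap C L c * t + b) : c = 0 ∧ ∃ a : C, f - algebraMap C L a * t ∈ F := by
  classical
  have htF : ∀ x ∈ F, t ≠ x := by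
    rintro x hx rfl
    exact ht (isAlgebraic_algebraMap (⟨t, hx⟩ : F))
  have hinj : ∀ p q : Polynomial F, aeval t p = aeval t q → p = q := by
    intro p q h
    exact transcendental_iff_injective.1 ht h
  set v : F := ⟨dL t, ht'⟩ with hv
  -- the denominators
  have hex : ∃ n : ℕ, ∃ s : Polynomial F, s ≠ 0 ∧ s.natDegree = n ∧ ∃ r : Polynomial F, aeval t s * f = aeval t r := by
    obtain ⟨r, s, hrs⟩ := IntermediateField.mem_adjoin_simple_iff F f |>.1 hf
    by_cases hs : aeval t s = 0
    · refine ⟨0, 1, one_ne_zero, by simp, 0, ?_⟩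
      rw [hrs, hs, div_zero, mul_zero, map_zero]
    · refine ⟨_, s, ?_, rfl, r, ?_⟩
      · rintro rfl
        exact hs (map_zero _)
      · rw [hrs]
        field_simp
  obtain ⟨s, hs0, hsn, r, hr⟩ := Nat.find_spec hex
  have hmin : ∀ s' : Polynomial F, s' ≠ 0 → (∃ r : Polynomial F, aeval t s' * f = aeval t r) →
      s.natDegree ≤ s'.natDegree := by
    intro s' h1 h2
    rw [hsn]
    exact Nat.find_min' hex ⟨s', h1, rfl, h2⟩
  -- monic
  obtain ⟨s1, hs1, hs1d, r1, hr1⟩ : ∃ s1 : Polynomial F, s1.Monic ∧ s1.natDegree = s.natDegree ∧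
      ∃ r1 : Polynomial F, aeval t s1 * f = aeval t r1 := by
    have hl : s.leadingCoeff ≠ 0 := leadingCoeff_ne_zero.2 hs0
    refine ⟨Polynomial.C s.leadingCoeff⁻¹ * s, ?_, ?_, Polynomial.C s.leadingCoeff⁻¹ * r, ?_⟩
    · rw [Polynomial.Monic, leadingCoeff_mul, leadingCoeff_C, inv_mul_cancel₀ hl]
    · rw [natDegree_C_mul (inv_ne_zero hl)]
    · rw [map_mul, map_mul, mul_assoc, hr]
  set g : Polynomial F := Polynomial.C ⟨algebraMap C L c, hF.const c⟩ * X + Polynomial.C ⟨b, hb⟩ with hg
  have hgt : aeval t g = dL f := by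
    rw [hfb, hg, map_add, map_mul, aeval_C, aeval_C, aeval_X]
    rfl
  have hDs : aeval t (pD hF.stable v s1) * f = aeval t (pD hF.stable v r1 - s1 * g) := by
    rw [map_sub, map_mul, aeval_pD hF.stable v t rfl, aeval_pD hF.stable v t rfl, hgt, ← hr1, dL, dL, dL,
      Derivation.leibniz]
    simp only [smul_eq_mul]
    ring
  have hlt : (pD hF.stable v s1).degree < s1.degree := by
    rw [Polynomial.degree_eq_natDegree hs1.ne_zero, Polynomial.degree_lt_iff_coeff_zero]
    intro m hm
    apply Subtype.ext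
    rw [coeff_pD, Polynomial.coeff_eq_zero_of_natDegree_lt (show s1.natDegree < m + 1 by omega)]
    rcases eq_or_lt_of_le hm with h | h
    · rw [← h, hs1.coeff_natDegree]
      simp [dL]
    · rw [Polynomial.coeff_eq_zero_of_natDegree_lt h]
      simp [dL]
  have hDs0 : pD hF.stable v s1 = 0 := by
    by_contra hne
    have h1 := hmin _ hne ⟨_, hDs⟩
    rw [← hs1d] at h1
    exact absurd (Polynomial.natDegree_lt_natDegree hne hlt) (not_lt.2 h1)
  -- the denominator is 1
  have hs1c : s1 = 1 := by
    have h1 : dL (aeval t s1) = algebraMap C L 0 := by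
      rw [← aeval_pD hF.stable v t rfl, hDs0, map_zero, map_zero]
    obtain ⟨a, ha⟩ := hC.2 _ _ h1
    have h2 : aeval t s1 = aeval t (Polynomial.C (⟨algebraMap C L a, hF.const a⟩ : F)) := by
      rw [ha, aeval_C]; rfl
    have h3 := hinj _ _ h2
    have h4 : s1.natDegree = 0 := by rw [h3, natDegree_C]
    exact hs1.natDegree_eq_zero.1 h4
  rw [hs1c, map_one, one_mul] at hr1
  have hDr : pD hF.stable v r1 = g := by
    apply hinj
    rw [aeval_pD hF.stable v t rfl, hgt, hr1]
  have hco : ∀ n : ℕ, dL ((r1.coeff n : F) : L) + (n + 1) * ((r1.coeff (n + 1) : F) : L) * dL t = ((g.coeff n : F) : L) := by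
    intro n
    rw [← hDr, coeff_pD]
  have hg1 : ((g.coeff 1 : F) : L) = algebraMap C L c := by
    rw [hg, coeff_add, coeff_C_mul, coeff_X_one, mul_one, coeff_C_succ, add_zero]
  have hg2 : ∀ n : ℕ, 2 ≤ n → ((g.coeff n : F) : L) = 0 := by
    intro n hn
    rw [hg, coeff_add, coeff_C_mul, coeff_X_of_ne_one (by omega), mul_zero, coeff_C_of_ne_zero (by omega), add_zero]
    rfl
  -- the degree
  have hm : r1.natDegree ≤ 1 := by
    by_contra hlt1
    push Not at hlt1
    obtain ⟨n, hn⟩ : ∃ n, r1.natDegree = n + 2 := ⟨r1.natDegree - 2, by omega⟩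
    have h1 := hco (n + 2)
    rw [hg2 _ (by omega), Polynomial.coeff_eq_zero_of_natDegree_lt (show r1.natDegree < n + 2 + 1 by omega)] at h1
    have h1' : dL ((r1.coeff (n + 2) : F) : L) = 0 := by
      rw [← h1]; simp
    have h2 := hco (n + 1)
    obtain ⟨c', hc'⟩ : ∃ c' : C, ((g.coeff (n + 1) : F) : L) = algebraMap C L c' := by
      rcases Nat.eq_zero_or_pos n with h | h
      · rw [h]; exact ⟨c, hg1⟩
      · exact ⟨0, by rw [hg2 _ (by omega), map_zero]⟩
    rw [hc'] at h2
    have h3 : dL (((r1.coeff (n + 1) : F) : L) + ((n : L) + 2) * ((r1.coeff (n + 2) : F) : L) * t) = algebraMap C L c' := by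
      rw [← h2, dL, map_add, Derivation.leibniz]
      have h4 : ((n : L) + 2) * ((r1.coeff (n + 2) : F) : L) = (n + 2 : ℕ) • ((r1.coeff (n + 2) : F) : L) := by
        rw [nsmul_eq_mul]; push_cast; ring
      rw [h4, map_nsmul]
      have h5 : Differential.deriv ((r1.coeff (n + 2) : F) : L) = 0 := h1'
      rw [h5]
      simp only [smul_eq_mul, smul_zero, mul_zero, add_zero, nsmul_eq_mul, dL]
      push_cast
      ring
    obtain ⟨a, ha⟩ := hC.2 _ _ h3
    have hlead : ((r1.coeff (n + 2) : F) : L) ≠ 0 := by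
      intro h
      have h0 : r1.coeff r1.natDegree = 0 := by
        rw [hn]; exact Subtype.ext h
      have : r1 = 0 := leadingCoeff_eq_zero.1 h0
      rw [this] at hn
      simp at hn
    have hn2 : ((n : L) + 2) ≠ 0 := by exact_mod_cast (by omega : n + 2 ≠ 0)
    have h6 : t = (algebraMap C L a - ((r1.coeff (n + 1) : F) : L)) / (((n : L) + 2) * ((r1.coeff (n + 2) : F) : L)) := by
      rw [← ha]
      field_simp
      ring
    refine htF _ ?_ h6
    refine F.div_mem (F.sub_mem (hF.const a) (r1.coeff (n + 1)).2) (F.mul_mem ?_ (r1.coeff (n + 2)).2)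
    exact_mod_cast natCast_mem F (n + 2)
  have h1 := hco 1
  rw [hg1, Polynomial.coeff_eq_zero_of_natDegree_lt (show r1.natDegree < 1 + 1 by omega)] at h1
  have h1' : dL ((r1.coeff 1 : F) : L) = algebraMap C L c := by
    rw [← h1]; simp
  obtain ⟨a, ha⟩ := hC.2 _ _ h1'
  have hc0 : algebraMap C L c = 0 := by rw [← h1', ha, hC.1]
  refine ⟨by simpa using hc0, a, ?_⟩
  have h2 : f = ((r1.coeff 0 : F) : L) + ((r1.coeff 1 : F) : L) * t := by
    rw [hr1, aeval_eq_sum_range' (show r1.natDegree < 2 by omega)]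
    rw [Finset.sum_range_succ, Finset.sum_range_one, Algebra.smul_def, Algebra.smul_def, pow_zero, mul_one, pow_one]
    rfl
  rw [h2, ha]
  have h3 : ((r1.coeff 0 : F) : L) + algebraMap C L a * t - algebraMap C L a * t = ((r1.coeff 0 : F) : L) := by ring
  rw [h3]
  exact (r1.coeff 0).2

end Pool.Agent.W5h35.GA
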