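import Pool.Agent.R352.E.Sys

/-!
# The theorem of Siegel and Shidlovskii over `ℚ` for finitely generated algebras of E-functions
-/

set_option autoImplicit false

open PowerSeries

namespace Pool.Agent.W5h35.GA

open Pool.Agent.Y113 Pool.Agent.R352.E

/-! ## E-functions form an algebra -/

lemma cf_add (m : ℕ) (f g : ℚ⟦X⟧) : cf m (f + g) = cf m f + cf m g := by
  rw [cf, cf, cf, map_add, mul_add]

lemma cf_smul (m : ℕ) (c : ℚ) (f : ℚ⟦X⟧) : cf m (c • f) = c * cf m f := by
  rw [cf, cf, coeff_smul, smul_eq_mul]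
  ring

lemma EF_add {f g : ℚ⟦X⟧} (hf : EF f) (hg : EF g) : EF (f + g) := by
  obtain ⟨C1, hC1, h1, d1⟩ := hf
  obtain ⟨C2, hC2, h2, d2⟩ := hg
  have hC : 1 ≤ C1 * C2 := one_le_mul_of_one_le_of_one_le hC1 hC2
  have hm1 : ∀ m : ℕ, C1 ^ (m + 1) ≤ (C1 * C2) ^ (m + 1) := fun m =>
    pow_le_pow_left₀ (by linarith) (le_mul_of_one_le_right (by linarith) hC2) _
  have hm2 : ∀ m : ℕ, C2 ^ (m + 1) ≤ (C1 * C2) ^ (m + 1) := fun m =>
    pow_le_pow_left₀ (by linarith) (le_mul_of_one_le_left (by linarith) hC1) _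
  have h22 : ∀ m : ℕ, (2 : ℝ) ≤ 2 ^ (m + 1) := fun m => by
    rw [pow_succ]
    have : (1 : ℝ) ≤ 2 ^ m := one_le_pow₀ (by norm_num)
    linarith
  have hle : ∀ m : ℕ, (C1 * C2) ^ (m + 1) ≤ (2 * (C1 * C2)) ^ (m + 1) := fun m =>
    pow_le_pow_left₀ (by linarith) (by linarith) _
  refine ⟨2 * (C1 * C2), by linarith, fun m => ?_, fun m => ?_⟩
  · rw [cf_add]
    push_cast
    refine (abs_add_le _ _).trans ?_
    have h3 := h1 m
    have h4 := h2 m
    have h5 := hm1 m
    have h6 := hm2 m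
    rw [mul_pow]
    have h7 : 0 ≤ (C1 * C2) ^ (m + 1) := by positivity
    nlinarith [h22 m]
  · obtain ⟨e1, he1, he1C, he1i⟩ := d1 m
    obtain ⟨e2, he2, he2C, he2i⟩ := d2 m
    refine ⟨e1 * e2, Nat.mul_pos he1 he2, ?_, fun j hj => ?_⟩
    · push_cast
      refine le_trans ?_ (hle m)
      rw [mul_pow]
      exact mul_le_mul he1C he2C (by positivity) (by positivity)
    · obtain ⟨a, ha⟩ := he1i j hj
      obtain ⟨b, hb⟩ := he2i j hj
      refine ⟨e2 * a + e1 * b, ?_⟩
      rw [cf_add]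
      push_cast
      rw [← ha, ← hb]
      ring

lemma EF_smul (c : ℚ) {f : ℚ⟦X⟧} (hf : EF f) : EF (c • f) := by
  obtain ⟨C1, hC1, h1, d1⟩ := hf
  have hd : (1 : ℝ) ≤ c.den := by exact_mod_cast c.den_pos
  set K : ℝ := (|(c : ℝ)| + 1) * c.den with hK
  have hc1 : (1 : ℝ) ≤ |(c : ℝ)| + 1 := by linarith [abs_nonneg (c : ℝ)]
  have hK1 : 1 ≤ K := one_le_mul_of_one_le_of_one_le hc1 hd
  have hKc : |(c : ℝ)| ≤ K := by
    rw [hK]
    nlinarith [abs_nonneg (c : ℝ)]
  have hKd : (c.den : ℝ) ≤ K := by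
    rw [hK]
    nlinarith [abs_nonneg (c : ℝ)]
  refine ⟨K * C1, one_le_mul_of_one_le_of_one_le hK1 hC1, fun m => ?_, fun m => ?_⟩
  · rw [cf_smul]
    push_cast
    rw [abs_mul, mul_pow]
    refine mul_le_mul (hKc.trans ?_) (h1 m) (abs_nonneg _) (by positivity)
    exact le_self_pow₀ hK1 (Nat.succ_ne_zero m)
  · obtain ⟨e1, he1, he1C, he1i⟩ := d1 m
    refine ⟨c.den * e1, Nat.mul_pos c.den_pos he1, ?_, fun j hj => ?_⟩
    · push_cast
      rw [mul_pow]
      exact mul_le_mul (hKd.trans (le_self_pow₀ hK1 (Nat.succ_ne_zero m))) he1C (by positivity) (by positivity)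
    · obtain ⟨a, ha⟩ := he1i j hj
      refine ⟨c.num * a, ?_⟩
      rw [cf_smul]
      push_cast
      rw [← ha]
      have h2 : (c.den : ℚ) * c = c.num := by
        rw [mul_comm]; exact Rat.mul_den_eq_num c
      rw [← h2]
      ring

lemma EF_zero : EF 0 := by
  have := EF_smul 0 EF.one
  rwa [zero_smul] at this

/-! ## the filtration -/

section

variable {τ : Type} (g : τ → ℚ⟦X⟧)

/-- the space spanned by `1` and the functions -/
noncomputable def V : Submodule ℚ ℚ⟦X⟧ := Submodule.span ℚ (insert 1 (Set.range g))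

lemma one_mem_V : (1 : ℚ⟦X⟧) ∈ V g := Submodule.subset_span (Set.mem_insert _ _)

lemma one_mem_Vn (n : ℕ) : (1 : ℚ⟦X⟧) ∈ V g ^ n := by
  induction n with
  | zero => rw [pow_zero]; exact Submodule.one_le.1 le_rfl
  | succ n ih =>
    rw [pow_succ]
    have := Submodule.mul_mem_mul ih (one_mem_V g)
    rwa [one_mul] at this

lemma Vn_mono (n : ℕ) : V g ^ n ≤ V g ^ (n + 1) := by
  intro x hx
  rw [pow_succ]
  have := Submodule.mul_mem_mul hx (one_mem_V g)
  rwa [mul_one] at this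

lemma Vn_mono' {m n : ℕ} (h : m ≤ n) : V g ^ m ≤ V g ^ n := by
  induction n, h using Nat.le_induction with
  | base => exact le_refl _
  | succ n _ ih => exact ih.trans (Vn_mono g n)

lemma mem_Vn {G : ℚ⟦X⟧} (hG : G ∈ Algebra.adjoin ℚ (Set.range g)) : ∃ n, G ∈ V g ^ n := by
  induction hG using Algebra.adjoin_induction with
  | mem x hx =>
    refine ⟨1, ?_⟩
    rw [pow_one]
    exact Submodule.subset_span (Set.mem_insert_of_mem _ hx)
  | algebraMap r =>
    refine ⟨1, ?_⟩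
    rw [pow_one, Algebra.algebraMap_eq_smul_one]
    exact Submodule.smul_mem _ _ (one_mem_V g)
  | add x y _ _ hx hy =>
    obtain ⟨m, hm⟩ := hx
    obtain ⟨n, hn⟩ := hy
    exact ⟨max m n, add_mem (Vn_mono' g (le_max_left _ _) hm) (Vn_mono' g (le_max_right _ _) hn)⟩
  | mul x y _ _ hx hy =>
    obtain ⟨m, hm⟩ := hx
    obtain ⟨n, hn⟩ := hy
    refine ⟨m + n, ?_⟩
    rw [pow_add]
    exact Submodule.mul_mem_mul hm hn

lemma Vn_le (n : ℕ) : ∀ x ∈ V g ^ n, x ∈ Algebra.adjoin ℚ (Set.range g) := by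
  have h1 : V g ≤ Subalgebra.toSubmodule (Algebra.adjoin ℚ (Set.range g)) := by
    rw [V, Submodule.span_le]
    rintro x (rfl | hx)
    · exact (Algebra.adjoin ℚ (Set.range g)).one_mem
    · exact Algebra.subset_adjoin hx
  induction n with
  | zero =>
    intro x hx
    rw [pow_zero] at hx
    obtain ⟨r, rfl⟩ := Submodule.mem_one.1 hx
    exact Subalgebra.algebraMap_mem _ r
  | succ n ih =>
    intro x hx
    rw [pow_succ] at hx
    refine Submodule.mul_induction_on hx (fun a ha b hb => ?_) (fun a b ha hb => ?_)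
    · exact mul_mem (ih a ha) (h1 hb)
    · exact add_mem ha hb

lemma EF_V (hE : ∀ t, EF (g t)) : ∀ x ∈ V g, EF x := by
  intro x hx
  refine Submodule.span_induction (p := fun x _ => EF x) ?_ EF_zero (fun x y _ _ => EF_add) (fun c x _ => EF_smul c) hx
  rintro x (rfl | ⟨t, rfl⟩)
  · exact EF.one
  · exact hE t

lemma EF_Vn (hE : ∀ t, EF (g t)) (n : ℕ) : ∀ x ∈ V g ^ n, EF x := by
  induction n with
  | zero =>
    intro x hx
    rw [pow_zero] at hx
    obtain ⟨r, rfl⟩ := Submodule.mem_one.1 hx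
    rw [Algebra.algebraMap_eq_smul_one]
    exact EF_smul r EF.one
  | succ n ih =>
    intro x hx
    rw [pow_succ] at hx
    refine Submodule.mul_induction_on hx (fun a ha b hb => (ih a ha).mul (EF_V g hE b hb)) (fun a b ha hb => EF_add ha hb)

/-- the module over the polynomials spanned by a space -/
noncomputable def PS (U : Submodule ℚ ℚ⟦X⟧) : Submodule (Polynomial ℚ) ℚ⟦X⟧ := Submodule.span (Polynomial ℚ) (U : Set ℚ⟦X⟧)

lemma le_PS {U : Submodule ℚ ℚ⟦X⟧} {x : ℚ⟦X⟧} (hx : x ∈ U) : x ∈ PS U := Submodule.subset_span hx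

lemma PS_mul {U W : Submodule ℚ ℚ⟦X⟧} {x y : ℚ⟦X⟧} (hx : x ∈ PS U) (hy : y ∈ W) : x * y ∈ PS (U * W) := by
  refine Submodule.span_induction (p := fun x _ => x * y ∈ PS (U * W)) ?_ ?_ ?_ ?_ hx
  · intro x hx; exact le_PS (Submodule.mul_mem_mul hx hy)
  · rw [zero_mul]; exact zero_mem _
  · intro a b _ _ ha hb; rw [add_mul]; exact add_mem ha hb
  · intro c a _ ha; rw [smul_mul_assoc]; exact Submodule.smul_mem _ _ ha

lemma PS_mul' {U W : Submodule ℚ ℚ⟦X⟧} {x y : ℚ⟦X⟧} (hx : x ∈ U) (hy : y ∈ PS W) : x * y ∈ PS (U * W) := by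
  rw [mul_comm x y, mul_comm U W]
  exact PS_mul hy hx

lemma PS_smul {U : Submodule ℚ ℚ⟦X⟧} {x : ℚ⟦X⟧} (c : ℚ) (hx : x ∈ PS U) : c • x ∈ PS U := by
  have h : c • x = (Polynomial.C c : Polynomial ℚ) • x := by
    rw [Algebra.smul_def, Algebra.smul_def]
    congr 1
    show _ = ((Polynomial.C c : Polynomial ℚ) : ℚ⟦X⟧)
    rw [Polynomial.coe_C]
    rfl
  rw [h]
  exact Submodule.smul_mem _ _ hx

lemma der_V (hD : ∀ t, X * d⁄dX ℚ (g t) ∈ PS (V g)) : ∀ x ∈ V g, X * d⁄dX ℚ x ∈ PS (V g) := by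
  intro x hx
  refine Submodule.span_induction (p := fun x _ => X * d⁄dX ℚ x ∈ PS (V g)) ?_ ?_ ?_ ?_ hx
  · rintro x (rfl | ⟨t, rfl⟩)
    · rw [Derivation.map_one_eq_zero, mul_zero]; exact zero_mem _
    · exact hD t
  · rw [map_zero, mul_zero]; exact zero_mem _
  · intro a b _ _ ha hb; rw [map_add, mul_add]; exact add_mem ha hb
  · intro c a _ ha
    rw [Derivation.map_smul, mul_smul_comm]
    exact PS_smul c ha

lemma der_Vn (hD : ∀ t, X * d⁄dX ℚ (g t) ∈ PS (V g)) (n : ℕ) : ∀ x ∈ V g ^ n, X * d⁄dX ℚ x ∈ PS (V g ^ n) := by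
  induction n with
  | zero =>
    intro x hx
    rw [pow_zero] at hx
    obtain ⟨r, rfl⟩ := Submodule.mem_one.1 hx
    rw [Derivation.map_algebraMap, mul_zero]; exact zero_mem _
  | succ n ih =>
    intro x hx
    rw [pow_succ] at hx ⊢
    refine Submodule.mul_induction_on hx (fun a ha b hb => ?_) (fun a b ha hb => ?_)
    · rw [Derivation.leibniz, smul_eq_mul, smul_eq_mul]
      have h1 : X * (a * d⁄dX ℚ b + b * d⁄dX ℚ a) = a * (X * d⁄dX ℚ b) + (X * d⁄dX ℚ a) * b := by ring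
      rw [h1]
      exact add_mem (PS_mul' ha (der_V g hD b hb)) (PS_mul (ih a ha) hb)
    · rw [map_add, mul_add]; exact add_mem ha hb

/-- independence over the polynomials -/
lemma LI_poly (hX : Transcendental (Algebra.adjoin ℚ (Set.range g)) (X : ℚ⟦X⟧)) {ι : Type} [Fintype ι] {y : ι → ℚ⟦X⟧}
    (hy : ∀ i, y i ∈ Algebra.adjoin ℚ (Set.range g)) (hLI : LinearIndependent ℚ y) :
    LinearIndependent (Polynomial ℚ) y := by
  set A := Algebra.adjoin ℚ (Set.range g) with hA
  rw [Fintype.linearIndependent_iff]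
  intro c hc i
  have h1 : ∑ i, (c i).map (algebraMap ℚ A) * Polynomial.C (⟨y i, hy i⟩ : A) = 0 := by
    refine (transcendental_iff.1 hX) _ ?_
    rw [map_sum, ← hc]
    refine Finset.sum_congr rfl fun i _ => ?_
    rw [map_mul, Polynomial.aeval_C, Polynomial.aeval_map_algebraMap, Algebra.smul_def]
    congr 1
    show _ = ((c i : Polynomial ℚ) : ℚ⟦X⟧)
    induction c i using Polynomial.induction_on' with
    | add p q hp hq => rw [map_add, hp, hq, Polynomial.coe_add]
    | monomial n a =>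
      rw [Polynomial.aeval_monomial, Polynomial.coe_monomial, PowerSeries.monomial_eq_C_mul_X_pow]
      rfl
  ext k
  have h2 := congrArg (fun p => ((Polynomial.coeff p k : A) : ℚ⟦X⟧)) h1
  simp only [Polynomial.finsetSum_coeff, Polynomial.coeff_mul_C, Polynomial.coeff_map, Polynomial.coeff_zero] at h2
  have h3 : ∑ i, (c i).coeff k • y i = 0 := by
    rw [← ZeroMemClass.coe_zero A, ← h2]
    push_cast
    refine Finset.sum_congr rfl fun i _ => ?_
    rw [Algebra.smul_def]
  have h4 := Fintype.linearIndependent_iff.1 hLI _ h3 i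
  rw [h4, Polynomial.coeff_zero]

end

/-- **Siegel–Shidlovskii.** A function in the algebra generated by E-functions `g t` forming a system which vanishes at `1` is zero,
if `X` is transcendental over this algebra. -/
theorem ss {τ : Type} [Finite τ] (g : τ → ℚ⟦X⟧) (hE : ∀ t, EF (g t)) (hD : ∀ t, X * d⁄dX ℚ (g t) ∈ PS (V g))
    (hX : Transcendental (Algebra.adjoin ℚ (Set.range g)) (X : ℚ⟦X⟧)) {G : ℚ⟦X⟧}
    (hG : G ∈ Algebra.adjoin ℚ (Set.range g)) (h0 : ev 1 G = 0) : G = 0 := by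
  classical
  obtain ⟨n, hn⟩ := mem_Vn g hG
  set U := V g ^ n with hU
  have hfgV : (V g).FG := Submodule.fg_span ((Set.finite_range g).insert 1)
  have hfgU : U.FG := hfgV.pow n
  haveI : FiniteDimensional ℚ U := Module.Finite.iff_fg.2 hfgU
  set e1 : U := ⟨1, one_mem_Vn g n⟩ with he1
  have he1n : e1 ≠ 0 := by
    intro h
    exact one_ne_zero (congrArg Subtype.val h)
  have hli : LinearIndepOn ℚ id ({e1} : Set U) := by
    rw [linearIndepOn_singleton_iff]
    exact he1n
  let b := Module.Basis.extend hli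
  have hsub : ({e1} : Set U) ⊆ hli.extend (Set.subset_univ _) := hli.subset_extend _
  haveI hfin : Finite (hli.extend (Set.subset_univ _)) := Module.Finite.finite_basis b
  letI : Fintype (hli.extend (Set.subset_univ _)) := Fintype.ofFinite _
  set N := Fintype.card (hli.extend (Set.subset_univ _)) with hN
  let e : Fin N ≃ (hli.extend (Set.subset_univ _)) := (Fintype.equivFin _).symm
  set y : Fin N → ℚ⟦X⟧ := fun i => ((e i : U) : ℚ⟦X⟧) with hy
  have hyU : ∀ i, y i ∈ U := fun i => (e i : U).2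
  have hyb : ∀ i, y i = ((b (e i) : U) : ℚ⟦X⟧) := by
    intro i
    rw [hy]
    simp only [b, Module.Basis.extend_apply_self]
  have hLI : LinearIndependent ℚ y := by
    have h1 : LinearIndependent ℚ (fun i : Fin N => b (e i)) := b.linearIndependent.comp e e.injective
    have h2 := h1.map' U.subtype (Submodule.ker_subtype U)
    have h3 : (⇑U.subtype ∘ fun i => b (e i)) = y := by
      funext i
      rw [hyb i]
      rfl
    rw [h3] at h2
    exact h2
  have hspan : ∀ x ∈ U, ∃ c : Fin N → ℚ, x = ∑ i, c i • y i := by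
    intro x hx
    refine ⟨fun i => b.repr ⟨x, hx⟩ (e i), ?_⟩
    have h1 := congrArg U.subtype (b.sum_repr ⟨x, hx⟩)
    rw [map_sum] at h1
    change _ = x at h1
    rw [← Equiv.sum_comp e] at h1
    refine h1.symm.trans (Finset.sum_congr rfl fun i _ => ?_)
    rw [hyb i, map_smul]
    rfl
  -- the index of 1
  set i0 : Fin N := e.symm ⟨e1, hsub rfl⟩ with hi0
  have hy0 : y i0 = 1 := by
    rw [hy]
    simp only [hi0, Equiv.apply_symm_apply]
    rfl
  obtain ⟨C, hC, hsize, hden⟩ := EF.common (y := y) (fun i => EF_Vn g hE n _ (hyU i))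
  -- the system
  have hder : ∀ i, ∃ c : Fin N → Polynomial ℚ, X * d⁄dX ℚ (y i) = ∑ j, (c j : ℚ⟦X⟧) * y j := by
    intro i
    have h1 := der_Vn g hD n _ (hyU i)
    refine Submodule.span_induction (p := fun x _ => ∃ c : Fin N → Polynomial ℚ, x = ∑ j, (c j : ℚ⟦X⟧) * y j) ?_ ?_ ?_ ?_ h1
    · intro x hx
      obtain ⟨c, hc⟩ := hspan x hx
      refine ⟨fun j => Polynomial.C (c j), ?_⟩
      rw [hc]
      refine Finset.sum_congr rfl fun j _ => ?_
      rw [Polynomial.coe_C, smul_eq_C_mul]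
    · exact ⟨0, by simp⟩
    · rintro a b _ _ ⟨c, hc⟩ ⟨d, hd⟩
      refine ⟨c + d, ?_⟩
      rw [hc, hd, ← Finset.sum_add_distrib]
      refine Finset.sum_congr rfl fun j _ => ?_
      rw [Pi.add_apply, Polynomial.coe_add, add_mul]
    · rintro p a _ ⟨c, hc⟩
      refine ⟨fun j => p * c j, ?_⟩
      rw [hc, Finset.smul_sum]
      refine Finset.sum_congr rfl fun j _ => ?_
      rw [Polynomial.coe_mul, Algebra.smul_def]
      rw [mul_assoc]
      rfl
  choose c hc using hder
  -- common denominator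
  obtain ⟨q, hq, hqc⟩ : ∃ q : ℕ, 1 ≤ q ∧ ∀ i j, ∃ P : Polynomial ℤ, P.map (Int.castRingHom ℚ) = Polynomial.C (q : ℚ) * c i j := by
    have h1 : ∀ p : Polynomial ℚ, ∃ q : ℕ, 1 ≤ q ∧ ∃ P : Polynomial ℤ, P.map (Int.castRingHom ℚ) = Polynomial.C (q : ℚ) * p := by
      intro p
      induction p using Polynomial.induction_on' with
      | add p r hp hr =>
        obtain ⟨q1, hq1, P1, hP1⟩ := hp
        obtain ⟨q2, hq2, P2, hP2⟩ := hr
        refine ⟨q1 * q2, Nat.mul_pos hq1 hq2, Polynomial.C (q2 : ℤ) * P1 + Polynomial.C (q1 : ℤ) * P2, ?_⟩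
        rw [Polynomial.map_add, Polynomial.map_mul, Polynomial.map_mul, hP1, hP2, Polynomial.map_C, Polynomial.map_C]
        simp only [Int.coe_castRingHom, Int.cast_natCast, Nat.cast_mul, map_mul]
        ring
      | monomial n a =>
        refine ⟨a.den, a.den_pos, Polynomial.monomial n a.num, ?_⟩
        rw [Polynomial.map_monomial, Polynomial.C_mul_monomial]
        congr 1
        rw [mul_comm, Rat.mul_den_eq_num]
        rfl
    choose q hq P hP using fun i j => h1 (c i j)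
    refine ⟨∏ i, ∏ j, q i j, Nat.succ_le_of_lt (Finset.prod_pos fun i _ => Finset.prod_pos fun j _ => hq i j), fun i j => ?_⟩
    have h2 : ∃ r : ℕ, ∏ i, ∏ j, q i j = r * q i j := by
      rw [← Finset.prod_erase_mul _ _ (Finset.mem_univ i), ← Finset.prod_erase_mul (Finset.univ) (fun j => q i j) (Finset.mem_univ j)]
      exact ⟨_, by rw [← mul_assoc]⟩
    obtain ⟨r, hr⟩ := h2
    refine ⟨Polynomial.C (r : ℤ) * P i j, ?_⟩
    rw [Polynomial.map_mul, hP i j, hr, Polynomial.map_C]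
    simp only [Int.coe_castRingHom, Int.cast_natCast, Nat.cast_mul, map_mul]
    ring
  choose Bc hBc using hqc
  have hSys : ESys q C y :=
    { one_le := hC
      hq := hq
      size := hsize
      den := hden
      der := by
        refine ⟨Bc, fun i => ?_⟩
        rw [TQ_eq, mul_assoc, hc i, Finset.mul_sum]
        refine Finset.sum_congr rfl fun j _ => ?_
        rw [ps, hBc i j, Polynomial.coe_mul, Polynomial.coe_C]
        simp only [map_natCast]
        ring }
  have hLIP := LI_poly g hX (fun i => Vn_le g n _ (hyU i)) hLI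
  have hval := E_lin hSys i0 hy0 hLIP
  obtain ⟨d, hd⟩ := hspan G hn
  have hcv : ∀ i, Cv 1 (y i) := fun i => (EF_Vn g hE n _ (hyU i)).cv
  have h3 : ∑ i, d i • ev 1 (y i) = 0 := by
    rw [← h0, hd, Cv.ev_sum one_pos]
    · refine Finset.sum_congr rfl fun i _ => ?_
      rw [smul_eq_C_mul, Cv.ev_mul one_pos (Cv.C _) (hcv i), ev_C, Rat.smul_def]
    · intro i _
      rw [smul_eq_C_mul]
      exact (Cv.C _).mul one_pos (hcv i)
  have h4 := Fintype.linearIndependent_iff.1 hval d h3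
  rw [hd]
  exact Finset.sum_eq_zero fun i _ => by rw [h4 i, zero_smul]

end Pool.Agent.W5h35.GA
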